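import Pool.Agent.V8H87.GG.Fin

/-!
# The conjecture of Parshin for Kimura finite objects over finite fields
-/

set_option autoImplicit false
set_option linter.unusedSectionVars false
set_option maxHeartbeats 1000000

open CategoryTheory Limits MonoidalCategory Module Polynomial Filter
open Pool.Agent.Y112.SR Pool.Agent.Y112.KD Pool.Agent.N64.AF Pool.Agent.R905
open Pool.Agent.Y116.MT (tr)

namespace Pool.Agent.V8H87.GG

universe v u w x

section

variable {C : Type u} [Category.{v} C] [Preadditive C] [MonoidalCategory C]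
  [MonoidalPreadditive C] [SymmetricCategory C] [RightRigidCategory C]
  [Linear ℚ C] [MonoidalLinear ℚ C] {K : Type w} [Field K] [IsAlgClosed K] [Algebra ℚ K]
  {R : SuperRealisation C K}

/-- The main step of the proof of Kahn's theorem. -/
theorem kahn_core [IsIdempotentComplete C] (hR : IsReal ℚ R) (hU : UnitQ C) {S : C}
    (h : IsKimuraFinite S) {q : ℚ} {φ : S ⟶ S} (hφ : IsWt q φ) (hT : StrongTate R q φ) :
    ∃ (e : S ⟶ S) (Q1 : ℚ[X]) (N : ℕ),
      (∃ (f : Fin (numRank ℚ S) → (𝟙_ C ⟶ S)) (g : Fin (numRank ℚ S) → (S ⟶ 𝟙_ C)),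
        e = ∑ i, g i ≫ f i) ∧
      (∀ a : ℕ, Q1.eval (q ^ a) ≠ 0) ∧ en (pol φ Q1 ≫ (𝟙 S - e)) ^ N = 0 := by
  classical
  have hc := R_charZero R
  obtain ⟨Q, hQ0, hQ⟩ := exists_pol hR hU h φ
  obtain ⟨s, Q1, hQ1, hev⟩ := split_off q _ Q hQ0 le_rfl
  obtain ⟨e, he, hrk, hkill, f', g', hfg⟩ := exists_idem hR S
  set F : Module.End K (R.H.obj S) := (R.H.map φ).hom with hF
  set V : Submodule K (R.H.obj S) := ⨆ i : ℕ, Module.End.maxGenEigenspace F ((q : K) ^ i)
    with hV
  have hfin := R.finite S
  -- the range of the idempotent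
  have hrange : LinearMap.range (R.H.map e).hom = V := by
    refine Submodule.eq_of_le_of_finrank_eq ?_ (by rw [hrk]; exact hT.symm)
    rintro _ ⟨v, rfl⟩
    have h1 : ∀ (a : 𝟙_ C ⟶ S) (x : R.H.obj (𝟙_ C)), (R.H.map a).hom x ∈ V := by
      intro a x
      obtain ⟨t, g, hg, rfl⟩ := hφ.1 a
      rw [Functor.map_sum, ModuleCat.hom_sum, LinearMap.sum_apply]
      refine Submodule.sum_mem _ (fun i _ => ?_)
      refine Submodule.mem_iSup_of_mem i ?_
      have h2 : F ((R.H.map (g i)).hom x) = ((q : K) ^ i) • (R.H.map (g i)).hom x := by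
        have h3 := congrArg (fun z => (R.H.map z).hom x) (hg i)
        simp only [Functor.map_comp, ModuleCat.hom_comp, LinearMap.comp_apply] at h3
        rw [R_smul] at h3
        rw [hF, h3]
        push_cast
        rfl
      exact Module.End.mem_maxGenEigenspace _ _ _ |>.2 ⟨1, by
        rw [pow_one, LinearMap.sub_apply, h2]
        simp⟩
    rw [hfg, Functor.map_sum, ModuleCat.hom_sum, LinearMap.sum_apply]
    refine Submodule.sum_mem _ (fun i _ => ?_)
    rw [Functor.map_comp, ModuleCat.hom_comp, LinearMap.comp_apply]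
    exact h1 _ _
  have hfix : ∀ w ∈ V, (R.H.map e).hom w = w := by
    intro w hw
    rw [← hrange] at hw
    obtain ⟨u, rfl⟩ := hw
    rw [← LinearMap.comp_apply, ← ModuleCat.hom_comp, ← Functor.map_comp, he]
  -- the main endomorphism
  let y : S ⟶ S := pol φ Q1 ≫ (𝟙 S - e)
  have hy : R.H.map y = 0 := by
    apply ModuleCat.hom_ext
    have h1 : (⊤ : Submodule K (R.H.obj S)) ≤ LinearMap.ker (R.H.map y).hom := by
      rw [← Module.End.iSup_maxGenEigenspace_eq_top F]
      refine iSup_le (fun μ v hv => ?_)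
      rw [LinearMap.mem_ker]
      have e1 : (R.H.map y).hom v = (R.H.map (𝟙 S - e)).hom ((R.H.map (pol φ Q1)).hom v) := by
        rw [← LinearMap.comp_apply, ← ModuleCat.hom_comp, ← Functor.map_comp]
      have hinv : ∀ P : K[X], ∀ w ∈ Module.End.maxGenEigenspace F μ,
          aeval F P w ∈ Module.End.maxGenEigenspace F μ := by
        intro P w hw
        exact Module.End.mapsTo_maxGenEigenspace_of_comm (comm_pol F P) μ hw
      rw [e1, rho_pol]
      by_cases hμ : ∃ a : ℕ, μ = (q : K) ^ a
      · obtain ⟨a, rfl⟩ := hμ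
        have h2 := hfix _ (Submodule.mem_iSup_of_mem a (hinv (Q1.map (algebraMap ℚ K)) v hv))
        rw [Functor.map_sub, CategoryTheory.Functor.map_id]
        change aeval F (Q1.map (algebraMap ℚ K)) v - (R.H.map e).hom
          (aeval F (Q1.map (algebraMap ℚ K)) v) = 0
        rw [h2, sub_self]
      · have h2 : aeval F ((s.map (fun a => X - Polynomial.C (q ^ a))).prod.map (algebraMap ℚ K))
            (aeval F (Q1.map (algebraMap ℚ K)) v) = 0 := by
          rw [← Module.End.mul_apply, ← map_mul, ← Polynomial.map_mul, ← hQ1, ← rho_pol, hQ,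
            Functor.map_zero]
          rfl
        have h3 : ∀ (s : Multiset ℕ) (w : R.H.obj S), w ∈ Module.End.maxGenEigenspace F μ →
            aeval F ((s.map (fun a => X - Polynomial.C (q ^ a))).prod.map (algebraMap ℚ K)) w = 0 →
            w = 0 := by
          intro s
          induction s using Multiset.induction_on with
          | empty =>
            intro w _ hw
            simpa using hw
          | cons a s ih =>
            intro w hw hw0
            rw [Multiset.map_cons, Multiset.prod_cons, mul_comm, Polynomial.map_mul, map_mul,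
              Module.End.mul_apply] at hw0
            have h4 : aeval F ((X - Polynomial.C (q ^ a)).map (algebraMap ℚ K)) w = 0 :=
              ih _ (hinv _ w hw) hw0
            have h5 : F w = ((q : K) ^ a) • w := by
              have h6 : aeval F ((X - Polynomial.C (q ^ a)).map (algebraMap ℚ K)) w =
                  F w - ((q : K) ^ a) • w := by
                simp only [Polynomial.map_sub, map_X, map_C, map_sub, aeval_X, aeval_C,
                  LinearMap.sub_apply, Module.algebraMap_end_apply]
                rw [map_pow, eq_ratCast]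
              rw [h6] at h4
              exact sub_eq_zero.1 h4
            have h6 : w ∈ Module.End.maxGenEigenspace F ((q : K) ^ a) :=
              Module.End.mem_maxGenEigenspace _ _ _ |>.2 ⟨1, by
                rw [pow_one, LinearMap.sub_apply, h5]
                simp⟩
            have h7 := (Module.End.independent_maxGenEigenspace F).pairwiseDisjoint
              (fun h8 => hμ ⟨a, h8⟩)
            exact Submodule.disjoint_def.1 h7 w hw h6
        rw [h3 s _ (hinv _ v hv) h2, map_zero]
    ext v
    exact h1 (Submodule.mem_top (x := v))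
  obtain ⟨N, hN⟩ := (h.homNil R hU) (en y) hy
  exact ⟨e, Q1, N, ⟨f', g', hfg⟩, hev, hN⟩

/-- Each element of `F S` is a sum of eigenvectors of `φ` whose eigenvalues are powers of `q`. -/
def WtFun (q : ℚ) (F : C ⥤ ModuleCat.{x} ℚ) {S : C} (φ : S ⟶ S) : Prop :=
  ∀ z : F.obj S, ∃ (s : Finset ℕ) (g : ℕ → F.obj S),
    (∀ i, (F.map φ).hom (g i) = (q ^ i) • g i) ∧ z = ∑ i ∈ s, g i

lemma map_pol (F : C ⥤ ModuleCat.{x} ℚ) [F.Additive] {S : C} {φ : S ⟶ S} {z : F.obj S} {c : ℚ}
    (h : (F.map φ).hom z = c • z) (P : ℚ[X]) : (F.map (pol φ P)).hom z = (P.eval c) • z := by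
  have hlin : ∀ (a : ℚ) (f : S ⟶ S), F.map (a • f) = a • F.map f := by
    intro a f
    exact map_rat_smul (F.mapAddHom : (S ⟶ S) →+ (F.obj S ⟶ F.obj S)) a f
  induction P using Polynomial.induction_on' with
  | add p q hp hq =>
    rw [pol_add, Functor.map_add, ModuleCat.hom_add, LinearMap.add_apply, hp, hq, eval_add,
      add_smul]
  | monomial n a =>
    have h1 : ∀ n : ℕ, (F.map (pol φ (X ^ n))).hom z = (c ^ n) • z := by
      intro n
      induction n with
      | zero =>
        rw [pow_zero, pol_one, CategoryTheory.Functor.map_id, pow_zero, one_smul]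
        rfl
      | succ n ih =>
        have h2 : pol φ (X : ℚ[X]) = φ := by
          unfold pol
          rw [aeval_X]
          rfl
        rw [pow_succ', pol_mul, Functor.map_comp, ModuleCat.hom_comp, LinearMap.comp_apply, ih,
          h2, map_smul, h, smul_smul, pow_succ]
    have h3 : pol φ (monomial n a) = a • pol φ (X ^ n) := by
      unfold pol
      rw [← C_mul_X_pow_eq_monomial, map_mul, aeval_C, Algebra.algebraMap_eq_smul_one,
        smul_mul_assoc, one_mul]
    rw [h3, hlin, ModuleCat.hom_smul, LinearMap.smul_apply, h1, eval_monomial, smul_smul]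

/-- The conjecture of Parshin for Kimura finite objects that satisfy the conjecture of Tate: an
additive functor which vanishes on the unit object, such as the higher Chow groups, vanishes. -/
theorem parshin [IsIdempotentComplete C] (hR : IsReal ℚ R) (hU : UnitQ C) {S : C}
    (h : IsKimuraFinite S) {q : ℚ} {φ : S ⟶ S} (hφ : IsWt q φ) (hT : StrongTate R q φ)
    (F : C ⥤ ModuleCat.{x} ℚ) [F.Additive] (hF : WtFun q F φ)
    (h0 : Subsingleton (F.obj (𝟙_ C))) (z : F.obj S) : z = 0 := by
  classical
  obtain ⟨e, Q1, N, ⟨f, g, hfg⟩, hev, hN⟩ := kahn_core hR hU h hφ hT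
  have he : F.map e = 0 := by
    rw [hfg, Functor.map_sum]
    refine Finset.sum_eq_zero (fun i _ => ?_)
    rw [Functor.map_comp]
    have h1 : F.map (f i) = 0 := by
      apply ModuleCat.hom_ext
      ext w
      have h2 : w = 0 := Subsingleton.elim _ _
      rw [h2, map_zero, map_zero]
    rw [h1, Limits.comp_zero]
  have hy : ∀ w : F.obj S, (F.map (pol φ Q1 ≫ (𝟙 S - e))).hom w = (F.map (pol φ Q1)).hom w := by
    intro w
    rw [Functor.map_comp, Functor.map_sub, CategoryTheory.Functor.map_id, he, sub_zero,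
      Category.comp_id]
  have hstep : ∀ (k : ℕ) (w : F.obj S),
      (F.map ((en (pol φ Q1 ≫ (𝟙 S - e)) ^ k : End S) : S ⟶ S)).hom w =
        (F.map (pol φ (Q1 ^ k))).hom w := by
    intro k
    induction k with
    | zero =>
      intro w
      rw [pow_zero, pow_zero, pol_one]
      rfl
    | succ k ih =>
      intro w
      have h2 : ((en (pol φ Q1 ≫ (𝟙 S - e)) ^ (k + 1) : End S) : S ⟶ S) =
          (pol φ Q1 ≫ (𝟙 S - e)) ≫ ((en (pol φ Q1 ≫ (𝟙 S - e)) ^ k : End S) : S ⟶ S) := by
        rw [pow_succ, End.mul_def]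
        rfl
      rw [h2, Functor.map_comp, ModuleCat.hom_comp, LinearMap.comp_apply, hy, ih, pow_succ,
        pol_mul, Functor.map_comp, ModuleCat.hom_comp, LinearMap.comp_apply]
  obtain ⟨t, g', hg', rfl⟩ := hF z
  have h1 : (F.map (pol φ (Q1 ^ N))).hom (∑ i ∈ t, g' i) = 0 := by
    rw [← hstep, hN]
    have h2 : F.map ((0 : End S) : S ⟶ S) = 0 := Functor.map_zero F S S
    rw [h2]
    rfl
  have h3 : (F.map (pol φ (∏ i ∈ t, (X - Polynomial.C (q ^ i))))).hom (∑ i ∈ t, g' i) = 0 := by
    rw [map_sum]
    refine Finset.sum_eq_zero (fun i hi => ?_)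
    rw [map_pol F (hg' i), eval_prod, Finset.prod_eq_zero hi (by simp), zero_smul]
  have h4 : IsCoprime (Q1 ^ N) (∏ i ∈ t, (X - Polynomial.C (q ^ i))) := by
    refine IsCoprime.pow_left (IsCoprime.prod_right (fun i _ => ?_))
    rw [isCoprime_comm]
    refine ((Polynomial.irreducible_X_sub_C (q ^ i)).coprime_iff_not_dvd).2 (fun h5 => ?_)
    exact hev i (dvd_iff_isRoot.1 h5)
  obtain ⟨a, b, hab⟩ := h4
  have h5 : (F.map (pol φ (a * Q1 ^ N + b * ∏ i ∈ t, (X - Polynomial.C (q ^ i))))).hom
      (∑ i ∈ t, g' i) = 0 := by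
    rw [pol_add, pol_mul, pol_mul, Functor.map_add, ModuleCat.hom_add, LinearMap.add_apply,
      Functor.map_comp, Functor.map_comp, ModuleCat.hom_comp, ModuleCat.hom_comp,
      LinearMap.comp_apply, LinearMap.comp_apply, h1, h3, map_zero, map_zero, add_zero]
  rw [hab, pol_one, CategoryTheory.Functor.map_id] at h5
  exact h5

end

end Pool.Agent.V8H87.GG
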