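import Pool.Agent.V8H87.GG.Spect

/-!
# Rectangles

If the Young symmetrizer of the rectangle with `m + 1` rows and `n + 1` columns vanishes, where
`m` and `-n` are the traces of a numerical idempotent and of its complement, then the idempotent
lifts, and the corresponding exterior and symmetric powers vanish.
-/

set_option autoImplicit false
set_option linter.unusedSectionVars false

open Equiv Equiv.Perm

namespace Pool.Agent.V8H87.GG

/-- The boxes of the row `i` in the columns before `k`. -/
def rowL (i : ℕ) : ℕ → List (ℕ × ℕ)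
  | 0 => []
  | k + 1 => (i, k) :: rowL i k

/-- The boxes of the rows `s, …, s + a - 1` in the columns before `c`. -/
def rectF (s : ℕ) : ℕ → ℕ → List (ℕ × ℕ)
  | 0, _ => []
  | a + 1, c => rowL (s + a) c ++ rectF s a c

lemma mem_rowL {i k : ℕ} {b : ℕ × ℕ} : b ∈ rowL i k ↔ b.1 = i ∧ b.2 < k := by
  induction k with
  | zero => simp [rowL]
  | succ k ih =>
    rw [rowL, List.mem_cons, ih, Prod.ext_iff]
    constructor
    · rintro (h | h)
      · exact ⟨h.1, by have := h.2; omega⟩
      · exact ⟨h.1, by omega⟩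
    · rintro ⟨h1, h2⟩
      by_cases h : b.2 = k
      · exact Or.inl ⟨h1, h⟩
      · exact Or.inr ⟨h1, by omega⟩

lemma mem_rectF {s a c : ℕ} {b : ℕ × ℕ} :
    b ∈ rectF s a c ↔ s ≤ b.1 ∧ b.1 < s + a ∧ b.2 < c := by
  induction a with
  | zero => simp only [rectF, List.not_mem_nil, false_iff]; omega
  | succ a ih =>
    rw [rectF, List.mem_append, ih, mem_rowL]
    omega

lemma length_rowL (i k : ℕ) : (rowL i k).length = k := by
  induction k with
  | zero => rfl
  | succ k ih => rw [rowL, List.length_cons, ih]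

lemma length_rectF (s a c : ℕ) : (rectF s a c).length = a * c := by
  induction a with
  | zero => simp [rectF]
  | succ a ih => rw [rectF, List.length_append, ih, length_rowL]; ring

lemma isY_row {i c : ℕ} (h : IsY (rectF 0 i c)) : ∀ {k : ℕ}, k ≤ c →
    IsY (rowL i k ++ rectF 0 i c)
  | 0, _ => h
  | k + 1, hk => by
    refine ⟨isY_row h (k := k) (by omega), ?_, ?_, ?_⟩
    · change (i, k) ∉ rowL i k ++ rectF 0 i c
      rw [List.mem_append, mem_rowL, mem_rectF]
      simp
    · intro x hx
      exact List.mem_append_right _ (mem_rectF.2 ⟨by omega, by simpa using hx, by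
        simp only; omega⟩)
    · intro y hy
      exact List.mem_append_left _ (mem_rowL.2 ⟨rfl, hy⟩)

lemma isY_rect (a c : ℕ) : IsY (rectF 0 a c) := by
  induction a with
  | zero => trivial
  | succ a ih =>
    have := isY_row ih (le_refl c)
    rwa [rectF, zero_add]

lemma rectF_split (s a c : ℕ) : rectF 0 (s + a) c = rectF s a c ++ rectF 0 s c := by
  induction a with
  | zero => simp [rectF]
  | succ a ih => rw [← add_assoc, rectF, ih, rectF, List.append_assoc, zero_add]

lemma isY_swap : ∀ {B : List (ℕ × ℕ)}, IsY B → IsY (B.map Prod.swap)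
  | [], _ => trivial
  | b :: B, h => by
    refine ⟨isY_swap h.1, ?_, ?_, ?_⟩
    · intro h1
      obtain ⟨c, hc, hcb⟩ := List.mem_map.1 h1
      have : c = b := Prod.swap_injective hcb
      subst this
      exact h.2.1 hc
    · intro x hx
      exact List.mem_map.2 ⟨(b.1, x), h.2.2.2 x hx, rfl⟩
    · intro y hy
      exact List.mem_map.2 ⟨(y, b.2), h.2.2.1 y hy, rfl⟩

/-- Two enumerations of the same boxes differ by a permutation. -/
lemma exists_perm {n : ℕ} {α : Type*} {f f' : Fin n → α} (hf : Function.Injective f)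
    (hf' : Function.Injective f') (h : ∀ x, x ∈ Set.range f ↔ x ∈ Set.range f') :
    ∃ g : Perm (Fin n), f = f' ∘ g := by
  have hr : Set.range f = Set.range f' := Set.ext h
  refine ⟨(Equiv.ofInjective f hf).trans ((Equiv.setCongr hr).trans
    (Equiv.ofInjective f' hf').symm), ?_⟩
  funext i
  have h1 := Equiv.apply_ofInjective_symm hf' ⟨f i, hr ▸ Set.mem_range_self i⟩
  simp only [Function.comp_apply, Equiv.trans_apply]
  exact h1.symm

lemma exists_perm_fn {B B' : List (ℕ × ℕ)} {n : ℕ} (hn : B.length = n) (hn' : B'.length = n)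
    (hB : B.Nodup) (hB' : B'.Nodup) (h : ∀ b, b ∈ B ↔ b ∈ B') :
    ∃ g : Perm (Fin n), fn B n = fn B' n ∘ g := by
  refine exists_perm (fn_injective hn hB) (fn_injective hn' hB') (fun x => ?_)
  constructor
  · rintro ⟨i, rfl⟩
    exact exists_fn hn' ((h _).1 (fn_mem hn i))
  · rintro ⟨i, rfl⟩
    exact exists_fn hn ((h _).2 (fn_mem hn' i))

open Polynomial in
/-- Lifting of idempotents. -/
lemma lift_poly (k : ℕ) : ∃ P g h : ℚ[X], P * P - P = (X ^ 2 - X) ^ (k + 1) * g ∧
    P - X = (X ^ 2 - X) * h := by
  induction k with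
  | zero => exact ⟨X, 1, 0, by ring, by ring⟩
  | succ k ih =>
    obtain ⟨P, g, h, h1, h2⟩ := ih
    refine ⟨3 * P ^ 2 - 2 * P ^ 3, -((X ^ 2 - X) ^ k * g * g * (3 - 2 * P) * (2 * P + 1)),
      h - (2 * P - 1) * (X ^ 2 - X) ^ k * g, ?_, ?_⟩
    · have e1 : (3 * P ^ 2 - 2 * P ^ 3) * (3 * P ^ 2 - 2 * P ^ 3) - (3 * P ^ 2 - 2 * P ^ 3) =
          -((P * P - P) * (P * P - P) * (3 - 2 * P) * (2 * P + 1)) := by ring
      rw [e1, h1]
      ring
    · have e1 : 3 * P ^ 2 - 2 * P ^ 3 - X = (P - X) - (2 * P - 1) * (P * P - P) := by ring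
      rw [e1, h1, h2]
      ring

lemma sum_ne_zero_range (k : ℕ) :
    (∑ x ∈ Finset.range (k + 1), if x = 0 then (0 : ℚ) else 1) = k := by
  rw [Finset.sum_range_succ']
  simp

namespace TT

variable {A : ℕ → Type*} [∀ n, Ring (A n)] [∀ n, Algebra ℚ (A n)] {E : Type*} [Ring E]
    [Algebra ℚ E] {T : TT A E}

lemma RC_conj {n : ℕ} (f : Fin n → ℕ × ℕ) (g : Perm (Fin n)) :
    T.RC (f ∘ g) = T.th n g⁻¹ * T.RC f * T.th n g := by
  have e1 := Rw_conj (θ := T.th n) (fun i => (f i).1) g
  have e2 := Cw_conj (θ := T.th n) (fun i => (f i).2) g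
  have e3 : T.th n g * T.th n g⁻¹ = 1 := by rw [← map_mul, mul_inv_cancel, map_one]
  have e4 : T.RC (f ∘ g) = Rw (T.th n) ((fun i => (f i).1) ∘ g) *
    Cw (T.th n) ((fun i => (f i).2) ∘ g) := rfl
  rw [e4, e1, e2, RC]
  calc T.th n g⁻¹ * Rw (T.th n) (fun i => (f i).1) * T.th n g *
        (T.th n g⁻¹ * Cw (T.th n) (fun i => (f i).2) * T.th n g)
      = T.th n g⁻¹ * Rw (T.th n) (fun i => (f i).1) * (T.th n g *
        T.th n g⁻¹) * Cw (T.th n) (fun i => (f i).2) * T.th n g := by
        simp only [mul_assoc]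
    _ = _ := by rw [e3, mul_one]; simp only [mul_assoc]

lemma RC_zero_iff {B B' : List (ℕ × ℕ)} {n : ℕ} (hn : B.length = n) (hn' : B'.length = n)
    (hB : B.Nodup) (hB' : B'.Nodup) (h : ∀ b, b ∈ B ↔ b ∈ B') (h0 : T.RC (fn B' n) = 0) :
    T.RC (fn B n) = 0 := by
  obtain ⟨g, hg⟩ := exists_perm_fn hn hn' hB hB' h
  rw [hg, RC_conj, h0, mul_zero, zero_mul]

lemma PL_dvd {n : ℕ} (c : Fin n → ℚ) (hc : ∀ k, c k = 0 ∨ c k = 1) (L : List (Fin n)) :
    PL c L ∣ (Polynomial.X ^ 2 - Polynomial.X) ^ L.length := by
  induction L with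
  | nil => simp [PL]
  | cons k L ih =>
    rw [PL_cons, List.length_cons, pow_succ]
    refine mul_dvd_mul ih ?_
    rcases hc k with h | h
    · rw [h]
      exact ⟨1 - Polynomial.X, by rw [map_zero]; ring⟩
    · rw [h]
      exact ⟨-Polynomial.X, by rw [map_one]; ring⟩

/-- The vanishing of a rectangle makes a numerical idempotent idempotent up to nilpotents. -/
theorem nil_of_rect {q : E} (hq : ∀ z, T.trE ((q * q - q) * z) = 0) {m n' : ℕ}
    (hm : T.trE q = m) (hn' : T.trE (1 - q) = -n')
    (h : T.RC (fn (rectF 0 (m + 1) (n' + 1)) ((m + 1) * (n' + 1))) = 0) :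
    ∃ k : ℕ, (q * q - q) ^ k = 0 := by
  set B := rowL m n' ++ rectF 0 m (n' + 1) with hB
  set n := B.length with hn
  have e1 : rectF 0 (m + 1) (n' + 1) = (m, n') :: B := by
    rw [rectF, zero_add, rowL, hB, List.cons_append]
  have e2 : (m + 1) * (n' + 1) = n + 1 := by
    rw [hn, hB, List.length_append, length_rowL, length_rectF]
    ring
  have hY : IsY ((m, n') :: B) := e1 ▸ isY_rect (m + 1) (n' + 1)
  rw [e1, e2] at h
  set ty : ℕ × ℕ → Bool := fun x => decide (x.1 < m) with hty
  have hok : TyOk ty := Or.inl (fun x y y' => rfl)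
  have hne : ∀ i : Fin n, fn ((m, n') :: B) (n + 1) i.succ ≠ fn ((m, n') :: B) (n + 1) 0 := by
    intro i hi
    exact Fin.succ_ne_zero i (fn_injective (by simp [hn]) hY.nodup hi)
  have h1 := spect hq ty _ hne h
  -- the coefficient does not vanish
  have hpid : Idm T.rad (pr q) := by
    have hq' : ∀ z, T.trE (q * (1 - q) * z) = 0 := by
      intro z
      have e : q * (1 - q) * z = -((q * q - q) * z) := by noncomm_ring
      rw [e, map_neg, hq, neg_zero]
    constructor
    · intro b
      refine rad_NE (fun z => ?_)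
      cases b
      · have e : (pr q false * pr q false - pr q false) * z = (q * q - q) * z := by
          simp only [pr, Bool.false_eq_true, if_false]; noncomm_ring
        rw [e, hq]
      · simp only [pr, if_true]
        exact hq z
    · intro b c hbc
      refine rad_NE (fun z => ?_)
      cases b <;> cases c
      · exact absurd rfl hbc
      · have e : pr q false * pr q true * z = q * (1 - q) * z := by
          simp only [pr, Bool.false_eq_true, if_false, if_true]; noncomm_ring
        rw [e, hq']
      · simp only [pr, Bool.false_eq_true, if_false, if_true]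
        exact hq' z
      · exact absurd rfl hbc
  set d : Bool → ℚ := fun b => if b then m else -n' with hd
  have hd' : ∀ b, T.trE (pr q b) = d b := by
    intro b
    cases b
    · simp only [pr, hd, Bool.false_eq_true, if_false]; exact hn'
    · simp only [pr, hd, if_true]; exact hm
  have e3 : (fn ((m, n') :: B) (n + 1)) ∘ Fin.succ = fn B n := fn_succ _ _ _
  have e4 : ∀ i : Fin n, fn ((m, n') :: B) (n + 1) i.succ = fn B n i :=
    fun i => fn_succ_apply _ _ _ i
  rw [e3] at h1
  simp only [e4] at h1
  rw [tr_RC_H hok hpid (fn B n), tr_W hok hd' (fun b z => ?_) hn.symm hY.1] at h1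
  swap
  · cases b
    · have e : (pr q false * pr q false - pr q false) * z = (q * q - q) * z := by
        simp only [pr, Bool.false_eq_true, if_false]; noncomm_ring
      rw [e, hq]
    · simp only [pr, if_true]
      exact hq z
  have hfac : ∀ b ∈ B, fac ty d b ≠ 0 := by
    intro b hb
    rw [hB, List.mem_append, mem_rowL, mem_rectF] at hb
    rcases hb with hb | hb
    · -- the last row
      have t1 : ty b = false := by simp [hty, hb.1]
      have s1 : (∑ y ∈ Finset.range b.2, if ty (b.1, y) = ty b then (1 : ℚ) else 0) = b.2 := by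
        simp [hty]
      have s2 : (∑ x ∈ Finset.range b.1, if ty (x, b.2) = ty b then (1 : ℚ) else 0) = 0 := by
        refine Finset.sum_eq_zero (fun x hx => ?_)
        rw [if_neg]
        rw [t1]
        have hx' := Finset.mem_range.1 hx
        simp only [hty, decide_eq_false_iff_not, not_not]
        omega
      rw [fac, s1, s2, t1]
      simp only [hd, Bool.false_eq_true, if_false, sub_zero]
      have h5 : (b.2 : ℚ) < n' := by exact_mod_cast hb.2
      intro h6
      linarith
    · have t1 : ty b = true := by simp only [hty, decide_eq_true_eq]; omega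
      have s1 : (∑ y ∈ Finset.range b.2, if ty (b.1, y) = ty b then (1 : ℚ) else 0) = b.2 := by
        simp [hty]
      have s2 : (∑ x ∈ Finset.range b.1, if ty (x, b.2) = ty b then (1 : ℚ) else 0) = b.1 := by
        have : ∀ x ∈ Finset.range b.1, (if ty (x, b.2) = ty b then (1 : ℚ) else 0) = 1 := by
          intro x hx
          rw [if_pos]
          rw [t1]
          have hx' := Finset.mem_range.1 hx
          simp only [hty, decide_eq_true_eq]
          omega
        rw [Finset.sum_congr rfl this]
        simp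
      rw [fac, s1, s2, t1]
      simp only [hd, if_true]
      have h5 : (b.1 : ℚ) < m := by
        have : b.1 < m := by omega
        exact_mod_cast this
      have h7 : (0 : ℚ) ≤ b.2 := by positivity
      intro h6
      linarith
  have hprod : (B.map (fac ty d)).prod ≠ 0 := by
    intro h5
    rw [List.prod_eq_zero_iff] at h5
    obtain ⟨b, hb, hb0⟩ := List.mem_map.1 h5
    exact hfac b hb hb0
  have h2 := (smul_eq_zero.1 h1).resolve_left hprod
  obtain ⟨g, hg⟩ := PL_dvd (fun k : Fin n => if ty (fn B n k) = true then (1 : ℚ) else 0)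
    (fun k => by
      by_cases hk : ty (fn B n k) = true
      · right; rw [if_pos hk]
      · left; rw [if_neg hk]) (List.finRange n)
  refine ⟨(List.finRange n).length, ?_⟩
  have h3 := congrArg (Polynomial.aeval q) hg
  rw [map_mul, h2, zero_mul, map_pow, map_sub, map_pow, Polynomial.aeval_X, pow_two] at h3
  exact h3

/-- The pair of an idempotent and its complement. -/
lemma idm_bot {e : E} (he : e * e = e) : Idm T.bot (pr e) := by
  constructor
  · intro b
    refine bot_NE ?_
    cases b
    · simp only [pr, Bool.false_eq_true, if_false]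
      have : (1 - e) * (1 - e) - (1 - e) = e * e - e := by noncomm_ring
      rw [this, he, sub_self]
    · simp only [pr, if_true]
      rw [he, sub_self]
  · intro b c hbc
    refine bot_NE ?_
    cases b <;> cases c
    · exact absurd rfl hbc
    · simp only [pr, Bool.false_eq_true, if_false, if_true]
      rw [sub_mul, one_mul, he, sub_self]
    · simp only [pr, Bool.false_eq_true, if_false, if_true]
      rw [mul_sub, mul_one, he, sub_self]
    · exact absurd rfl hbc

lemma pr_idem {e : E} (he : e * e = e) (b : Bool) : pr e b * pr e b = pr e b := by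
  cases b
  · simp only [pr, Bool.false_eq_true, if_false]
    have : (1 - e) * (1 - e) = 1 - e + (e * e - e) := by noncomm_ring
    rw [this, he, sub_self, add_zero]
  · simp only [pr, if_true]
    exact he

lemma Rw_one {n : ℕ} {α : Type*} {B : Type*} [Ring B] [Algebra ℚ B] (θ : Perm (Fin n) →* B)
    (ρ : Fin n → α) (h : Function.Injective ρ) : Rw θ ρ = 1 := by
  classical
  rw [Rw, Finset.sum_eq_single 1]
  · rw [if_pos Fx.one, map_one]
  · intro σ _ hσ
    rw [if_neg]
    intro h1
    exact hσ (Equiv.ext (fun i => h (h1 i)))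
  · intro h1
    exact absurd (Finset.mem_univ _) h1

lemma Cw_one {n : ℕ} {α : Type*} {B : Type*} [Ring B] [Algebra ℚ B] (θ : Perm (Fin n) →* B)
    (ρ : Fin n → α) (h : Function.Injective ρ) : Cw θ ρ = 1 := by
  classical
  rw [Cw, Finset.sum_eq_single 1]
  · rw [if_pos Fx.one, map_one, sg_one, one_smul]
  · intro σ _ hσ
    rw [if_neg]
    intro h1
    exact hσ (Equiv.ext (fun i => h (h1 i)))
  · intro h1
    exact absurd (Finset.mem_univ _) h1

/-- The vanishing of the symmetric power of the odd part. -/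
theorem row_zero {e : E} (he : e * e = e) {m n' : ℕ} (hm : T.trE e = m)
    (hn' : T.trE (1 - e) = -n')
    (h : T.RC (fn (rectF 0 (m + 1) (n' + 1)) ((m + 1) * (n' + 1))) = 0) :
    Rw (T.th (n' + 1)) (fun _ => ()) * T.H (n' + 1) (fun _ => 1 - e) = 0 := by
  set ty : ℕ × ℕ → Bool := fun x => decide (x.1 ≠ 0) with hty
  have hok : TyOk ty := Or.inl (fun x y y' => rfl)
  set d : Bool → ℚ := fun b => if b then m else -n' with hd
  have hd' : ∀ b, T.trE (pr e b) = d b := by
    intro b
    cases b
    · simp only [pr, hd, Bool.false_eq_true, if_false]; exact hn'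
    · simp only [pr, hd, if_true]; exact hm
  have e1 : rectF 0 (m + 1) (n' + 1) = rectF 1 m (n' + 1) ++ rectF 0 1 (n' + 1) := by
    rw [add_comm m 1, rectF_split]
  have h1 := W_sub (T := T) (N := T.bot) hok (idm_bot he)
    (fn (rectF 0 (m + 1) (n' + 1)) ((m + 1) * (n' + 1)))
  rw [h, mul_zero, zero_mul, zero_sub] at h1
  have h2 : T.W ty (pr e) (fn (rectF 0 (m + 1) (n' + 1)) ((m + 1) * (n' + 1))) = 0 :=
    neg_eq_zero.1 h1
  have e2 : (m + 1) * (n' + 1) = (rectF 1 m (n' + 1)).length + (rectF 0 1 (n' + 1)).length := by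
    rw [length_rectF, length_rectF]; ring
  rw [e2, e1] at h2
  have h3 := W_zero_of_append hok hd' (pr_idem he) (e1 ▸ isY_rect (m + 1) (n' + 1)) (by
    intro b hb
    rw [mem_rectF] at hb
    have t1 : ty b = true := by simp only [hty, decide_eq_true_eq]; omega
    have s1 : (∑ y ∈ Finset.range b.2, if ty (b.1, y) = ty b then (1 : ℚ) else 0) = b.2 := by
      simp [hty]
    have s2 : (∑ x ∈ Finset.range b.1, if ty (x, b.2) = ty b then (1 : ℚ) else 0) =
        (b.1 : ℚ) - 1 := by
      obtain ⟨k, hk⟩ : ∃ k, b.1 = k + 1 := ⟨b.1 - 1, by omega⟩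
      rw [t1, hk]
      have := sum_ne_zero_range k
      have e3 : ∀ x ∈ Finset.range (k + 1), (if ty (x, b.2) = true then (1 : ℚ) else 0) =
          if x = 0 then (0 : ℚ) else 1 := by
        intro x _
        simp only [hty]
        by_cases hx : x = 0 <;> simp [hx]
      rw [Finset.sum_congr rfl e3, this]
      push_cast
      ring
    rw [fac, s1, s2, t1]
    simp only [hd, if_true]
    have h5 : (b.1 : ℚ) < 1 + m := by
      have := hb.2.1
      exact_mod_cast this
    have h7 : (0 : ℚ) ≤ b.2 := by positivity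
    intro h6
    linarith) h2
  have e4 : rectF 0 1 (n' + 1) = rowL 0 (n' + 1) := by
    simp [rectF]
  have e5 : (rectF 0 1 (n' + 1)).length = n' + 1 := by rw [length_rectF, one_mul]
  rw [e5, e4] at h3
  have hlen : (rowL 0 (n' + 1)).length = n' + 1 := length_rowL _ _
  have hrow : ∀ i : Fin (n' + 1), (fn (rowL 0 (n' + 1)) (n' + 1) i).1 = 0 :=
    fun i => (mem_rowL.1 (fn_mem hlen i)).1
  have hinj : Function.Injective (fn (rowL 0 (n' + 1)) (n' + 1)) := by
    refine fn_injective hlen ?_
    have := (isY_rect 1 (n' + 1)).nodup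
    rwa [e4] at this
  have hty0 : ∀ i : Fin (n' + 1), ty (fn (rowL 0 (n' + 1)) (n' + 1) i) = false := by
    intro i
    simp [hty, hrow i]
  rw [W, rch, Cw_one, mul_one] at h3
  · have e6 : Rw (T.th (n' + 1)) (rl ty (fn (rowL 0 (n' + 1)) (n' + 1))) =
        Rw (T.th (n' + 1)) (fun _ => ()) := by
      refine Rw_congr (fun i k => ?_)
      simp only [rl, hrow, hty0]
    have e7 : (fun i => pr e (ty (fn (rowL 0 (n' + 1)) (n' + 1) i))) = fun _ => 1 - e := by
      funext i
      rw [hty0]
      rfl
    rw [e6, e7] at h3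
    exact h3
  · intro i k hik
    apply hinj
    simp only [cl, Prod.mk.injEq] at hik
    exact Prod.ext ((hrow i).trans (hrow k).symm) hik.1

/-- The vanishing of the exterior power of the even part. -/
theorem col_zero {e : E} (he : e * e = e) {m n' : ℕ} (hm : T.trE e = m)
    (hn' : T.trE (1 - e) = -n')
    (h : T.RC (fn (rectF 0 (m + 1) (n' + 1)) ((m + 1) * (n' + 1))) = 0) :
    Cw (T.th (m + 1)) (fun _ => ()) * T.H (m + 1) (fun _ => e) = 0 := by
  set ty : ℕ × ℕ → Bool := fun x => decide (x.2 = 0) with hty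
  have hok : TyOk ty := Or.inr (fun x y y' => rfl)
  set d : Bool → ℚ := fun b => if b then m else -n' with hd
  have hd' : ∀ b, T.trE (pr e b) = d b := by
    intro b
    cases b
    · simp only [pr, hd, Bool.false_eq_true, if_false]; exact hn'
    · simp only [pr, hd, if_true]; exact hm
  have e0 : (rectF 0 (n' + 1) (m + 1)).map Prod.swap =
      (rectF 1 n' (m + 1)).map Prod.swap ++ (rectF 0 1 (m + 1)).map Prod.swap := by
    rw [add_comm n' 1, rectF_split, List.map_append]
  have hY : IsY ((rectF 0 (n' + 1) (m + 1)).map Prod.swap) := isY_swap (isY_rect _ _)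
  have h' : T.RC (fn ((rectF 0 (n' + 1) (m + 1)).map Prod.swap) ((m + 1) * (n' + 1))) = 0 := by
    refine RC_zero_iff ?_ ?_ hY.nodup (isY_rect _ _).nodup ?_ h
    · rw [List.length_map, length_rectF]; ring
    · rw [length_rectF]
    · intro b
      rw [mem_rectF, List.mem_map]
      constructor
      · rintro ⟨c, hc, rfl⟩
        rw [mem_rectF] at hc
        simp only [Prod.fst_swap, Prod.snd_swap]
        omega
      · intro hb
        exact ⟨(b.2, b.1), mem_rectF.2 (by simp only; omega), rfl⟩
  have h1 := W_sub (T := T) (N := T.bot) hok (idm_bot he)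
    (fn ((rectF 0 (n' + 1) (m + 1)).map Prod.swap) ((m + 1) * (n' + 1)))
  rw [h', mul_zero, zero_mul, zero_sub] at h1
  have h2 : T.W ty (pr e) (fn ((rectF 0 (n' + 1) (m + 1)).map Prod.swap)
    ((m + 1) * (n' + 1))) = 0 := neg_eq_zero.1 h1
  have e2 : (m + 1) * (n' + 1) = ((rectF 1 n' (m + 1)).map Prod.swap).length +
      ((rectF 0 1 (m + 1)).map Prod.swap).length := by
    rw [List.length_map, List.length_map, length_rectF, length_rectF]; ring
  rw [e2, e0] at h2
  have h3 := W_zero_of_append hok hd' (pr_idem he) (e0 ▸ hY) (by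
    intro b hb
    obtain ⟨c, hc, rfl⟩ := List.mem_map.1 hb
    rw [mem_rectF] at hc
    have t1 : ty c.swap = false := by
      simp only [hty, Prod.snd_swap, decide_eq_false_iff_not]; omega
    have s1 : (∑ x ∈ Finset.range c.swap.1, if ty (x, c.swap.2) = ty c.swap then (1 : ℚ)
        else 0) = c.2 := by
      simp [hty]
    have s2 : (∑ y ∈ Finset.range c.swap.2, if ty (c.swap.1, y) = ty c.swap then (1 : ℚ)
        else 0) = (c.1 : ℚ) - 1 := by
      obtain ⟨k, hk⟩ : ∃ k, c.1 = k + 1 := ⟨c.1 - 1, by omega⟩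
      rw [t1, Prod.snd_swap, hk]
      have := sum_ne_zero_range k
      have e3 : ∀ x ∈ Finset.range (k + 1), (if ty (c.swap.1, x) = false then (1 : ℚ) else 0) =
          if x = 0 then (0 : ℚ) else 1 := by
        intro x _
        simp only [hty]
        by_cases hx : x = 0 <;> simp [hx]
      rw [Finset.sum_congr rfl e3, this]
      push_cast
      ring
    rw [fac, s1, s2, t1]
    simp only [hd, Bool.false_eq_true, if_false]
    have h5 : (c.1 : ℚ) < 1 + n' := by
      have := hc.2.1
      exact_mod_cast this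
    have h7 : (0 : ℚ) ≤ c.2 := by positivity
    intro h6
    linarith) h2
  have e4 : (rectF 0 1 (m + 1)).map Prod.swap = (rowL 0 (m + 1)).map Prod.swap := by
    simp [rectF]
  have e5 : ((rectF 0 1 (m + 1)).map Prod.swap).length = m + 1 := by
    rw [List.length_map, length_rectF, one_mul]
  rw [e5, e4] at h3
  set B := (rowL 0 (m + 1)).map Prod.swap with hBB
  have hlen : B.length = m + 1 := by rw [hBB, List.length_map, length_rowL]
  have hcol : ∀ i : Fin (m + 1), (fn B (m + 1) i).2 = 0 := by
    intro i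
    obtain ⟨c, hc, hc'⟩ := List.mem_map.1 (fn_mem hlen i)
    rw [← hc']
    exact (mem_rowL.1 hc).1
  have hinj : Function.Injective (fn B (m + 1)) := by
    refine fn_injective hlen ?_
    have := (isY_swap (isY_rect 1 (m + 1))).nodup
    rwa [e4] at this
  have hty0 : ∀ i : Fin (m + 1), ty (fn B (m + 1) i) = true := by
    intro i
    simp [hty, hcol i]
  rw [W, rch, Rw_one, one_mul] at h3
  · have e6 : Cw (T.th (m + 1)) (cl ty (fn B (m + 1))) =
        Cw (T.th (m + 1)) (fun _ => ()) := by
      refine Cw_congr (fun i k => ?_)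
      simp only [cl, hcol, hty0]
    have e7 : (fun i => pr e (ty (fn B (m + 1) i))) = fun _ => e := by
      funext i
      rw [hty0]
      rfl
    rw [e6, e7] at h3
    exact h3
  · intro i k hik
    apply hinj
    simp only [rl, Prod.mk.injEq] at hik
    exact Prod.ext hik.1 ((hcol i).trans (hcol k).symm)

/-- **The vanishing of a rectangle.** -/
theorem kim_of_rect {q : E} (hq : ∀ z, T.trE ((q * q - q) * z) = 0) {m n' : ℕ}
    (hm : T.trE q = m) (hn' : T.trE (1 - q) = -n')
    (h : T.RC (fn (rectF 0 (m + 1) (n' + 1)) ((m + 1) * (n' + 1))) = 0) :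
    ∃ e : E, e * e = e ∧ Cw (T.th (m + 1)) (fun _ => ()) * T.H (m + 1) (fun _ => e) = 0 ∧
      Rw (T.th (n' + 1)) (fun _ => ()) * T.H (n' + 1) (fun _ => 1 - e) = 0 := by
  obtain ⟨k, hk⟩ := nil_of_rect hq hm hn' h
  obtain ⟨P, g, r, h1, h2⟩ := lift_poly k
  have e1 : Polynomial.aeval q (Polynomial.X ^ 2 - Polynomial.X : Polynomial ℚ) = q * q - q := by
    rw [map_sub, map_pow, Polynomial.aeval_X, pow_two]
  have he : Polynomial.aeval q P * Polynomial.aeval q P = Polynomial.aeval q P := by
    have h3 := congrArg (Polynomial.aeval q) h1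
    rw [map_sub, map_mul, map_mul, map_pow, e1, pow_succ, hk, zero_mul, zero_mul] at h3
    exact sub_eq_zero.1 h3
  have ht : T.trE (Polynomial.aeval q P) = T.trE q := by
    have h3 := congrArg (Polynomial.aeval q) h2
    rw [map_sub, map_mul, e1, Polynomial.aeval_X] at h3
    have h4 := hq (Polynomial.aeval q r)
    rw [← h3, map_sub, sub_eq_zero] at h4
    exact h4
  have ht' : T.trE (1 - Polynomial.aeval q P) = T.trE (1 - q) := by
    rw [map_sub, map_sub, ht]
  exact ⟨Polynomial.aeval q P, he, col_zero he (ht.trans hm) (ht'.trans hn') h,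
    row_zero he (ht.trans hm) (ht'.trans hn') h⟩

end TT

end Pool.Agent.V8H87.GG
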