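import Pool.Agent.V8H87.GG.Up2

/-!
# The algebra generated by the exchanges
-/

set_option autoImplicit false
set_option linter.unusedSectionVars false

open CategoryTheory Limits MonoidalCategory Module Equiv
open Pool.Agent.Y112.SR Pool.Agent.Y112.KD Pool.Agent.N64.AF Pool.Agent.R905
open Pool.Agent.Y116.MT (tr)

namespace Pool.Agent.V8H87.GG

universe v u w

section

variable {C : Type u} [Category.{v} C] [MonoidalCategory C] [SymmetricCategory C]
  [Preadditive C] [Linear ℚ C]

/-- The algebra of the permutations: the subalgebra of the endomorphism algebra of the tensor power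
`M ^ n` which is generated by the exchanges of two neighbouring factors. -/
def permAlg (M : C) (n : ℕ) : Subalgebra ℚ (End (tp M n)) :=
  Algebra.adjoin ℚ {s : End (tp M n) | IsSwap M n s}

end

section

variable {C : Type u} [Category.{v} C] [MonoidalCategory C] [SymmetricCategory C]
  [Preadditive C] [Linear ℚ C] [MonoidalPreadditive C] [MonoidalLinear ℚ C]
  [RightRigidCategory C] {K : Type w} [Field K] (R : SuperRealisation C K) (hU : UnitQ C)

lemma closure_swaps (M : C) (n : ℕ) :
    Submonoid.closure {s : End (tp M n) | IsSwap M n s} = MonoidHom.mrange (pm R hU M n) := by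
  apply le_antisymm
  · rw [Submonoid.closure_le]
    intro s hs
    obtain ⟨a, b, -, h⟩ := isSwap_eq R hU M hs
    exact ⟨swap a b, h.symm⟩
  · rintro _ ⟨σ, rfl⟩
    rcases n with - | n
    · have h1 : σ = 1 := Subsingleton.elim _ _
      rw [h1, map_one]
      exact Submonoid.one_mem _
    · have hmem : σ ∈ Submonoid.closure (Set.range fun i : Fin n => swap i.castSucc i.succ) := by
        rw [Equiv.Perm.mclosure_swap_castSucc_succ]
        trivial
      induction hmem using Submonoid.closure_induction with
      | mem x hx =>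
        obtain ⟨i, rfl⟩ := hx
        exact Submonoid.subset_closure (isSwap_adj R hU M i)
      | one =>
        rw [map_one]
        exact Submonoid.one_mem _
      | mul x y _ _ hx hy =>
        rw [map_mul]
        exact Submonoid.mul_mem _ hx hy

lemma permAlg_eq (M : C) (n : ℕ) : Subalgebra.toSubmodule (permAlg M n) =
    Submodule.span ℚ (Set.range (pm R hU M n)) := by
  rw [permAlg, Algebra.adjoin_eq_span, closure_swaps R hU]
  rfl

lemma finrank_permAlg (M : C) (n : ℕ) : finrank ℚ (permAlg M n) =
    finrank ℚ (Submodule.span ℚ (Set.range (pm R hU M n))) := by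
  rw [← permAlg_eq]
  rfl

include hU in
/-- Growth of the algebras of the permutations. -/
theorem growth_gap [IsIdempotentComplete C] (M : C) :
    (IsKimuraFinite M → R.CPlus M ∧ ∀ n : ℕ, finrank ℚ (permAlg M n) ≤ bt R M ^ (2 * n)) ∧
    (R.CPlus M → ¬ IsKimuraFinite M → ∀ r : ℝ, 0 ≤ r → r < bt R M + 2 →
      ∃ n0 : ℕ, ∀ n ≥ n0, r ^ (2 * n) ≤ finrank ℚ (permAlg M n)) := by
  refine ⟨fun h => ⟨h.cplus R, fun n => ?_⟩, fun h1 h2 r hr hr' => ?_⟩
  · rw [finrank_permAlg R hU]
    exact upper R hU h n
  · rcases dichotomy R hU h1 with h3 | h3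
    · exact absurd h3 h2
    · obtain ⟨n0, h4⟩ := h3 r hr hr'
      refine ⟨n0, fun n hn => ?_⟩
      rw [finrank_permAlg R hU]
      exact h4 n hn

end

end Pool.Agent.V8H87.GG
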