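import Pool.Agent.V8H87.GG.Words

/-!
# Exponential growth

If the Young symmetrizer of the rectangle with `a` rows and `c` columns does not vanish, where
`a - c` is the dimension of the object, then the dimension of the span of the permutations grows at
least like `(a + c) ^ (2 n)`.
-/

set_option autoImplicit false
set_option linter.unusedSectionVars false

open Filter

namespace Pool.Agent.V8H87.GG

section

variable {q : ℕ} [NeZero q]

open Classical in
/-- The family with shifted letters. -/
noncomputable def shf (X : Finset (List (Fin q))) (i : Fin q) : Finset (List (Fin q)) :=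
  X.image (List.map (· + i))

lemma fam_shf {X : Finset (List (Fin q))} {N : ℕ} {μ : Fin q → ℕ} (hX : Fam X N μ) (i : Fin q) :
    Fam (shf X i) N (fun l => μ (l - i)) := by
  classical
  intro w hw
  obtain ⟨v, hv, rfl⟩ := Finset.mem_image.1 hw
  obtain ⟨h1, h2⟩ := hX v hv
  refine ⟨by rw [List.length_map, h1], fun l => ?_⟩
  have h3 := List.count_map_of_injective v (· + i) (add_left_injective i) (l - i)
  rw [h2] at h3
  simpa using h3

lemma card_shf (X : Finset (List (Fin q))) (i : Fin q) : (shf X i).card = X.card := by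
  classical
  exact Finset.card_image_of_injective _ (List.map_injective_iff.2 (add_left_injective i))

/-- The concatenations of shifted words. -/
noncomputable def blk (X : Finset (List (Fin q))) : List (Fin q) → Finset (List (Fin q))
  | [] => {[]}
  | i :: I => cat (shf X i) (blk X I)

lemma fam_blk {X : Finset (List (Fin q))} {N : ℕ} {μ : Fin q → ℕ} (hX : Fam X N μ) :
    ∀ I : List (Fin q), Fam (blk X I) (I.length * N) (fun l => (I.map (fun i => μ (l - i))).sum)
  | [] => by
    intro w hw
    rw [blk, Finset.mem_singleton] at hw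
    subst hw
    simp
  | i :: I => by
    have h := fam_cat (fam_shf hX i) (fam_blk hX I)
    have e1 : (i :: I).length * N = N + I.length * N := by rw [List.length_cons]; ring
    rw [e1]
    exact h

lemma card_blk {X : Finset (List (Fin q))} {N : ℕ} {μ : Fin q → ℕ} (hX : Fam X N μ) :
    ∀ I : List (Fin q), (blk X I).card = X.card ^ I.length
  | [] => by simp [blk]
  | i :: I => by
    rw [blk, card_cat (fam_shf hX i), card_shf, card_blk hX I, List.length_cons, pow_succ, mul_comm]

/-- There are many words with the same number of all letters. -/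
lemma exists_block (N : ℕ) : ∃ V : Finset (List (Fin q)), Fam V (q * N) (fun _ => N) ∧
    ((q : ℝ) ^ N / ((N : ℝ) + 1) ^ q) ^ q ≤ V.card := by
  obtain ⟨μ, X, hX, hμ, hc⟩ := exists_many q N (NeZero.pos q)
  refine ⟨blk X (List.finRange q), ?_, ?_⟩
  · have h := fam_blk hX (List.finRange q)
    rw [List.length_finRange] at h
    have e1 : (fun l => ((List.finRange q).map (fun i => μ (l - i))).sum) = fun _ => N := by
      funext l
      have h1 : ((List.finRange q).map (fun i => μ (l - i))).sum = ∑ i : Fin q, μ (l - i) := by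
        rw [← List.sum_ofFn, List.ofFn_eq_map]
      rw [h1, ← hμ]
      exact Fintype.sum_equiv (Equiv.subLeft l) _ _ (fun i => rfl)
    rwa [e1] at h
  · rw [card_blk hX, List.length_finRange]
    push_cast
    exact pow_le_pow_left₀ (by positivity) hc q

/-- The concatenations of `k` balanced blocks, after the staircase. -/
noncomputable def many (V : Finset (List (Fin q))) (N : ℕ) : ℕ → Finset (List (Fin q))
  | 0 => {stj q N q}
  | k + 1 => cat V (many V N k)

lemma fam_many {V : Finset (List (Fin q))} {N : ℕ} (hV : Fam V (q * N) (fun _ => N)) :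
    ∀ k, Fam (many V N k) (k * (q * N) + (stj q N q).length)
      (fun l => k * N + (q - 1 - l) * N)
  | 0 => by
    intro w hw
    rw [many, Finset.mem_singleton] at hw
    subst hw
    refine ⟨by simp, fun l => ?_⟩
    rw [count_stj q le_rfl, if_pos l.2]
    simp
  | k + 1 => by
    have h := fam_cat hV (fam_many hV k)
    have e1 : (k + 1) * (q * N) + (stj q N q).length =
        q * N + (k * (q * N) + (stj q N q).length) := by ring
    have e2 : (fun l : Fin q => (k + 1) * N + (q - 1 - l) * N) =
        (fun _ => N) + fun l : Fin q => k * N + (q - 1 - l) * N := by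
      funext l
      simp only [Pi.add_apply]
      ring
    rw [e1, e2]
    exact h

lemma good_many {V : Finset (List (Fin q))} {N : ℕ} (hV : Fam V (q * N) (fun _ => N)) :
    ∀ k, ∀ w ∈ many V N k, Good w
  | 0, w, hw => by
    rw [many, Finset.mem_singleton] at hw
    subst hw
    exact good_stj q le_rfl
  | k + 1, w, hw => by
    classical
    rw [many, cat] at hw
    obtain ⟨⟨v, x⟩, hvx, rfl⟩ := Finset.mem_image.1 hw
    obtain ⟨hv, hx⟩ := Finset.mem_product.1 hvx
    refine good_append (good_many hV k x hx) (r := N) ?_ v (fun l => ((hV v hv).2 l).le)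
    intro l' l hl
    have h1 := (fam_many hV k x hx).2
    rw [h1, h1]
    change k * N + (q - 1 - l) * N + N ≤ k * N + (q - 1 - l') * N
    have hl2 := l.2
    have h2 : (l' : ℕ) < l := hl
    have h3 : (q - 1 - l) + 1 ≤ q - 1 - l' := by omega
    have h4 : ((q - 1 - l) + 1) * N ≤ (q - 1 - l') * N := Nat.mul_le_mul_right _ h3
    have h5 : ((q - 1 - l) + 1) * N = (q - 1 - l) * N + N := by ring
    omega

lemma card_many {V : Finset (List (Fin q))} {N : ℕ} (hV : Fam V (q * N) (fun _ => N)) :
    ∀ k, (many V N k).card = V.card ^ k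
  | 0 => by simp [many]
  | k + 1 => by
    rw [many, card_cat hV, card_many hV k, pow_succ, mul_comm]

open Classical in
/-- Many ballot words of a given length. -/
lemma exists_good (N k t : ℕ) : ∃ (Y : Finset (List (Fin q))) (μ : Fin q → ℕ),
    (∀ w ∈ Y, Good w) ∧ Fam Y (t + (k * (q * N) + (stj q N q).length)) μ ∧
    (((q : ℝ) ^ N / ((N : ℝ) + 1) ^ q) ^ q) ^ k ≤ Y.card := by
  obtain ⟨V, hV, hc⟩ := exists_block (q := q) N
  refine ⟨(many V N k).image (fun w => List.replicate t 0 ++ w),
    fun l => t * (if l = 0 then 1 else 0) + (k * N + (q - 1 - l) * N), ?_, ?_, ?_⟩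
  · intro w hw
    obtain ⟨x, hx, rfl⟩ := Finset.mem_image.1 hw
    have h1 := good_many hV k x hx
    have : ∀ t, Good (List.replicate t (0 : Fin q) ++ x) := by
      intro t
      induction t with
      | zero => simpa using h1
      | succ t ih => exact ⟨ih, fun l' hl' => absurd hl' (Fin.not_lt_zero l')⟩
    exact this t
  · intro w hw
    obtain ⟨x, hx, rfl⟩ := Finset.mem_image.1 hw
    obtain ⟨h1, h2⟩ := fam_many hV k x hx
    refine ⟨by rw [List.length_append, h1, List.length_replicate], fun l => ?_⟩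
    rw [List.count_append, h2, List.count_replicate]
    by_cases hl : l = 0
    · subst hl; simp
    · have : ¬ ((0 : Fin q) = l) := fun h => hl h.symm
      simp [hl, this]
  · rw [Finset.card_image_of_injective _ (List.append_right_injective _), card_many hV]
    push_cast
    exact pow_le_pow_left₀ (by positivity) hc k

end

namespace TT

variable {A : ℕ → Type*} [∀ n, Ring (A n)] [∀ n, Algebra ℚ (A n)] {E : Type*} [Ring E]
    [Algebra ℚ E] {T : TT A E}

lemma W_one {n : ℕ} (f : Fin n → ℕ × ℕ) : T.W (fun _ => true) (fun _ => 1) f = T.RC f := by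
  have e1 : Rw (T.th n) (rl (fun _ => true) f) = Rw (T.th n) (fun i => (f i).1) :=
    Rw_congr (fun i k => by simp [rl])
  have e2 : Cw (T.th n) (cl (fun _ => true) f) = Cw (T.th n) (fun i => (f i).2) :=
    Cw_congr (fun i k => by simp [cl])
  have e3 : T.H n (fun _ => (1 : E)) = 1 := T.H_one n
  rw [W, rch, e1, e2, e3, mul_one, RC]

/-- Hook shapes which contain the rectangle. -/
lemma RC_boxes {a c : ℕ} (hδ : T.trE 1 = (a : ℚ) - c)
    (hrect : T.RC (fn (rectF 0 a c) (a * c)) ≠ 0) {w : List (Fin (a + c))} (hw : Good w) :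
    T.RC (fn (boxes a c w ++ rectF 0 a c) (w.length + a * c)) ≠ 0 := by
  intro h
  apply hrect
  have e1 : w.length + a * c = (boxes a c w).length + (rectF 0 a c).length := by
    rw [length_boxes, length_rectF]
  have e2 : (rectF 0 a c).length = a * c := length_rectF _ _ _
  rw [e1, ← W_one] at h
  have h1 := W_zero_of_append (T := T) (ty := fun _ => true) (p := fun _ => 1)
    (d := fun _ => (a : ℚ) - c) (Or.inl (fun _ _ _ => rfl)) (fun _ => hδ) (fun _ => one_mul 1)
    (isY_boxes hw) (fun b hb => ?_) h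
  · rw [W_one, e2] at h1
    exact h1
  · obtain ⟨l, k, hk, rfl⟩ := mem_boxes.1 hb
    have hl := l.2
    have s1 : fac (fun _ => true) (fun _ => (a : ℚ) - c) (bx a c l k) =
        (a : ℚ) - c + (bx a c l k).2 - (bx a c l k).1 := by
      simp [fac]
    rw [s1]
    unfold bx
    split_ifs with h2
    · simp only
      push_cast
      have h3 : ((l : ℕ) : ℚ) < a := by exact_mod_cast h2
      have h4 : (0 : ℚ) ≤ k := by positivity
      intro h5
      linarith
    · simp only
      have h3 : (((l : ℕ) - a : ℕ) : ℚ) < c := by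
        have : (l : ℕ) - a < c := by omega
        exact_mod_cast this
      push_cast at h3 ⊢
      have h4 : (0 : ℚ) ≤ k := by positivity
      intro h5
      linarith

lemma growth_aux {a c : ℕ} (ha : 0 < a) (hδ : T.trE 1 = (a : ℚ) - c)
    (hrect : T.RC (fn (rectF 0 a c) (a * c)) ≠ 0) (N k t : ℕ) :
    (((((a + c : ℕ) : ℝ) ^ N / ((N : ℝ) + 1) ^ (a + c)) ^ (a + c)) ^ k) ^ 2 ≤
      Module.finrank ℚ (Submodule.span ℚ (Set.range (T.th
        ((t + (k * ((a + c) * N) + (stj (a + c) N (a + c)).length)) + a * c)))) := by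
  classical
  have : NeZero (a + c) := ⟨by omega⟩
  obtain ⟨Y, μ, h1, h2, h3⟩ := exists_good (q := a + c) N k t
  set L := t + (k * ((a + c) * N) + (stj (a + c) N (a + c)).length) with hL
  have hpos : (0 : ℝ) < ((((a + c : ℕ) : ℝ) ^ N / ((N : ℝ) + 1) ^ (a + c)) ^ (a + c)) ^ k := by
    have : (0 : ℝ) < ((a + c : ℕ) : ℝ) := by
      have : 0 < a + c := by omega
      exact_mod_cast this
    positivity
  have hne : Y.Nonempty := by
    rw [← Finset.card_pos]
    have := lt_of_lt_of_le hpos h3
    exact_mod_cast this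
  obtain ⟨w1, hw1⟩ := hne
  have hlen : ∀ w ∈ Y, (boxes a c w ++ rectF 0 a c).length = L + a * c := by
    intro w hw
    rw [List.length_append, length_boxes, length_rectF, (h2 w hw).1]
  have h0 := RC_boxes hδ hrect (h1 w1 hw1)
  rw [(h2 w1 hw1).1] at h0
  have h4 := card_le (θ := T.th (L + a * c)) (boxes a c w1 ++ rectF 0 a c)
    (isY_boxes (h1 w1 hw1)) (hlen w1 hw1) (Y.image (fun w => boxes a c w ++ rectF 0 a c)) (by
      intro x hx
      obtain ⟨w, hw, rfl⟩ := Finset.mem_image.1 hx
      refine ⟨isY_boxes (h1 w hw), hlen w hw, fun b => ?_⟩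
      rw [List.mem_append, List.mem_append, mem_boxes, mem_boxes]
      simp only [(h2 w hw).2, (h2 w1 hw1).2]) h0
  rw [Finset.card_image_of_injOn] at h4
  · have h5 : ((Y.card : ℝ)) ^ 2 ≤ Module.finrank ℚ (Submodule.span ℚ (Set.range (T.th
        (L + a * c)))) := by exact_mod_cast h4
    exact (pow_le_pow_left₀ hpos.le h3 2).trans h5
  · intro w hw w' hw' h5
    simp only at h5
    have h6 := List.append_cancel_right h5
    exact boxes_inj (by rw [(h2 w hw).1, (h2 w' hw').1]) h6

/-- **Exponential growth.** -/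
theorem growth {a c : ℕ} (ha : 0 < a) (hc : 0 < c) (hδ : T.trE 1 = (a : ℚ) - c)
    (hrect : T.RC (fn (rectF 0 a c) (a * c)) ≠ 0) {r : ℝ} (hr0 : 0 ≤ r)
    (hr : r < (a + c : ℕ)) :
    ∃ n0 : ℕ, ∀ n ≥ n0, r ^ (2 * n) ≤
      Module.finrank ℚ (Submodule.span ℚ (Set.range (T.th n))) := by
  set q := a + c with hq
  have hq2 : (2 : ℝ) ≤ (q : ℝ) := by
    have : 2 ≤ q := by omega
    exact_mod_cast this
  -- we may assume that `r` is at least `1`
  wlog hr1 : 1 ≤ r generalizing r
  · obtain ⟨n0, hn0⟩ := this (r := 1) zero_le_one (by linarith) le_rfl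
    refine ⟨n0, fun n hn => le_trans ?_ (hn0 n hn)⟩
    rw [one_pow]
    exact pow_le_one₀ hr0 (by linarith)
  obtain ⟨s, hrs, hsq⟩ := exists_between hr
  have hs0 : 0 < s := by linarith
  have hq0 : (0 : ℝ) < q := by linarith
  -- choice of `N`
  obtain ⟨N, hN1, hN⟩ : ∃ N : ℕ, 1 ≤ N ∧ s ^ N ≤ (q : ℝ) ^ N / ((N : ℝ) + 1) ^ q := by
    have h1 : |s / q| < 1 := by
      rw [abs_of_pos (by positivity), div_lt_one hq0]
      exact hsq
    have h2 := tendsto_pow_const_mul_const_pow_of_abs_lt_one q h1
    have h3 : ∀ᶠ n : ℕ in atTop, (n : ℝ) ^ q * (s / q) ^ n < s / q :=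
      h2.eventually (gt_mem_nhds (by positivity))
    obtain ⟨M, hM⟩ := (h3.and (eventually_ge_atTop 2)).exists
    obtain ⟨hM1, hM2⟩ := hM
    obtain ⟨N, rfl⟩ : ∃ N, M = N + 1 := ⟨M - 1, by omega⟩
    refine ⟨N, by omega, ?_⟩
    push_cast at hM1
    rw [le_div_iff₀ (by positivity)]
    have h4 : ((N : ℝ) + 1) ^ q * (s / q) ^ N < 1 := by
      have h5 : ((N : ℝ) + 1) ^ q * (s / q) ^ (N + 1) =
          (((N : ℝ) + 1) ^ q * (s / q) ^ N) * (s / q) := by ring
      rw [h5] at hM1
      have h6 : 0 < s / q := by positivity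
      by_contra hcon
      push Not at hcon
      have := mul_le_mul_of_nonneg_right hcon h6.le
      linarith
    rw [div_pow] at h4
    have h7 : (0 : ℝ) < (q : ℝ) ^ N := by positivity
    have h8 : ((N : ℝ) + 1) ^ q * (s ^ N / (q : ℝ) ^ N) = (s ^ N * ((N : ℝ) + 1) ^ q) / q ^ N := by
      ring
    rw [h8, div_lt_one h7] at h4
    exact h4.le
  set P := (q : ℝ) ^ N / ((N : ℝ) + 1) ^ q with hP
  set L0 := (stj q N q).length with hL0
  set D := L0 + a * c + q * N with hD
  -- choice of the threshold
  obtain ⟨M0, hM0⟩ : ∃ M0 : ℕ, ∀ M ≥ M0, r ^ D ≤ (s / r) ^ M := by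
    have h1 : 1 < s / r := by rw [one_lt_div (by linarith)]; exact hrs
    have h2 := tendsto_pow_atTop_atTop_of_one_lt h1
    obtain ⟨M0, hM0⟩ := (h2.eventually (eventually_ge_atTop (r ^ D))).exists_forall_of_atTop
    exact ⟨M0, hM0⟩
  refine ⟨M0 + D, fun n hn => ?_⟩
  have hqN : 0 < q * N := Nat.mul_pos (by omega) (by omega)
  set n1 := n - (L0 + a * c) with hn1
  set k := n1 / (q * N) with hk
  set t := n1 % (q * N) with ht
  have hdiv : q * N * k + t = n1 := Nat.div_add_mod _ _
  have htlt : t < q * N := Nat.mod_lt _ hqN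
  have hn2 : n = (t + (k * (q * N) + L0)) + a * c := by
    have : k * (q * N) = q * N * k := by ring
    omega
  have hbig : M0 ≤ k * (q * N) := by
    have : k * (q * N) = q * N * k := by ring
    omega
  have h1 := growth_aux (T := T) ha hδ hrect N k t
  rw [← hq, ← hP, ← hL0, ← hn2] at h1
  refine le_trans ?_ h1
  have h2 : s ^ (k * (q * N)) ≤ (P ^ q) ^ k := by
    have e1 : s ^ (k * (q * N)) = ((s ^ N) ^ q) ^ k := by
      rw [← pow_mul, ← pow_mul]
      congr 1
      ring
    rw [e1]
    exact pow_le_pow_left₀ (by positivity) (pow_le_pow_left₀ (by positivity) hN q) k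
  have h3 : r ^ n ≤ s ^ (k * (q * N)) := by
    have hle : n ≤ D + k * (q * N) := by omega
    calc r ^ n ≤ r ^ (D + k * (q * N)) := pow_le_pow_right₀ hr1 hle
      _ = r ^ D * r ^ (k * (q * N)) := pow_add _ _ _
      _ ≤ (s / r) ^ (k * (q * N)) * r ^ (k * (q * N)) :=
        mul_le_mul_of_nonneg_right (hM0 _ hbig) (by positivity)
      _ = s ^ (k * (q * N)) := by
        rw [← mul_pow, div_mul_cancel₀ _ (by linarith : r ≠ 0)]
  have h4 : r ^ (2 * n) = (r ^ n) ^ 2 := by rw [mul_comm, pow_mul]
  rw [h4]
  exact pow_le_pow_left₀ (by positivity) (h3.trans h2) 2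

end TT

end Pool.Agent.V8H87.GG
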