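import Pool.Agent.V8H87.GG.Cyc
import Pool.Agent.V8H87.GG.Count
import Pool.Agent.N64.AF.K2

/-!
# The endomorphism algebras of the tensor powers form a tower with partial traces
-/

set_option autoImplicit false
set_option linter.unusedSectionVars false

open CategoryTheory Limits MonoidalCategory Module
open Pool.Agent.Y112.SR Pool.Agent.Y112.KD Pool.Agent.N64.AF
open Pool.Agent.Y116.MT (tr)

namespace Pool.Agent.V8H87.GG

universe v u w

section

variable {C : Type u} [Category.{v} C] [MonoidalCategory C] [SymmetricCategory C]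
  [Preadditive C] [Linear ℚ C] [MonoidalPreadditive C] [MonoidalLinear ℚ C]
  [RightRigidCategory C] {K : Type w} [Field K]

/-- Tensoring with the identity of `N`. -/
def wR (M N : C) : End M →ₐ[ℚ] End (M ⊗ N) where
  toFun f := (f ▷ N : M ⊗ N ⟶ M ⊗ N)
  map_one' := id_whiskerRight M N
  map_mul' f g := comp_whiskerRight g f N
  map_zero' := MonoidalPreadditive.zero_whiskerRight (X := N) (Y := M) (Z := M)
  map_add' f g := MonoidalPreadditive.add_whiskerRight (X := N) (Y := M) (Z := M) f g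
  commutes' c := by
    rw [Algebra.algebraMap_eq_smul_one, Algebra.algebraMap_eq_smul_one]
    refine (MonoidalLinear.smul_whiskerRight (R := ℚ) c (𝟙 M) N).trans ?_
    rw [id_whiskerRight]
    rfl

/-- Tensoring with the identity of `M`. -/
def wL (M N : C) : End N →ₐ[ℚ] End (M ⊗ N) where
  toFun f := (M ◁ f : M ⊗ N ⟶ M ⊗ N)
  map_one' := whiskerLeft_id M N
  map_mul' f g := whiskerLeft_comp M g f
  map_zero' := MonoidalPreadditive.whiskerLeft_zero (X := M) (Y := N) (Z := N)
  map_add' f g := MonoidalPreadditive.whiskerLeft_add (X := M) (Y := N) (Z := N) f g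
  commutes' c := by
    rw [Algebra.algebraMap_eq_smul_one, Algebra.algebraMap_eq_smul_one]
    refine (MonoidalLinear.whiskerLeft_smul (R := ℚ) M c (𝟙 N)).trans ?_
    rw [whiskerLeft_id]
    rfl

lemma trq_unit_one (R : SuperRealisation C K) (hU : UnitQ C) :
    trq hU (𝟙_ C) (1 : End (𝟙_ C)) = 1 := by
  have hc := R_charZero R
  rw [trq_one R hU 1 (by rw [R.par_unit]; simp)]
  have h1 : finrank K (R.H.obj (𝟙_ C)) = 1 := by
    exact bt_unit R
  rw [h1]
  simp

/-- The tower of the tensor powers of an object. -/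
noncomputable def tower (R : SuperRealisation C K) (hU : UnitQ C) (M : C) :
    TT (fun n => End (tp M n)) (End M) where
  ι n := wR (tp M n) M
  s n := sw (tp M n) M
  s_sq n := sw_sw (tp M n) M
  s_comm n a := sw_nat_left (X := M) (a : tp M n ⟶ tp M n)
  braid n := braid (tp M n) M
  pt n := ptrL (tp M n) M
  pt_left n a x := ptr_comp_right (a : tp M n ⟶ tp M n) (x : tp M n ⊗ M ⟶ tp M n ⊗ M)
  pt_right n a x := ptr_comp_left (a : tp M n ⟶ tp M n) (x : tp M n ⊗ M ⟶ tp M n ⊗ M)
  pt_s n := ptr_sw (tp M n) M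
  j n := wL (tp M n) M
  trE := trq hU M
  pt_j n y := by
    have h1 := ptr_tensor (𝟙 (tp M n)) (y : M ⟶ M) _ (trq_spec hU y)
    rw [id_tensorHom] at h1
    exact h1
  j_comm n a y := whisker_exchange (a : tp M n ⟶ tp M n) (y : M ⟶ M)
  s_j n y := sw_nat_last (tp M n) (y : M ⟶ M)
  tr n := trq hU (tp M n)
  tr_one := trq_unit_one R hU
  tr_pt n x := trq_ptr R hU (x : tp M n ⊗ M ⟶ tp M n ⊗ M)
  tr_comm n x y := trq_comm' R hU (y : tp M n ⟶ tp M n) (x : tp M n ⟶ tp M n)
  lp n := lptL (tp M n) M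
  lp_j n a y := by
    have h1 := lpt_tensor (a : tp M n ⟶ tp M n) (y : M ⟶ M) _ (trq_spec hU a)
    rw [tensorHom_def'] at h1
    exact h1
  lp_comm n a x := lpt_comm (a : tp M n ⟶ tp M n) (x : tp M n ⊗ M ⟶ tp M n ⊗ M)
  lp_left n y x := lpt_left (y : M ⟶ M) (x : tp M n ⊗ M ⟶ tp M n ⊗ M)
  trE_lp n x := by
    have h1 : trq hU M (lpt (x : tp M n ⊗ M ⟶ tp M n ⊗ M)) = trq hU (tp M n ⊗ M) x := by
      rw [lpt, trq_ptr R hU, trq_comm' R hU, Category.assoc, SymmetricCategory.symmetry,
        Category.comp_id]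
    exact h1

end

end Pool.Agent.V8H87.GG
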