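import Pool.Agent.V8H87.GG.Tower

/-!
# Contraction of a Young symmetrizer
-/

set_option autoImplicit false
set_option linter.unusedSectionVars false

open Equiv Equiv.Perm

namespace Pool.Agent.V8H87.GG

namespace TT

variable {A : ℕ → Type*} [∀ n, Ring (A n)] [∀ n, Algebra ℚ (A n)] {E : Type*} [Ring E]
    [Algebra ℚ E] (T : TT A E) {α β : Type*}

lemma pt_tau_j {n : ℕ} (i : Fin n) (z : E) :
    T.pt n (T.th (n + 1) (swap 0 i.succ) * T.j n z) = T.X i z := by
  rw [← X_zero, th_X, swap_apply_left, X_succ, T.pt_left, pt_swap, mul_one]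

lemma pt_tau_tau_j {n : ℕ} {a b : Fin n} (hab : a ≠ b) (z : E) :
    T.pt n (T.th (n + 1) (swap 0 a.succ) * T.th (n + 1) (swap 0 b.succ) * T.j n z) =
      T.X b z * T.th n (swap b a) := by
  rw [← map_mul, swap_swap hab, map_mul (T.th _), th_ex, mul_assoc, T.j_comm, ← mul_assoc, T.pt_right,
    pt_tau_j]

/-- The Young symmetrizer of two labellings, composed with a tensor product of endomorphisms. -/
noncomputable def rch {n : ℕ} (ρ : Fin n → α) (γ : Fin n → β) (y : Fin n → E) : A n :=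
  Rw (T.th n) ρ * Cw (T.th n) γ * T.H n y

variable {T} {N : T.Nul}

lemma null_C {n : ℕ} (γ : Fin n → β) (y : Fin n → E) (hγ : ∀ i k, γ i = γ k → y i = y k)
    (k : Fin n) (z : E) (hz : NE N (z * y k - y k)) :
    T.X k z * (Cw (T.th n) γ * T.H n y) - Cw (T.th n) γ * T.H n y ∈ N.N n := by
  classical
  have h1 : T.X k z * (Cw (T.th n) γ * T.H n y) - Cw (T.th n) γ * T.H n y =
      ∑ c : Perm (Fin n), if Fx γ c then
        sg c • (T.th n c * (T.X (c⁻¹ k) z * T.H n y - T.H n y)) else 0 := by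
    rw [Cw, Finset.sum_mul, Finset.mul_sum, ← Finset.sum_sub_distrib]
    refine Finset.sum_congr rfl (fun c _ => ?_)
    split_ifs
    · rw [mul_sub, smul_sub, ← mul_assoc (T.th n c), th_X]
      have : c (c⁻¹ k) = k := by simp
      rw [this]
      simp only [smul_mul_assoc, mul_smul_comm, mul_assoc]
    · simp
  rw [h1]
  refine Submodule.sum_mem _ (fun c _ => ?_)
  split_ifs with hc
  · refine Submodule.smul_mem _ _ (N.left _ _ _ (X_H_sub _ _ _ ?_))
    rw [hγ (c⁻¹ k) k (hc.inv k)]
    exact hz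
  · exact Submodule.zero_mem _

open Classical in
/-- **Contraction of a Young symmetrizer.** -/
theorem pt_rch {n : ℕ} (ρ : Fin (n + 1) → α) (γ : Fin (n + 1) → β) (y : Fin (n + 1) → E)
    (hρ : ∀ i k, ρ i = ρ k → y i = y k) (hγ : ∀ i k, γ i = γ k → y i = y k)
    (hy : NE N (y 0 * y 0 - y 0))
    (G1 : ∀ i : Fin n, ρ i.succ = ρ 0 → γ i.succ = γ 0 → False)
    (G2 : ∀ a b : Fin n, ρ a.succ = ρ 0 → γ b.succ = γ 0 →
      ∃ k : Fin n, ρ k.succ = ρ b.succ ∧ γ k.succ = γ a.succ) :
    T.pt n (T.rch ρ γ y) -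
      (T.trE (y 0) + (∑ i : Fin n, if ρ i.succ = ρ 0 then (1 : ℚ) else 0) -
        (∑ i : Fin n, if γ i.succ = γ 0 then (1 : ℚ) else 0)) •
      T.rch (ρ ∘ Fin.succ) (γ ∘ Fin.succ) (y ∘ Fin.succ) ∈ N.N n := by
  set R' := Rw (T.th n) (ρ ∘ Fin.succ) with hR'
  set C' := Cw (T.th n) (γ ∘ Fin.succ) with hC'
  set H' := T.H n (y ∘ Fin.succ) with hH'
  set z := y 0 with hz
  set S : A (n + 1) := ∑ i : Fin n, if ρ i.succ = ρ 0 then T.th (n + 1) (swap 0 i.succ) else 0
    with hS
  set U : A (n + 1) := ∑ i : Fin n, if γ i.succ = γ 0 then T.th (n + 1) (swap 0 i.succ) else 0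
    with hU
  have e1 : T.rch ρ γ y = T.ι n R' * ((1 + S) * (1 - U) * T.j n z) * T.ι n (C' * H') := by
    rw [rch, Rw_succ (T.th (n + 1)) (T.th n) (T.ι n) T.th_ex, Cw_succ (T.th (n + 1)) (T.th n)
      (T.ι n) T.th_ex, H_succ, map_mul, ← hS, ← hU, ← hR', ← hC', ← hH', ← hz]
    calc T.ι n R' * (1 + S) * ((1 - U) * T.ι n C') * (T.ι n H' * T.j n z)
        = T.ι n R' * ((1 + S) * (1 - U)) * (T.ι n C' * (T.ι n H' * T.j n z)) := by
          simp only [mul_assoc]
      _ = T.ι n R' * ((1 + S) * (1 - U)) * (T.ι n (C' * H') * T.j n z) := by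
          rw [map_mul, ← mul_assoc (T.ι n C')]
      _ = _ := by rw [T.j_comm, map_mul]; simp only [mul_assoc]
  have e2 : T.pt n ((1 + S) * (1 - U) * T.j n z) = T.trE z • (1 : A n) +
      (∑ i : Fin n, if ρ i.succ = ρ 0 then T.X i z else 0) -
      (∑ i : Fin n, if γ i.succ = γ 0 then T.X i z else 0) -
      ∑ a : Fin n, ∑ b : Fin n, if ρ a.succ = ρ 0 then
        (if γ b.succ = γ 0 then T.X b z * T.th n (swap b a) else 0) else 0 := by
    have h1 : (1 + S) * (1 - U) * T.j n z = T.j n z + S * T.j n z - U * T.j n z -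
        S * U * T.j n z := by noncomm_ring
    have h2 : T.pt n (S * T.j n z) = ∑ i : Fin n, if ρ i.succ = ρ 0 then T.X i z else 0 := by
      rw [hS, Finset.sum_mul, map_sum]
      refine Finset.sum_congr rfl (fun i _ => ?_)
      split_ifs
      · exact T.pt_tau_j i z
      · rw [zero_mul, map_zero]
    have h3 : T.pt n (U * T.j n z) = ∑ i : Fin n, if γ i.succ = γ 0 then T.X i z else 0 := by
      rw [hU, Finset.sum_mul, map_sum]
      refine Finset.sum_congr rfl (fun i _ => ?_)
      split_ifs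
      · exact T.pt_tau_j i z
      · rw [zero_mul, map_zero]
    have h4 : T.pt n (S * U * T.j n z) = ∑ a : Fin n, ∑ b : Fin n, if ρ a.succ = ρ 0 then
        (if γ b.succ = γ 0 then T.X b z * T.th n (swap b a) else 0) else 0 := by
      rw [hS, hU, Finset.sum_mul_sum, Finset.sum_mul, map_sum]
      refine Finset.sum_congr rfl (fun a _ => ?_)
      rw [Finset.sum_mul, map_sum]
      refine Finset.sum_congr rfl (fun b _ => ?_)
      split_ifs with ha hb
      · refine T.pt_tau_tau_j ?_ z
        rintro rfl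
        exact G1 _ ha hb
      · rw [mul_zero, zero_mul, map_zero]
      · rw [zero_mul, zero_mul, map_zero]
      · rw [zero_mul, zero_mul, map_zero]
    rw [h1, map_sub, map_sub, map_add, T.pt_j, h2, h3, h4]
  have e3 : T.pt n (T.rch ρ γ y) = R' * (T.trE z • (1 : A n) +
      (∑ i : Fin n, if ρ i.succ = ρ 0 then T.X i z else 0) -
      (∑ i : Fin n, if γ i.succ = γ 0 then T.X i z else 0) -
      ∑ a : Fin n, ∑ b : Fin n, if ρ a.succ = ρ 0 then
        (if γ b.succ = γ 0 then T.X b z * T.th n (swap b a) else 0) else 0) * (C' * H') := by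
    rw [e1, T.pt_right, T.pt_left, e2]
  have e4 : T.pt n (T.rch ρ γ y) -
      (T.trE z + (∑ i : Fin n, if ρ i.succ = ρ 0 then (1 : ℚ) else 0) -
        (∑ i : Fin n, if γ i.succ = γ 0 then (1 : ℚ) else 0)) •
      T.rch (ρ ∘ Fin.succ) (γ ∘ Fin.succ) (y ∘ Fin.succ) =
      (∑ i : Fin n, if ρ i.succ = ρ 0 then R' * (T.X i z * (C' * H') - C' * H') else 0) -
      (∑ i : Fin n, if γ i.succ = γ 0 then R' * (T.X i z * (C' * H') - C' * H') else 0) -
      ∑ a : Fin n, ∑ b : Fin n, if ρ a.succ = ρ 0 then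
        (if γ b.succ = γ 0 then R' * (T.X b z * T.th n (swap b a)) * (C' * H') else 0) else 0 := by
    have h0 : T.rch (ρ ∘ Fin.succ) (γ ∘ Fin.succ) (y ∘ Fin.succ) = R' * (C' * H') := by
      rw [rch, ← hR', ← hC', ← hH', mul_assoc]
    have h1 : ∀ p : Fin n → Prop, R' * (∑ i : Fin n, if p i then T.X i z else 0) * (C' * H') -
        (∑ i : Fin n, if p i then (1 : ℚ) else 0) • (R' * (C' * H')) =
        ∑ i : Fin n, if p i then R' * (T.X i z * (C' * H') - C' * H') else 0 := by
      intro p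
      rw [Finset.mul_sum, Finset.sum_mul, Finset.sum_smul, ← Finset.sum_sub_distrib]
      refine Finset.sum_congr rfl (fun i _ => ?_)
      split_ifs
      · rw [one_smul, mul_sub, mul_assoc]
      · simp
    have h2 : R' * (∑ a : Fin n, ∑ b : Fin n, if ρ a.succ = ρ 0 then
        (if γ b.succ = γ 0 then T.X b z * T.th n (swap b a) else 0) else 0) * (C' * H') =
        ∑ a : Fin n, ∑ b : Fin n, if ρ a.succ = ρ 0 then
        (if γ b.succ = γ 0 then R' * (T.X b z * T.th n (swap b a)) * (C' * H') else 0) else 0 := by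
      rw [Finset.mul_sum, Finset.sum_mul]
      refine Finset.sum_congr rfl (fun a _ => ?_)
      rw [Finset.mul_sum, Finset.sum_mul]
      refine Finset.sum_congr rfl (fun b _ => ?_)
      split_ifs <;> simp
    rw [e3, h0, ← h1 (fun i => ρ i.succ = ρ 0), ← h1 (fun i => γ i.succ = γ 0), ← h2]
    simp only [mul_add, mul_sub, add_mul, sub_mul, add_smul, sub_smul, mul_smul_comm,
      smul_mul_assoc, mul_one]
    abel
  rw [e4]
  have hnull : ∀ i : Fin n, y i.succ = z → T.X i z * (C' * H') - C' * H' ∈ N.N n := by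
    intro i hi
    refine null_C (γ ∘ Fin.succ) (y ∘ Fin.succ) (fun i k h => hγ _ _ h) i z ?_
    have : (y ∘ Fin.succ) i = z := hi
    rw [this]
    exact hy
  refine Submodule.sub_mem _ (Submodule.sub_mem _ ?_ ?_) ?_
  · refine Submodule.sum_mem _ (fun i _ => ?_)
    split_ifs with hi
    · exact N.left _ _ _ (hnull i (hρ _ _ hi))
    · exact Submodule.zero_mem _
  · refine Submodule.sum_mem _ (fun i _ => ?_)
    split_ifs with hi
    · exact N.left _ _ _ (hnull i (hγ _ _ hi))
    · exact Submodule.zero_mem _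
  · refine Submodule.sum_mem _ (fun a _ => Submodule.sum_mem _ (fun b _ => ?_))
    split_ifs with ha hb
    · -- the main term vanishes
      obtain ⟨k, hk1, hk2⟩ := G2 a b ha hb
      have hka : k ≠ a := by
        rintro rfl
        exact G1 b (hk1.symm.trans ha) hb
      have hkb : k ≠ b := by
        rintro rfl
        exact G1 a ha (hk2.symm.trans hb)
      have z0 : R' * T.th n (swap b a) * C' = 0 := by
        refine Rw_mul_Cw_zero (a := k) (b := a) hka ?_ hk2
        rw [swap_apply_of_ne_of_ne hkb hka, swap_apply_right]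
        exact hk1
      have z1 : T.th n (swap b a) * T.X a z = T.X b z * T.th n (swap b a) := by
        rw [th_X, swap_apply_right]
      have z2 : R' * (T.X b z * T.th n (swap b a)) * (C' * H') =
          R' * T.th n (swap b a) * (T.X a z * (C' * H') - C' * H') := by
        rw [mul_sub, ← mul_assoc (R' * T.th n (swap b a)) C' H', z0, zero_mul, sub_zero, ← z1]
        simp only [mul_assoc]
      rw [z2]
      exact N.left _ _ _ (hnull a (hρ _ _ ha))
    · exact Submodule.zero_mem _
    · exact Submodule.zero_mem _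

end TT

end Pool.Agent.V8H87.GG
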