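import Pool.Agent.Y112.KD.Real

/-!
# Cyclicity of the partial trace
-/

set_option autoImplicit false
set_option linter.unusedSectionVars false

open CategoryTheory Limits MonoidalCategory
open Pool.Agent.Y112.SR Pool.Agent.Y112.KD
open Pool.Agent.Y116.MT (tr)

namespace Pool.Agent.V8H87.GG

universe v u w

section

variable {C : Type u} [Category.{v} C] [MonoidalCategory C] [SymmetricCategory C]
  [RightRigidCategory C]

/-- Cyclicity of the partial trace with respect to the traced factor. -/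
lemma ptr_cyc {M N : C} (q : N ⟶ N) (x : M ⊗ N ⟶ M ⊗ N) :
    ptr ((M ◁ q) ≫ x) = ptr (x ≫ (M ◁ q)) := by
  have h1 : η_ N Nᘁ ≫ q ▷ Nᘁ = η_ N Nᘁ ≫ N ◁ qᘁ := (coevaluation_comp_rightAdjointMate q).symm
  have h2 : N ◁ qᘁ ≫ (β_ N Nᘁ).hom ≫ ε_ N Nᘁ = q ▷ Nᘁ ≫ (β_ N Nᘁ).hom ≫ ε_ N Nᘁ := by
    rw [BraidedCategory.braiding_naturality_right_assoc, rightAdjointMate_comp_evaluation,
      BraidedCategory.braiding_naturality_left_assoc]
  have h3 : M ◁ η_ N Nᘁ ≫ (α_ M N Nᘁ).inv ≫ (M ◁ q) ▷ Nᘁ =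
      M ◁ η_ N Nᘁ ≫ (α_ M N Nᘁ).inv ≫ (M ⊗ N) ◁ qᘁ := by
    have e1 : (α_ M N Nᘁ).inv ≫ (M ◁ q) ▷ Nᘁ = M ◁ (q ▷ Nᘁ) ≫ (α_ M N Nᘁ).inv := by
      rw [associator_inv_naturality_middle]
    have e2 : (α_ M N Nᘁ).inv ≫ (M ⊗ N) ◁ qᘁ = M ◁ (N ◁ qᘁ) ≫ (α_ M N Nᘁ).inv := by
      rw [associator_inv_naturality_right]
    rw [e1, e2, ← MonoidalCategory.whiskerLeft_comp_assoc, h1,
      MonoidalCategory.whiskerLeft_comp_assoc]
  have h4 : (M ⊗ N) ◁ qᘁ ≫ (α_ M N Nᘁ).hom ≫ M ◁ ((β_ N Nᘁ).hom ≫ ε_ N Nᘁ) =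
      (M ◁ q) ▷ Nᘁ ≫ (α_ M N Nᘁ).hom ≫ M ◁ ((β_ N Nᘁ).hom ≫ ε_ N Nᘁ) := by
    rw [associator_naturality_right_assoc, associator_naturality_middle_assoc,
      ← MonoidalCategory.whiskerLeft_comp, ← MonoidalCategory.whiskerLeft_comp, h2]
  simp only [ptr, comp_whiskerRight, Category.assoc]
  rw [← reassoc_of% h4, ← whisker_exchange_assoc, reassoc_of% h3]

/-- The partial trace over the first factor. -/
def lpt {Q M : C} (x : Q ⊗ M ⟶ Q ⊗ M) : M ⟶ M := ptr ((β_ M Q).hom ≫ x ≫ (β_ Q M).hom)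

end

section

variable {C : Type u} [Category.{v} C] [MonoidalCategory C] [SymmetricCategory C]
  [Preadditive C] [Linear ℚ C] [MonoidalPreadditive C] [MonoidalLinear ℚ C]
  [RightRigidCategory C]

/-- The partial trace over the first factor as a linear map. -/
def lptL (Q M : C) : (Q ⊗ M ⟶ Q ⊗ M) →ₗ[ℚ] (M ⟶ M) where
  toFun x := lpt x
  map_add' x y := by
    simp only [lpt, Preadditive.add_comp, Preadditive.comp_add, ptr_add]
  map_smul' c x := by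
    simp only [lpt, Linear.smul_comp, Linear.comp_smul, ptr_smul, RingHom.id_apply]

lemma lpt_tensor {Q M : C} (a : Q ⟶ Q) (y : M ⟶ M) (t : ℚ) (ht : tr a = t • 𝟙 _) :
    lpt (a ⊗ₘ y) = t • y := by
  have h1 : (β_ M Q).hom ≫ (a ⊗ₘ y) ≫ (β_ Q M).hom = y ⊗ₘ a := by
    rw [BraidedCategory.braiding_naturality, SymmetricCategory.symmetry_assoc]
  rw [lpt, h1, ptr_tensor _ _ t ht]

lemma lpt_comm {Q M : C} (a : Q ⟶ Q) (x : Q ⊗ M ⟶ Q ⊗ M) :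
    lpt (x ≫ a ▷ M) = lpt (a ▷ M ≫ x) := by
  have h1 : (β_ M Q).hom ≫ (x ≫ a ▷ M) ≫ (β_ Q M).hom =
      ((β_ M Q).hom ≫ x ≫ (β_ Q M).hom) ≫ M ◁ a := by
    simp only [Category.assoc, BraidedCategory.braiding_naturality_left]
  have h2 : (β_ M Q).hom ≫ (a ▷ M ≫ x) ≫ (β_ Q M).hom =
      M ◁ a ≫ ((β_ M Q).hom ≫ x ≫ (β_ Q M).hom) := by
    rw [BraidedCategory.braiding_naturality_right_assoc, Category.assoc]
  rw [lpt, lpt, h1, h2, ptr_cyc]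

lemma lpt_left {Q M : C} (y : M ⟶ M) (x : Q ⊗ M ⟶ Q ⊗ M) :
    lpt (x ≫ Q ◁ y) = lpt x ≫ y := by
  have h1 : (β_ M Q).hom ≫ (x ≫ Q ◁ y) ≫ (β_ Q M).hom =
      ((β_ M Q).hom ≫ x ≫ (β_ Q M).hom) ≫ y ▷ Q := by
    simp only [Category.assoc, BraidedCategory.braiding_naturality_right]
  rw [lpt, lpt, h1, ptr_comp_right]

end

end Pool.Agent.V8H87.GG
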