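import Pool.Agent.V8H87.GG.Kahn

/-!
# Growth of the Chow groups of the powers and rational equivalence
-/

set_option autoImplicit false
set_option linter.unusedSectionVars false

open CategoryTheory Limits MonoidalCategory Module Filter
open Pool.Agent.Y112.SR Pool.Agent.Y112.KD Pool.Agent.N64.AF Pool.Agent.R905
open Pool.Agent.N645.AFK1 (cur cur_eq)
open Pool.Agent.Y116.MT (tr)

namespace Pool.Agent.V8H87.GG

universe v u w

section

variable {C : Type u} [Category.{v} C] [Preadditive C] [MonoidalCategory C]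
  [MonoidalPreadditive C] [SymmetricCategory C] [RightRigidCategory C]
  [Linear ℚ C] [MonoidalLinear ℚ C] {K : Type w} [Field K] [Algebra ℚ K]
  {R : SuperRealisation C K}

/-- The unit object has only rational endomorphisms. -/
lemma unitQ_of (hR : IsReal ℚ R) : UnitQ C := by
  refine ⟨hR.unit, fun h => ?_⟩
  have h1 := bt_unit R
  have h2 : 𝟙 (R.H.obj (𝟙_ C)) = 0 := by
    rw [← CategoryTheory.Functor.map_id, h, Functor.map_zero]
  have h3 : IsZero (R.H.obj (𝟙_ C)) := (IsZero.iff_id_eq_zero _).2 h2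
  have h4 : Subsingleton (R.H.obj (𝟙_ C)) := ModuleCat.subsingleton_of_isZero h3
  unfold bt at h1
  rw [finrank_zero_of_subsingleton] at h1
  exact zero_ne_one h1

lemma cur_tp (T : C) [ExactPairing T T] (a : ℕ) : ∀ b : ℕ,
    Nonempty ((tp T a ⟶ tp T b) ≃ₗ[ℚ] (𝟙_ C ⟶ tp T (b + a))) := by
  induction a with
  | zero => intro b; exact ⟨LinearEquiv.refl ℚ _⟩
  | succ a ih =>
    intro b
    obtain ⟨e⟩ := ih (b + 1)
    have h1 : b + 1 + a = b + (a + 1) := by ring
    rw [← h1]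
    exact ⟨(cur ℚ T (tp T a) (tp T b)).trans e⟩

/-- If the numerically trivial cycles are zero then so are the numerically trivial
correspondences. -/
lemma corr_zero (hR : IsReal ℚ R) {T : C} [ExactPairing T T]
    (h0 : ∀ (b : ℕ) (f : 𝟙_ C ⟶ tp T b), NumTriv f → f = 0) (a : ℕ) :
    ∀ (b : ℕ) (f : tp T a ⟶ tp T b), NumTriv f → f = 0 := by
  induction a with
  | zero => exact h0
  | succ a ih =>
    intro b f hf
    have h1 : cur ℚ T (tp T a) (tp T b) f = 0 := by
      apply ih (b + 1)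
      rw [cur_eq]
      have h2 := NumTriv.comp hR (hf.whiskerRight hR T)
        ((ρ_ (tp T a)).inv ≫ (tp T a ◁ η_ T T) ≫ (α_ (tp T a) T T).inv) (𝟙 _)
      rwa [Category.comp_id] at h2
    exact (LinearEquiv.map_eq_zero_iff _).1 h1

lemma numRank_le (hR : IsReal ℚ R) (S : C) : numRank ℚ S ≤ bt R S := by
  obtain ⟨e, -, h1, -⟩ := exists_idem hR S
  rw [← h1]
  have := R.finite S
  exact Submodule.finrank_le _

lemma finrank_even {T : C} [ExactPairing T T] (n : ℕ)
    (hfin : Module.Finite ℚ (𝟙_ C ⟶ tp T (2 * n))) :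
    finrank ℚ (permAlg T n) ≤ finrank ℚ (𝟙_ C ⟶ tp T (2 * n)) := by
  obtain ⟨e⟩ := cur_tp T n n
  rw [← two_mul] at e
  have f1 : Module.Finite ℚ (End (tp T n)) := Module.Finite.equiv e.symm
  have f2 : finrank ℚ (End (tp T n)) = finrank ℚ (𝟙_ C ⟶ tp T (2 * n)) := e.finrank_eq
  rw [← f2]
  exact Submodule.finrank_le (M := End (tp T n)) (Subalgebra.toSubmodule (permAlg T n))

lemma finrank_succ {T : C} (h : IsPow ℚ R T) (n : ℕ)
    (hfin : Module.Finite ℚ (𝟙_ C ⟶ tp T (n + 1))) : Module.Finite ℚ (𝟙_ C ⟶ tp T n) ∧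
    finrank ℚ (𝟙_ C ⟶ tp T n) ≤ finrank ℚ (𝟙_ C ⟶ tp T (n + 1)) := by
  obtain ⟨i, r, hir⟩ : ∃ (i : tp T n ⟶ tp T (n + 1)) (r : tp T (n + 1) ⟶ tp T n),
      i ≫ r = 𝟙 (tp T n) := by
    obtain ⟨i, r, hir⟩ := h.retract
    refine ⟨(ρ_ (tp T n)).inv ≫ (tp T n ◁ i), (tp T n ◁ r) ≫ (ρ_ (tp T n)).hom, ?_⟩
    rw [Category.assoc, ← Category.assoc (tp T n ◁ i), ← MonoidalCategory.whiskerLeft_comp, hir,
      MonoidalCategory.whiskerLeft_id, Category.id_comp, Iso.inv_hom_id]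
  have h1 : Function.Injective (Linear.rightComp ℚ (𝟙_ C) i) := by
    intro a b hab
    have h2 : a ≫ i = b ≫ i := hab
    rw [← Category.comp_id a, ← Category.comp_id b, ← hir, ← Category.assoc, ← Category.assoc, h2]
  exact ⟨Module.Finite.of_injective _ h1, LinearMap.finrank_le_finrank_of_injective h1⟩

lemma finrank_half {T : C} [ExactPairing T T] (h : IsPow ℚ R T) (N : ℕ)
    (hfin : Module.Finite ℚ (𝟙_ C ⟶ tp T N)) :
    finrank ℚ (permAlg T (N / 2)) ≤ finrank ℚ (𝟙_ C ⟶ tp T N) := by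
  obtain ⟨n, hn | hn⟩ := Nat.even_or_odd' N
  · subst hn
    have h1 : 2 * n / 2 = n := by omega
    rw [h1]
    exact finrank_even n hfin
  · subst hn
    have h1 : (2 * n + 1) / 2 = n := by omega
    rw [h1]
    obtain ⟨h2, h3⟩ := finrank_succ h (2 * n) hfin
    exact (finrank_even n h2).trans h3

/-- Comparison of growth rates. -/
lemma frequently_half {d e : ℕ → ℕ} (hde : ∀ N, d (N / 2) ≤ e N) {r b : ℝ} (hb : 0 ≤ b)
    (hr : r < b + 2) (h : ∃ᶠ N in atTop, (e N : ℝ) ≤ r ^ N) (hr0 : 0 ≤ r) :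
    ∃ r' : ℝ, 0 ≤ r' ∧ r' < b + 2 ∧ ∃ᶠ n in atTop, (d n : ℝ) ≤ r' ^ (2 * n) := by
  set r0 := max r 1 with hr0'
  have h1 : r0 < b + 2 := max_lt hr (by linarith)
  have h2 : 1 ≤ r0 := le_max_right _ _
  set r' := (r0 + (b + 2)) / 2 with hr'
  have h3 : r0 < r' := by rw [hr']; linarith
  have h4 : r' < b + 2 := by rw [hr']; linarith
  have h5 : 0 < r0 := by linarith
  refine ⟨r', by linarith, h4, ?_⟩
  have h6 : Tendsto (fun n : ℕ => (r' / r0) ^ n) atTop atTop :=
    tendsto_pow_atTop_atTop_of_one_lt ((one_lt_div h5).2 h3)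
  obtain ⟨n1, hn1⟩ := (h6.eventually_ge_atTop r0).exists_forall_of_atTop
  rw [frequently_atTop] at h ⊢
  intro n0
  obtain ⟨N, hN, hN2⟩ := h (2 * (n0 + n1))
  refine ⟨N / 2, by omega, ?_⟩
  have h7 : (d (N / 2) : ℝ) ≤ r ^ N := le_trans (by exact_mod_cast hde N) hN2
  have h8 : r ^ N ≤ r0 ^ N := pow_le_pow_left₀ hr0 (le_max_left _ _) N
  have h9 : r0 ^ N ≤ r0 ^ (2 * (N / 2) + 1) := pow_le_pow_right₀ h2 (by omega)
  have h10 : r0 ^ (2 * (N / 2) + 1) ≤ r' ^ (2 * (N / 2)) := by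
    have h11 := hn1 (2 * (N / 2)) (by omega)
    rw [div_pow, le_div_iff₀ (pow_pos h5 _)] at h11
    rw [pow_succ]
    linarith
  linarith

end

section

variable {C : Type u} [Category.{v} C] [Preadditive C] [MonoidalCategory C]
  [MonoidalPreadditive C] [SymmetricCategory C] [RightRigidCategory C]
  [Linear ℚ C] [MonoidalLinear ℚ C] [IsIdempotentComplete C] {K : Type w} [Field K]
  [Algebra ℚ K] {R : SuperRealisation C K}

/-- For some real number `r` smaller than `b + 2`, `b` the dimension of the realisation of `T`, the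
algebra of the permutations of the factors of the tensor power `T ^ n` has dimension at most
`r ^ (2 n)` for infinitely many `n`. -/
def SmallPerm (R : SuperRealisation C K) (T : C) : Prop :=
  ∃ r : ℝ, 0 ≤ r ∧ r < bt R T + 2 ∧
    ∃ᶠ n in atTop, (finrank ℚ (permAlg T n) : ℝ) ≤ r ^ (2 * n)

/-- For some real number `r` smaller than `b + 2`, `b` the dimension of the realisation of `T`, the
space of the morphisms from the unit object to the tensor power `T ^ n` has a finite dimension, which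
is at most `r ^ n`, for infinitely many `n`. -/
def SmallChow (R : SuperRealisation C K) (T : C) : Prop :=
  ∃ r : ℝ, 0 ≤ r ∧ r < bt R T + 2 ∧
    ∃ᶠ n in atTop, Module.Finite ℚ (𝟙_ C ⟶ tp T n) ∧ (finrank ℚ (𝟙_ C ⟶ tp T n) : ℝ) ≤ r ^ n

lemma kimura_of_small (hU : UnitQ C) {T : C} (hT : R.CPlus T) (h : SmallPerm R T) :
    IsKimuraFinite T := by
  obtain ⟨r, h1, h2, h3⟩ := h
  by_contra h4
  set r' := (r + (bt R T + 2)) / 2 with hr'
  obtain ⟨n0, h5⟩ := (growth_gap R hU T).2 hT h4 r' (by rw [hr']; positivity)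
    (by rw [hr']; linarith)
  rw [frequently_atTop] at h3
  obtain ⟨n, h6, h7⟩ := h3 (n0 + 1)
  have h8 := h5 n (by omega)
  have h9 : r ^ (2 * n) < r' ^ (2 * n) :=
    pow_lt_pow_left₀ (by rw [hr']; linarith) h1 (by omega)
  linarith

lemma small_of_kimura (hU : UnitQ C) {T : C} (h : IsKimuraFinite T) : SmallPerm R T := by
  refine ⟨bt R T, Nat.cast_nonneg _, by linarith, Frequently.of_forall (fun n => ?_)⟩
  exact_mod_cast ((growth_gap R hU T).1 h).2 n

lemma perm_of_chow {T : C} [ExactPairing T T] (h : IsPow ℚ R T)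
    (hS : SmallChow R T) : SmallPerm R T := by
  classical
  obtain ⟨r, h1, h2, h3⟩ := hS
  have h4 : ∃ᶠ N in atTop, ((if Module.Finite ℚ (𝟙_ C ⟶ tp T N) then
      finrank ℚ (𝟙_ C ⟶ tp T N) else finrank ℚ (permAlg T (N / 2)) : ℕ) : ℝ) ≤ r ^ N := by
    refine h3.mono (fun N hN => ?_)
    rw [if_pos hN.1]
    exact hN.2
  exact frequently_half (d := fun n => finrank ℚ (permAlg T n)) (fun N => by
    split_ifs with hfin
    · exact finrank_half h N hfin
    · exact le_rfl) (Nat.cast_nonneg _) h2 h4 h1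

end

section

variable {C : Type u} [Category.{v} C] [Preadditive C] [MonoidalCategory C]
  [MonoidalPreadditive C] [SymmetricCategory C] [RightRigidCategory C]
  [Linear ℚ C] [MonoidalLinear ℚ C] [IsIdempotentComplete C] {K : Type w} [Field K]
  [IsAlgClosed K] [Algebra ℚ K] {R : SuperRealisation C K}

/-- The main theorem. -/
theorem main {T : C} [ExactPairing T T] (h : IsPow ℚ R T) (q : ℚ)
    (φ : ∀ n, tp T n ⟶ tp T n) (hφ : ∀ n, IsWt q (φ n)) :
    (SmallChow R T → IsKimuraFinite T) ∧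
    (IsKimuraFinite T → ∀ n, StrongTate R q (φ n) → ∀ f : 𝟙_ C ⟶ tp T n, NumTriv f → f = 0) ∧
    ((∀ n, StrongTate R q (φ n)) →
      [∀ (a b : ℕ) (f : tp T a ⟶ tp T b), NumTriv f → f = 0,
        ∀ n, Module.Finite ℚ (𝟙_ C ⟶ tp T n) ∧ finrank ℚ (𝟙_ C ⟶ tp T n) ≤ bt R T ^ n,
        SmallChow R T, SmallPerm R T, IsKimuraFinite T].TFAE) := by
  have hU := unitQ_of h.real
  have hA : SmallChow R T → IsKimuraFinite T :=
    fun hS => kimura_of_small hU h.cplus (perm_of_chow h hS)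
  have hB : IsKimuraFinite T → ∀ n, StrongTate R q (φ n) → ∀ f : 𝟙_ C ⟶ tp T n, NumTriv f →
      f = 0 :=
    fun hK n hT f hf => kahn h.real hU (kimura_tp R hU hK n) (hφ n) hT f hf
  refine ⟨hA, hB, fun hT => ?_⟩
  tfae_have 1 → 2 := by
    intro h1 n
    have h2 : numIdeal ℚ (𝟙_ C) (tp T n) = ⊥ := by
      rw [eq_bot_iff]
      intro α hα
      exact (Submodule.mem_bot ℚ).2 (h1 0 n α hα)
    have h3 := finite_num h.real (𝟙_ C) (tp T n)
    have e : ((𝟙_ C ⟶ tp T n) ⧸ numIdeal ℚ (𝟙_ C) (tp T n)) ≃ₗ[ℚ] (𝟙_ C ⟶ tp T n) :=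
      Submodule.quotEquivOfEqBot _ h2
    refine ⟨Module.Finite.equiv e, ?_⟩
    rw [← e.finrank_eq, ← bt_tp]
    exact numRank_le h.real (tp T n)
  tfae_have 2 → 3 := by
    intro h2
    refine ⟨bt R T, Nat.cast_nonneg _, by linarith, Frequently.of_forall (fun n => ?_)⟩
    exact ⟨(h2 n).1, by exact_mod_cast (h2 n).2⟩
  tfae_have 3 → 4 := perm_of_chow h
  tfae_have 4 → 5 := kimura_of_small hU h.cplus
  tfae_have 5 → 1 := by
    intro hK a b f hf
    exact corr_zero h.real (fun b f hf => hB hK b (hT b) f hf) a b f hf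
  tfae_finish

end

end Pool.Agent.V8H87.GG
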