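import Pool.Agent.V8H87.GG.Sym

/-!
# Linear independence of translated Young symmetrizers
-/

set_option autoImplicit false
set_option linter.unusedSectionVars false

open Equiv Equiv.Perm

namespace Pool.Agent.V8H87.GG

section Star

variable {G : Type*} [Group G] [Fintype G]

/-- The orthogonal decomposition with respect to the standard form. -/
lemma exists_decomp {G : Type*} [Fintype G] (I : Submodule ℚ (G → ℚ)) (x : G → ℚ) :
    ∃ x1 ∈ I, ∃ x2, (∀ i ∈ I, ∑ g, i g * x2 g = 0) ∧ x = x1 + x2 := by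
  let F : LinearMap.BilinForm ℚ (G → ℚ) := dotProductBilin ℚ ℚ
  have hF : ∀ a b : G → ℚ, F a b = ∑ g, a g * b g := fun a b => rfl
  have hr : F.IsRefl := by
    intro a b h
    rw [hF] at h ⊢
    simpa only [mul_comm] using h
  have hd : Disjoint I (F.orthogonal I) := by
    rw [Submodule.disjoint_def]
    intro a ha ha'
    have h1 := (LinearMap.BilinForm.mem_orthogonal_iff.1 ha') a ha
    have h2 : F a a = 0 := h1
    rw [hF] at h2
    funext g
    have h3 := (Finset.sum_eq_zero_iff_of_nonneg (fun g _ => mul_self_nonneg (a g))).1 h2 g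
      (Finset.mem_univ g)
    exact mul_self_eq_zero.1 h3
  have hc := (LinearMap.BilinForm.isCompl_orthogonal_iff_disjoint hr).2 hd
  have h1 : x ∈ I ⊔ F.orthogonal I := by
    rw [hc.sup_eq_top]; trivial
  obtain ⟨x1, h2, x2, h3, h4⟩ := Submodule.mem_sup.1 h1
  exact ⟨x1, h2, x2, fun i hi => (LinearMap.BilinForm.mem_orthogonal_iff.1 h3) i hi, h4.symm⟩

variable {B : Type*} [Ring B] [Algebra ℚ B] (θ : G →* B)

/-- An element whose product with its adjoint vanishes is zero. -/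
lemma star_zero (x : G → ℚ) (h : (∑ g, x g • θ g⁻¹) * (∑ g, x g • θ g) = 0) :
    ∑ g, x g • θ g = 0 := by
  classical
  let S : (G → ℚ) →ₗ[ℚ] B :=
    { toFun := fun x => ∑ g, x g • θ g
      map_add' := fun x y => by simp only [Pi.add_apply, add_smul, Finset.sum_add_distrib]
      map_smul' := fun c x => by
        simp only [Pi.smul_apply, smul_eq_mul, mul_smul, Finset.smul_sum, RingHom.id_apply] }
  have hS : ∀ x, S x = ∑ g, x g • θ g := fun x => rfl
  obtain ⟨x1, h1, x2, h2, hx⟩ := exists_decomp (LinearMap.ker S) x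
  have hx1 : S x1 = 0 := h1
  have hSx : S x = S x2 := by rw [hx, map_add, hx1, zero_add]
  -- translates
  have htr : ∀ (k : G) (i : G → ℚ), S i = 0 → S (fun h => i (k * h)) = 0 := by
    intro k i hi
    have e1 : S (fun h => i (k * h)) = θ k⁻¹ * S i := by
      rw [hS, hS, Finset.mul_sum]
      refine Fintype.sum_equiv (Equiv.mulLeft k) _ _ (fun h => ?_)
      rw [Equiv.coe_mulLeft, mul_smul_comm, ← map_mul, inv_mul_cancel_left]
    rw [e1, hi, mul_zero]
  set y : G → ℚ := fun h => ∑ g, x g * x2 (g * h) with hy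
  have hSy : S y = 0 := by
    have e1 : S y = (∑ g, x g • θ g⁻¹) * S x2 := by
      rw [hS, hS, Finset.sum_mul]
      simp only [hy, Finset.sum_smul]
      rw [Finset.sum_comm]
      refine Finset.sum_congr rfl (fun g _ => ?_)
      rw [Finset.mul_sum]
      refine Fintype.sum_equiv (Equiv.mulLeft g) _ _ (fun h => ?_)
      rw [Equiv.coe_mulLeft, smul_mul_smul_comm, ← map_mul, inv_mul_cancel_left]
    rw [e1, ← hSx, hS]
    exact h
  have hyo : ∀ i, S i = 0 → ∑ h, i h * y h = 0 := by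
    intro i hi
    have e1 : ∑ h, i h * y h = ∑ g, x g * ∑ k, i (g⁻¹ * k) * x2 k := by
      simp only [hy, Finset.mul_sum]
      rw [Finset.sum_comm]
      refine Finset.sum_congr rfl (fun g _ => ?_)
      refine Fintype.sum_equiv (Equiv.mulLeft g) _ _ (fun h => ?_)
      rw [Equiv.coe_mulLeft, inv_mul_cancel_left]
      ring
    rw [e1]
    refine Finset.sum_eq_zero (fun g _ => ?_)
    rw [h2 _ (htr g⁻¹ i hi), mul_zero]
  have hy0 : y = 0 := by
    have h3 := hyo y hSy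
    funext g
    have h4 := (Finset.sum_eq_zero_iff_of_nonneg (fun g _ => mul_self_nonneg (y g))).1 h3 g
      (Finset.mem_univ g)
    exact mul_self_eq_zero.1 h4
  have h5 : ∑ g, x2 g * x2 g = 0 := by
    have h6 := congrFun hy0 1
    simp only [hy, mul_one, Pi.zero_apply] at h6
    have h7 := h2 x1 h1
    have h8 : ∑ g, x g * x2 g = ∑ g, x1 g * x2 g + ∑ g, x2 g * x2 g := by
      rw [← Finset.sum_add_distrib]
      refine Finset.sum_congr rfl (fun g _ => ?_)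
      rw [hx, Pi.add_apply]; ring
    rw [h6, h7, zero_add] at h8
    exact h8.symm
  have h9 : x2 = 0 := by
    funext g
    have h4 := (Finset.sum_eq_zero_iff_of_nonneg (fun g _ => mul_self_nonneg (x2 g))).1 h5 g
      (Finset.mem_univ g)
    exact mul_self_eq_zero.1 h4
  change S x = 0
  rw [hSx, h9, map_zero]

/-- `b` is an adjoint of `a`. -/
def SP (a b : B) : Prop := ∃ x : G → ℚ, a = ∑ g, x g • θ g ∧ b = ∑ g, x g • θ g⁻¹

variable {θ}

lemma SP.of (g : G) (c : ℚ) : SP θ (c • θ g) (c • θ g⁻¹) := by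
  classical
  refine ⟨Pi.single g c, ?_, ?_⟩
  · rw [Finset.sum_eq_single g]
    · rw [Pi.single_eq_same]
    · intro h _ hh
      rw [Pi.single_eq_of_ne hh, zero_smul]
    · intro h; exact absurd (Finset.mem_univ _) h
  · rw [Finset.sum_eq_single g]
    · rw [Pi.single_eq_same]
    · intro h _ hh
      rw [Pi.single_eq_of_ne hh, zero_smul]
    · intro h; exact absurd (Finset.mem_univ _) h

lemma SP.zero : SP θ 0 0 := ⟨0, by simp, by simp⟩

lemma SP.sum {ι : Type*} (s : Finset ι) (a b : ι → B) (h : ∀ i ∈ s, SP θ (a i) (b i)) :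
    SP θ (∑ i ∈ s, a i) (∑ i ∈ s, b i) := by
  classical
  choose! x hx1 hx2 using h
  refine ⟨∑ i ∈ s, x i, ?_, ?_⟩
  · rw [Finset.sum_congr rfl hx1, Finset.sum_comm]
    refine Finset.sum_congr rfl (fun g _ => ?_)
    rw [Finset.sum_apply, Finset.sum_smul]
  · rw [Finset.sum_congr rfl hx2, Finset.sum_comm]
    refine Finset.sum_congr rfl (fun g _ => ?_)
    rw [Finset.sum_apply, Finset.sum_smul]

lemma SP.mul {a b a' b' : B} (h : SP θ a b) (h' : SP θ a' b') : SP θ (a * a') (b' * b) := by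
  obtain ⟨x, rfl, rfl⟩ := h
  obtain ⟨x', rfl, rfl⟩ := h'
  have e1 : (∑ g, x g • θ g) * (∑ g, x' g • θ g) =
      ∑ p : G × G, (x p.1 * x' p.2) • θ (p.1 * p.2) := by
    rw [Finset.sum_mul_sum, Fintype.sum_prod_type]
    refine Finset.sum_congr rfl (fun g _ => Finset.sum_congr rfl (fun k _ => ?_))
    rw [smul_mul_smul_comm, map_mul]
  have e2 : (∑ g, x' g • θ g⁻¹) * (∑ g, x g • θ g⁻¹) =
      ∑ p : G × G, (x p.1 * x' p.2) • θ (p.1 * p.2)⁻¹ := by
    rw [Finset.sum_mul_sum, Fintype.sum_prod_type, Finset.sum_comm]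
    refine Finset.sum_congr rfl (fun g _ => Finset.sum_congr rfl (fun k _ => ?_))
    rw [smul_mul_smul_comm, mul_inv_rev, map_mul, mul_comm (x g)]
  rw [e1, e2]
  exact SP.sum _ _ _ (fun p _ => SP.of _ _)

lemma SP.zero_of {a b : B} (h : SP θ a b) (h0 : b * a = 0) : a = 0 := by
  obtain ⟨x, rfl, rfl⟩ := h
  exact star_zero θ x h0

end Star

section

variable {n : ℕ} {B : Type*} [Ring B] [Algebra ℚ B] {θ : Perm (Fin n) →* B} {α β : Type*}

lemma SP_Rw (ρ : Fin n → α) : SP θ (Rw θ ρ) (Rw θ ρ) := by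
  classical
  have h1 : Rw θ ρ = ∑ σ : Perm (Fin n), if Fx ρ σ then θ σ⁻¹ else 0 := by
    rw [Rw]
    refine Fintype.sum_equiv (Equiv.inv _) _ _ (fun σ => ?_)
    simp only [Equiv.inv_apply, inv_inv]
    have : Fx ρ σ⁻¹ ↔ Fx ρ σ := ⟨fun h => by simpa using h.inv, fun h => h.inv⟩
    simp only [this]
  nth_rewrite 2 [h1]
  rw [Rw]
  refine SP.sum _ _ _ (fun σ _ => ?_)
  split_ifs
  · simpa using SP.of (θ := θ) σ 1
  · exact SP.zero

lemma SP_Cw (γ : Fin n → α) : SP θ (Cw θ γ) (Cw θ γ) := by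
  classical
  have h1 : Cw θ γ = ∑ σ : Perm (Fin n), if Fx γ σ then sg σ • θ σ⁻¹ else 0 := by
    rw [Cw]
    refine Fintype.sum_equiv (Equiv.inv _) _ _ (fun σ => ?_)
    simp only [Equiv.inv_apply, inv_inv, sg_inv]
    have : Fx γ σ⁻¹ ↔ Fx γ σ := ⟨fun h => by simpa using h.inv, fun h => h.inv⟩
    simp only [this]
  nth_rewrite 2 [h1]
  rw [Cw]
  refine SP.sum _ _ _ (fun σ _ => ?_)
  split_ifs
  · exact SP.of (θ := θ) σ (sg σ)
  · exact SP.zero

open Classical in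
/-- The number of the permutations that preserve a labelling. -/
noncomputable def cardFx (ρ : Fin n → α) : ℕ := (Finset.univ.filter (fun σ => Fx ρ σ)).card

lemma cardFx_ne (ρ : Fin n → α) : (cardFx ρ : ℚ) ≠ 0 := by
  classical
  rw [cardFx, Nat.cast_ne_zero, ← Nat.pos_iff_ne_zero, Finset.card_pos]
  exact ⟨1, Finset.mem_filter.2 ⟨Finset.mem_univ _, Fx.one⟩⟩

lemma Rw_sq (ρ : Fin n → α) : Rw θ ρ * Rw θ ρ = (cardFx ρ : ℚ) • Rw θ ρ := by
  classical
  nth_rewrite 1 [Rw]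
  rw [Finset.sum_mul]
  have h1 : ∀ σ : Perm (Fin n), (if Fx ρ σ then θ σ else 0) * Rw θ ρ =
      if Fx ρ σ then Rw θ ρ else 0 := by
    intro σ
    split_ifs with h
    · exact mul_Rw h
    · exact zero_mul _
  simp only [h1]
  rw [← Finset.sum_filter, Finset.sum_const, cardFx, ← Nat.cast_smul_eq_nsmul ℚ]

lemma Cw_sq (γ : Fin n → α) : Cw θ γ * Cw θ γ = (cardFx γ : ℚ) • Cw θ γ := by
  classical
  nth_rewrite 1 [Cw]
  rw [Finset.sum_mul]
  have h1 : ∀ σ : Perm (Fin n), (if Fx γ σ then sg σ • θ σ else 0) * Cw θ γ =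
      if Fx γ σ then Cw θ γ else 0 := by
    intro σ
    split_ifs with h
    · rw [smul_mul_assoc, mul_Cw h, smul_smul, sg_sq, one_smul]
    · exact zero_mul _
  simp only [h1]
  rw [← Finset.sum_filter, Finset.sum_const, cardFx, ← Nat.cast_smul_eq_nsmul ℚ]

/-- If `C R C R = 0` then `R C = 0`. -/
lemma RC_zero_of (ρ : Fin n → α) (γ : Fin n → β)
    (h : Cw θ γ * Rw θ ρ * (Cw θ γ * Rw θ ρ) = 0) : Rw θ ρ * Cw θ γ = 0 := by
  set R := Rw θ ρ with hR
  set C := Cw θ γ with hC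
  have hRR : R * R = (cardFx ρ : ℚ) • R := Rw_sq ρ
  have hCC : C * C = (cardFx γ : ℚ) • C := Cw_sq γ
  have s1 : SP θ (C * R * C) (C * (R * C)) :=
    ((SP_Cw γ).mul (SP_Rw ρ)).mul (SP_Cw γ)
  have h1 : C * R * C = 0 := by
    refine s1.zero_of ?_
    calc C * (R * C) * (C * R * C) = C * R * (C * C) * R * C := by simp only [mul_assoc]
      _ = (cardFx γ : ℚ) • (C * R * (C * R) * C) := by
        rw [hCC, mul_smul_comm, smul_mul_assoc, smul_mul_assoc]; simp only [mul_assoc]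
      _ = 0 := by rw [h, zero_mul, smul_zero]
  have s2 : SP θ (R * C) (C * R) := (SP_Rw ρ).mul (SP_Cw γ)
  refine s2.zero_of ?_
  calc C * R * (R * C) = C * (R * R) * C := by simp only [mul_assoc]
    _ = (cardFx ρ : ℚ) • (C * R * C) := by
      rw [hRR, mul_smul_comm, smul_mul_assoc]
    _ = 0 := by rw [h1, smul_zero]

/-- Translates of a Young symmetrizer are linearly independent. -/
theorem indep {ι : Type*} [Fintype ι] [LinearOrder ι] (ρ : Fin n → α) (γ : Fin n → β)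
    (g : ι → Perm (Fin n))
    (hlt : ∀ u v : ι, v < u → Cw θ (γ ∘ g u) * Rw θ (ρ ∘ g v) = 0)
    (h0 : Rw θ ρ * Cw θ γ ≠ 0) :
    LinearIndependent ℚ (fun x : ι × ι => θ (g x.1)⁻¹ * (Rw θ ρ * Cw θ γ) * θ (g x.2)) := by
  classical
  rw [Fintype.linearIndependent_iff]
  intro a ha
  by_contra hcon
  push Not at hcon
  obtain ⟨⟨u0, v0⟩, h1⟩ := hcon
  -- the largest first index
  set U : Finset ι := Finset.univ.filter (fun u => ∃ v, a (u, v) ≠ 0) with hU
  have hUn : U.Nonempty := ⟨u0, Finset.mem_filter.2 ⟨Finset.mem_univ _, v0, h1⟩⟩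
  set u := U.max' hUn with hu
  have hu1 := (Finset.mem_filter.1 (U.max'_mem hUn)).2
  rw [← hu] at hu1
  obtain ⟨v1, hv1⟩ := hu1
  set V : Finset ι := Finset.univ.filter (fun v => a (u, v) ≠ 0) with hV
  have hVn : V.Nonempty := ⟨v1, Finset.mem_filter.2 ⟨Finset.mem_univ _, hv1⟩⟩
  set v := V.min' hVn with hv
  have hv2 : a (u, v) ≠ 0 := by
    have := (Finset.mem_filter.1 (V.min'_mem hVn)).2
    rwa [← hv] at this
  have hmax : ∀ w w', u < w → a (w, w') = 0 := by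
    intro w w' hw
    by_contra hne
    have : w ∈ U := Finset.mem_filter.2 ⟨Finset.mem_univ _, w', hne⟩
    exact absurd (U.le_max' w this) (not_le.2 hw)
  have hmin : ∀ w', w' < v → a (u, w') = 0 := by
    intro w' hw
    by_contra hne
    have : w' ∈ V := Finset.mem_filter.2 ⟨Finset.mem_univ _, hne⟩
    exact absurd (V.min'_le w' this) (not_le.2 hw)
  have hz : ∀ w w' : ι, θ (g w)⁻¹ * (Rw θ ρ * Cw θ γ) * θ (g w') =
      Rw θ (ρ ∘ g w) * θ ((g w)⁻¹ * g w') * Cw θ (γ ∘ g w') := by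
    intro w w'
    have e1 : θ (g w) * θ (g w)⁻¹ = 1 := by rw [← map_mul, mul_inv_cancel, map_one]
    have e2 : θ (g w') * θ (g w')⁻¹ = 1 := by rw [← map_mul, mul_inv_cancel, map_one]
    rw [Rw_conj, Cw_conj, map_mul]
    calc θ (g w)⁻¹ * (Rw θ ρ * Cw θ γ) * θ (g w')
        = θ (g w)⁻¹ * Rw θ ρ * 1 * 1 * Cw θ γ * θ (g w') := by
          simp only [mul_assoc, one_mul, mul_one]
      _ = θ (g w)⁻¹ * Rw θ ρ * (θ (g w) * θ (g w)⁻¹) * (θ (g w') * θ (g w')⁻¹) * Cw θ γ *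
          θ (g w') := by rw [e1, e2]
      _ = _ := by simp only [mul_assoc]
  have h2 : Cw θ (γ ∘ g u) * (∑ x : ι × ι, a x • (θ (g x.1)⁻¹ * (Rw θ ρ * Cw θ γ) *
      θ (g x.2))) * Rw θ (ρ ∘ g v) = 0 := by rw [ha, mul_zero, zero_mul]
  rw [Finset.mul_sum, Finset.sum_mul, Finset.sum_eq_single (u, v)] at h2
  · rw [mul_smul_comm, smul_mul_assoc] at h2
    have h3 := (smul_eq_zero.1 h2).resolve_left hv2
    have e1 : θ (g u) * θ (g u)⁻¹ = 1 := by rw [← map_mul, mul_inv_cancel, map_one]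
    have e2 : θ (g v) * θ (g v)⁻¹ = 1 := by rw [← map_mul, mul_inv_cancel, map_one]
    have h4 : Cw θ (γ ∘ g u) * (θ (g u)⁻¹ * (Rw θ ρ * Cw θ γ) * θ (g v)) *
        Rw θ (ρ ∘ g v) = θ (g u)⁻¹ * (Cw θ γ * Rw θ ρ * (Cw θ γ * Rw θ ρ)) * θ (g v) := by
      rw [Rw_conj, Cw_conj]
      calc θ (g u)⁻¹ * Cw θ γ * θ (g u) * (θ (g u)⁻¹ * (Rw θ ρ * Cw θ γ) * θ (g v)) *
            (θ (g v)⁻¹ * Rw θ ρ * θ (g v))
          = θ (g u)⁻¹ * Cw θ γ * (θ (g u) * θ (g u)⁻¹) * (Rw θ ρ * Cw θ γ) *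
            (θ (g v) * θ (g v)⁻¹) * (Rw θ ρ * θ (g v)) := by simp only [mul_assoc]
        _ = _ := by rw [e1, e2]; simp only [mul_assoc, mul_one]
    have h3' : Cw θ (γ ∘ g u) * (θ (g u)⁻¹ * (Rw θ ρ * Cw θ γ) * θ (g v)) *
        Rw θ (ρ ∘ g v) = 0 := h3
    rw [h4] at h3'
    have h5 : Cw θ γ * Rw θ ρ * (Cw θ γ * Rw θ ρ) = 0 := by
      have h6 := congrArg (fun z => θ (g u) * z * θ (g v)⁻¹) h3'
      simp only [mul_zero, zero_mul] at h6
      rw [← h6]
      calc Cw θ γ * Rw θ ρ * (Cw θ γ * Rw θ ρ)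
          = 1 * (Cw θ γ * Rw θ ρ * (Cw θ γ * Rw θ ρ)) * 1 := by rw [one_mul, mul_one]
        _ = (θ (g u) * θ (g u)⁻¹) * (Cw θ γ * Rw θ ρ * (Cw θ γ * Rw θ ρ)) *
            (θ (g v) * θ (g v)⁻¹) := by rw [e1, e2]
        _ = _ := by simp only [mul_assoc]
    exact h0 (RC_zero_of ρ γ h5)
  · rintro ⟨w, w'⟩ _ hne
    simp only
    rw [mul_smul_comm, smul_mul_assoc, hz]
    rcases lt_trichotomy w u with hw | hw | hw
    · have e : Cw θ (γ ∘ g u) * (Rw θ (ρ ∘ g w) * θ ((g w)⁻¹ * g w') * Cw θ (γ ∘ g w')) *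
          Rw θ (ρ ∘ g v) = (Cw θ (γ ∘ g u) * Rw θ (ρ ∘ g w)) * θ ((g w)⁻¹ * g w') *
          Cw θ (γ ∘ g w') * Rw θ (ρ ∘ g v) := by simp only [mul_assoc]
      rw [e, hlt u w hw, zero_mul, zero_mul, zero_mul, smul_zero]
    · subst hw
      rcases lt_trichotomy w' v with hw' | hw' | hw'
      · rw [hmin w' hw', zero_smul]
      · exact absurd (by rw [hw']) hne
      · have e : Cw θ (γ ∘ g u) * (Rw θ (ρ ∘ g u) * θ ((g u)⁻¹ * g w') * Cw θ (γ ∘ g w')) *
          Rw θ (ρ ∘ g v) = Cw θ (γ ∘ g u) * (Rw θ (ρ ∘ g u) * θ ((g u)⁻¹ * g w') *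
          (Cw θ (γ ∘ g w') * Rw θ (ρ ∘ g v))) := by simp only [mul_assoc]
        rw [e, hlt w' v hw', mul_zero, mul_zero, smul_zero]
    · rw [hmax w w' hw, zero_smul]
  · intro h; exact absurd (Finset.mem_univ _) h

end

end Pool.Agent.V8H87.GG
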