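import Pool.Agent.V8H87.GG.Ten
import Pool.Agent.N64.AF.L1

/-!
# The conjecture of Tate and rational equivalence for Kimura finite objects
-/

set_option autoImplicit false
set_option linter.unusedSectionVars false
set_option maxHeartbeats 1000000

open CategoryTheory Limits MonoidalCategory Module Polynomial
open Pool.Agent.Y112.SR Pool.Agent.Y112.KD Pool.Agent.N64.AF Pool.Agent.R905
open Pool.Agent.Y116.MT (tr)
open Pool.Agent.TH829.Kim (InRad Killed isNilpotent_of_inRad)

namespace Pool.Agent.V8H87.GG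

universe v u w

/-- The roots of a polynomial among the powers of `q` can be split off. -/
lemma split_off (q : ℚ) : ∀ (n : ℕ) (Q : ℚ[X]), Q ≠ 0 → Q.natDegree ≤ n →
    ∃ (s : Multiset ℕ) (Q1 : ℚ[X]), Q = (s.map (fun a => X - C (q ^ a))).prod * Q1 ∧
      ∀ a : ℕ, Q1.eval (q ^ a) ≠ 0 := by
  intro n
  induction n with
  | zero =>
    intro Q hQ hd
    refine ⟨0, Q, by simp, fun a ha => hQ ?_⟩
    have h1 := Polynomial.eq_C_of_natDegree_le_zero hd
    rw [h1, eval_C] at ha
    rw [h1, ha, C_0]
  | succ n ih =>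
    intro Q hQ hd
    by_cases h : ∃ a : ℕ, Q.eval (q ^ a) = 0
    · obtain ⟨a, ha⟩ := h
      obtain ⟨Q', hQ'⟩ := (dvd_iff_isRoot (p := Q) (a := q ^ a)).2 ha
      have h1 : Q' ≠ 0 := by
        rintro rfl
        rw [mul_zero] at hQ'
        exact hQ hQ'
      have h2 : Q'.natDegree ≤ n := by
        have h3 := natDegree_mul (X_sub_C_ne_zero (q ^ a)) h1
        rw [← hQ', natDegree_X_sub_C] at h3
        omega
      obtain ⟨s, Q1, h3, h4⟩ := ih Q' h1 h2
      refine ⟨a ::ₘ s, Q1, ?_, h4⟩
      rw [Multiset.map_cons, Multiset.prod_cons, mul_assoc, ← h3, ← hQ']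
    · exact ⟨0, Q, by simp, fun a ha => h ⟨a, ha⟩⟩

section

variable {C : Type u} [Category.{v} C] [Preadditive C] [MonoidalCategory C]
  [MonoidalPreadditive C] [SymmetricCategory C] [RightRigidCategory C]
  [Linear ℚ C] [MonoidalLinear ℚ C]

/-- The morphisms between `𝟙` and `S` are sums of eigenvectors of `φ` whose eigenvalues are powers
of `q`. For `S = h(Y)`, `Y` smooth projective over the field with `q` elements, and the Frobenius
endomorphism `φ` of `Y` this holds, since `φ` acts on the cycles of codimension `i` as `q ^ i`. -/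
def IsWt (q : ℚ) {S : C} (φ : S ⟶ S) : Prop :=
  (∀ f : 𝟙_ C ⟶ S, ∃ (s : Finset ℕ) (g : ℕ → (𝟙_ C ⟶ S)),
      (∀ i, g i ≫ φ = (q ^ i) • g i) ∧ f = ∑ i ∈ s, g i) ∧
    ∀ f : S ⟶ 𝟙_ C, ∃ (s : Finset ℕ) (g : ℕ → (S ⟶ 𝟙_ C)),
      (∀ i, φ ≫ g i = (q ^ i) • g i) ∧ f = ∑ i ∈ s, g i

variable {K : Type w} [Field K]

/-- The strong form of the conjecture of Tate: the sum of the multiplicities of the eigenvalues
`q ^ i`, `i ≥ 0`, of `φ` on the realisation of `S` is the dimension of the space of morphisms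
`𝟙 ⟶ S` modulo numerical equivalence. -/
def StrongTate (R : SuperRealisation C K) (q : ℚ) {S : C} (φ : S ⟶ S) : Prop :=
  finrank K ↥(⨆ i : ℕ, Module.End.maxGenEigenspace (R.H.map φ).hom ((q : K) ^ i)) = numRank ℚ S

/-- A polynomial of an endomorphism, as a morphism. -/
noncomputable def pol {S : C} (φ : S ⟶ S) (P : ℚ[X]) : S ⟶ S :=
  (aeval (en φ) P : End S)

lemma pol_mul {S : C} (φ : S ⟶ S) (P Q : ℚ[X]) : pol φ (P * Q) = pol φ Q ≫ pol φ P := by
  unfold pol
  rw [map_mul, End.mul_def]

lemma pol_add {S : C} (φ : S ⟶ S) (P Q : ℚ[X]) : pol φ (P + Q) = pol φ P + pol φ Q := by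
  unfold pol
  rw [map_add]

lemma pol_one {S : C} (φ : S ⟶ S) : pol φ 1 = 𝟙 S := by
  unfold pol
  rw [map_one]
  rfl

lemma comp_pol {W S : C} (φ : S ⟶ S) {g : W ⟶ S} {c : ℚ} (h : g ≫ φ = c • g) (P : ℚ[X]) :
    g ≫ pol φ P = (P.eval c) • g := by
  induction P using Polynomial.induction_on' with
  | add p q hp hq => rw [pol_add, Preadditive.comp_add, hp, hq, eval_add, add_smul]
  | monomial n a =>
    have h1 : ∀ n : ℕ, g ≫ pol φ (X ^ n) = (c ^ n) • g := by
      intro n
      induction n with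
      | zero => rw [pow_zero, pol_one, Category.comp_id, pow_zero, one_smul]
      | succ n ih =>
        have h2 : pol φ (X : ℚ[X]) = φ := by
          unfold pol
          rw [aeval_X]
          rfl
        rw [pow_succ', pol_mul, ← Category.assoc, ih, h2, Linear.smul_comp, h, smul_smul,
          pow_succ]
    have h3 : pol φ (monomial n a) = a • pol φ (X ^ n) := by
      unfold pol
      rw [← C_mul_X_pow_eq_monomial, map_mul, aeval_C, Algebra.algebraMap_eq_smul_one,
        smul_mul_assoc, one_mul]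
    rw [h3, Linear.comp_smul, h1, eval_monomial, smul_smul]

variable (R : SuperRealisation C K)

/-- The realisation as a homomorphism of rings. -/
noncomputable def rho (S : C) : End S →+* Module.End K (R.H.obj S) where
  toFun f := (R.H.map (f : S ⟶ S)).hom
  map_one' := by
    change (R.H.map (𝟙 S)).hom = 1
    rw [CategoryTheory.Functor.map_id]
    rfl
  map_mul' f g := by
    rw [End.mul_def, Functor.map_comp, ModuleCat.hom_comp]
    rfl
  map_zero' := by
    change (R.H.map (0 : S ⟶ S)).hom = 0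
    rw [Functor.map_zero]
    rfl
  map_add' f g := by
    change (R.H.map ((f : S ⟶ S) + g)).hom = _
    rw [Functor.map_add]
    rfl

lemma rho_pol [Algebra ℚ K] {S : C} (φ : S ⟶ S) (P : ℚ[X]) : (R.H.map (pol φ P)).hom =
    aeval (R.H.map φ).hom (P.map (algebraMap ℚ K)) := by
  have h1 : rho R S (aeval (en φ) P) = aeval (rho R S (en φ)) (P.map (algebraMap ℚ K)) := by
    rw [aeval_def, aeval_def, Polynomial.hom_eval₂, eval₂_map]
    congr 1
    exact Subsingleton.elim _ _
  exact h1

end

section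

variable {C : Type u} [Category.{v} C] [Preadditive C] [MonoidalCategory C]
  [MonoidalPreadditive C] [SymmetricCategory C] [RightRigidCategory C]
  [Linear ℚ C] [MonoidalLinear ℚ C] {K : Type w} [Field K] [Algebra ℚ K]
  {R : SuperRealisation C K}

/-- Dual bases modulo numerical equivalence. -/
lemma dual_bases (hR : IsReal ℚ R) (S : C) : ∃ (f : Fin (numRank ℚ S) → (𝟙_ C ⟶ S))
    (g : Fin (numRank ℚ S) → (S ⟶ 𝟙_ C)), ∀ i j, f i ≫ g j = if i = j then 𝟙 _ else 0 := by
  classical
  unfold numRank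
  obtain ⟨τ, hτ, -⟩ := exists_tau hR (𝟙_ C)
  have hun : ∀ a : 𝟙_ C ⟶ 𝟙_ C, a = τ a • 𝟙 (𝟙_ C) := fun a => by
    rw [← hτ a, tr_unit hR]
  have hfin := finite_num hR (𝟙_ C) S
  let L : (S ⟶ 𝟙_ C) →ₗ[ℚ] Dual ℚ ((𝟙_ C ⟶ S) ⧸ numIdeal ℚ (𝟙_ C) S) :=
    { toFun := fun β => (numIdeal ℚ (𝟙_ C) S).liftQ (τ ∘ₗ Linear.rightComp ℚ (𝟙_ C) β) (by
        intro α hα
        have h1 : α ≫ β = 0 := (numTriv_unit_iff hR α).1 hα β
        change τ (α ≫ β) = 0
        rw [h1, map_zero])
      map_add' := fun β β' => by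
        apply Submodule.linearMap_qext
        ext α
        change τ (α ≫ (β + β')) = τ (α ≫ β) + τ (α ≫ β')
        rw [Preadditive.comp_add, map_add]
      map_smul' := fun c β => by
        apply Submodule.linearMap_qext
        ext α
        change τ (α ≫ (c • β)) = c • τ (α ≫ β)
        rw [Linear.comp_smul, map_smul] }
  have hL : ∀ (α : 𝟙_ C ⟶ S) (β : S ⟶ 𝟙_ C),
      L β ((numIdeal ℚ (𝟙_ C) S).mkQ α) = τ (α ≫ β) := fun _ _ => rfl
  have h1 : (LinearMap.range L).dualCoannihilator = ⊥ := by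
    rw [eq_bot_iff]
    intro x hx
    obtain ⟨α, rfl⟩ := (numIdeal ℚ (𝟙_ C) S).mkQ_surjective x
    rw [Submodule.mem_dualCoannihilator] at hx
    rw [Submodule.mem_bot, Submodule.mkQ_apply, Submodule.Quotient.mk_eq_zero]
    refine (numTriv_unit_iff hR α).2 (fun β => ?_)
    have h2 := hx (L β) ⟨β, rfl⟩
    rw [hL] at h2
    rw [hun (α ≫ β), h2, zero_smul]
  have h2 : LinearMap.range L = ⊤ := by
    have h3 := Subspace.dualCoannihilator_dualAnnihilator_eq (W := LinearMap.range L)
    rw [h1, Submodule.dualAnnihilator_bot] at h3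
    exact h3.symm
  let b := Module.finBasis ℚ ((𝟙_ C ⟶ S) ⧸ numIdeal ℚ (𝟙_ C) S)
  choose f hf using fun i => (numIdeal ℚ (𝟙_ C) S).mkQ_surjective (b i)
  have h3 : ∀ i, ∃ β, L β = b.coord i := fun i => by
    have h4 : b.coord i ∈ LinearMap.range L := by rw [h2]; trivial
    exact h4
  choose g hg using h3
  refine ⟨f, g, fun i j => ?_⟩
  rw [hun (f i ≫ g j), ← hL, hf, hg, Basis.coord_apply, Basis.repr_self, Finsupp.single_apply]
  split_ifs
  · rw [one_smul]
  · rw [zero_smul]

/-- Numerically trivial endomorphisms of Kimura finite objects are nilpotent. -/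
lemma numNil [IsIdempotentComplete C] (hR : IsReal ℚ R) (hU : UnitQ C) {M : C}
    (h : IsKimuraFinite M) (f : End M) (hf : NumTriv (f : M ⟶ M)) : IsNilpotent f := by
  obtain ⟨E, O, i, r, i', r', h1, h3, h5, ⟨n, hn⟩, m, hm⟩ := (isKimuraFinite_iff M).1 h
  have hr : InRad (trq hU M) f := by
    intro γ
    have e1 : tr ((γ : M ⟶ M) ≫ (f : M ⟶ M)) = 0 := by
      rw [tr_comm_zero hR]
      exact hf γ
    have e2 : tr ((γ : M ⟶ M) ≫ (f : M ⟶ M)) = trq hU M (f * γ) • 𝟙 _ := trq_spec hU _
    rw [e1] at e2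
    have e3 : (0 : ℚ) • 𝟙 (𝟙_ C) = trq hU M (f * γ) • 𝟙 _ := by rw [← e2, zero_smul]
    exact (hU.inj e3).symm
  have h6 : 1 - en (r ≫ i) = en (r' ≫ i') := by
    have h7 : (1 : End M) = en (r ≫ i) + en (r' ≫ i') := h5.symm
    rw [h7]
    exact add_sub_cancel_left _ _
  have hk1 := killed hU (η := (-1 : ℚ)) (by norm_num) i r n (asym_mono (by norm_num) E hn)
    (en (r ≫ i)) rfl
  have hk2 := killed hU (η := (1 : ℚ)) (by norm_num) i' r' m (asym_mono (by norm_num) O hm)
    (en (r' ≫ i')) rfl
  rw [← h6] at hk2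
  refine isNilpotent_of_inRad (tr := trq hU M) ?_ ?_ hk1 hk2 hr
  · intro a b
    rw [End.mul_def, End.mul_def]
    exact trq_comm' R hU _ _
  · rw [End.mul_def]
    change (r ≫ i) ≫ r ≫ i = r ≫ i
    rw [Category.assoc, reassoc_of% h1]

/-- The idempotent defined by dual bases. -/
lemma exists_idem (hR : IsReal ℚ R) (S : C) : ∃ e : S ⟶ S, e ≫ e = e ∧
    finrank K (LinearMap.range (R.H.map e).hom) = numRank ℚ S ∧
    (∀ f : 𝟙_ C ⟶ S, NumTriv f → f ≫ e = 0) ∧
    (∃ (f : Fin (numRank ℚ S) → (𝟙_ C ⟶ S)) (g : Fin (numRank ℚ S) → (S ⟶ 𝟙_ C)),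
      e = ∑ i, g i ≫ f i) := by
  classical
  obtain ⟨f, g, hfg⟩ := dual_bases hR S
  have hc := R_charZero R
  have he : (∑ i, g i ≫ f i) ≫ (∑ i, g i ≫ f i) = ∑ i, g i ≫ f i := by
    rw [Preadditive.sum_comp]
    refine Finset.sum_congr rfl (fun i _ => ?_)
    rw [Preadditive.comp_sum, Finset.sum_eq_single i]
    · rw [Category.assoc, ← Category.assoc (f i), hfg i i, if_pos rfl, Category.id_comp]
    · intro j _ hj
      rw [Category.assoc, ← Category.assoc (f i), hfg i j, if_neg hj.symm, Limits.zero_comp,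
        Limits.comp_zero]
    · intro h
      exact absurd (Finset.mem_univ i) h
  refine ⟨∑ i, g i ≫ f i, he, ?_, ?_, f, g, rfl⟩
  · have h1 : IsIdempotentElem (R.H.map (∑ i, g i ≫ f i)).hom := by
      change _ ∘ₗ _ = _
      rw [← ModuleCat.hom_comp, ← Functor.map_comp, he]
    have h2 := (LinearMap.IsIdempotentElem.isProj_range _ h1).trace
    have h3 : LinearMap.trace K _ (R.H.map (∑ i, g i ≫ f i)).hom = numRank ℚ S := by
      rw [Functor.map_sum, ModuleCat.hom_sum, map_sum]
      have h4 : ∀ i, LinearMap.trace K _ (R.H.map (g i ≫ f i)).hom = 1 := by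
        intro i
        rw [Functor.map_comp, ModuleCat.hom_comp, LinearMap.trace_comp_comm', ← ModuleCat.hom_comp,
          ← Functor.map_comp, hfg i i, if_pos rfl, CategoryTheory.Functor.map_id,
          ModuleCat.hom_id, LinearMap.trace_id]
        have h5 : finrank K (R.H.obj (𝟙_ C)) = 1 := bt_unit R
        rw [h5]
        simp
      simp only [h4, Finset.sum_const, Finset.card_univ, Fintype.card_fin, nsmul_eq_mul, mul_one]
    rw [h3] at h2
    exact_mod_cast h2.symm
  · intro a ha
    rw [Preadditive.comp_sum]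
    refine Finset.sum_eq_zero (fun i _ => ?_)
    rw [← Category.assoc, (numTriv_unit_iff hR a).1 ha, Limits.zero_comp]

/-- Endomorphisms of Kimura finite objects are algebraic. -/
lemma exists_pol [IsIdempotentComplete C] (hR : IsReal ℚ R) (hU : UnitQ C) {S : C}
    (h : IsKimuraFinite S) (φ : S ⟶ S) : ∃ Q : ℚ[X], Q ≠ 0 ∧ pol φ Q = 0 := by
  have hfin := finite_num hR S S
  have h1 : ¬ Function.Injective ((numIdeal ℚ S S).mkQ ∘ₗ (aeval (en φ)).toLinearMap) := by
    intro hinj
    have h2 := LinearMap.finrank_le_finrank_of_injective hinj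
    have h3 : Module.Finite ℚ ℚ[X] := Module.Finite.of_injective _ hinj
    exact Polynomial.not_finite h3
  rw [← LinearMap.ker_eq_bot, Submodule.eq_bot_iff] at h1
  obtain ⟨Q, hQ, hQ0⟩ : ∃ Q, Q ∈ LinearMap.ker
      ((numIdeal ℚ S S).mkQ ∘ₗ (aeval (en φ)).toLinearMap) ∧ Q ≠ 0 := by
    by_contra hcon
    exact h1 (fun x hx => by
      by_contra hx0
      exact hcon ⟨x, hx, hx0⟩)
  have h2 : NumTriv (pol φ Q) := by
    have h3 : (numIdeal ℚ S S).mkQ (pol φ Q) = 0 := hQ
    rw [Submodule.mkQ_apply, Submodule.Quotient.mk_eq_zero] at h3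
    exact h3
  obtain ⟨N, hN⟩ := numNil hR hU h (pol φ Q) h2
  refine ⟨Q ^ N, pow_ne_zero _ hQ0, ?_⟩
  unfold pol at hN ⊢
  rw [map_pow]
  exact hN

end

section

variable {C : Type u} [Category.{v} C] [Preadditive C] [MonoidalCategory C]
  [MonoidalPreadditive C] [SymmetricCategory C] [RightRigidCategory C]
  [Linear ℚ C] [MonoidalLinear ℚ C] {K : Type w} [Field K] [IsAlgClosed K] [Algebra ℚ K]
  {R : SuperRealisation C K}

lemma comm_pol {V : Type w} [AddCommGroup V] [Module K V] (F : Module.End K V) (P : K[X]) :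
    Commute F (aeval F P) := by
  have h1 := (Commute.all (X : K[X]) P).map (aeval F)
  rwa [aeval_X] at h1

/-- **Kahn's theorem**: for a Kimura finite object the strong form of the conjecture of Tate implies
that numerically trivial morphisms from the unit object are zero. -/
theorem kahn [IsIdempotentComplete C] (hR : IsReal ℚ R) (hU : UnitQ C) {S : C}
    (h : IsKimuraFinite S) {q : ℚ} {φ : S ⟶ S} (hφ : IsWt q φ) (hT : StrongTate R q φ)
    (f : 𝟙_ C ⟶ S) (hf : NumTriv f) : f = 0 := by
  classical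
  have hc := R_charZero R
  obtain ⟨Q, hQ0, hQ⟩ := exists_pol hR hU h φ
  obtain ⟨s, Q1, hQ1, hev⟩ := split_off q _ Q hQ0 le_rfl
  obtain ⟨e, he, hrk, hkill, f', g', hfg⟩ := exists_idem hR S
  set F : Module.End K (R.H.obj S) := (R.H.map φ).hom with hF
  set V : Submodule K (R.H.obj S) := ⨆ i : ℕ, Module.End.maxGenEigenspace F ((q : K) ^ i)
    with hV
  have hfin := R.finite S
  -- the range of the idempotent
  have hrange : LinearMap.range (R.H.map e).hom = V := by
    refine Submodule.eq_of_le_of_finrank_eq ?_ (by rw [hrk]; exact hT.symm)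
    rintro _ ⟨v, rfl⟩
    have h1 : ∀ (a : 𝟙_ C ⟶ S) (x : R.H.obj (𝟙_ C)), (R.H.map a).hom x ∈ V := by
      intro a x
      obtain ⟨t, g, hg, rfl⟩ := hφ.1 a
      rw [Functor.map_sum, ModuleCat.hom_sum, LinearMap.sum_apply]
      refine Submodule.sum_mem _ (fun i _ => ?_)
      refine Submodule.mem_iSup_of_mem i ?_
      have h2 : F ((R.H.map (g i)).hom x) = ((q : K) ^ i) • (R.H.map (g i)).hom x := by
        have h3 := congrArg (fun z => (R.H.map z).hom x) (hg i)
        simp only [Functor.map_comp, ModuleCat.hom_comp, LinearMap.comp_apply] at h3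
        rw [R_smul] at h3
        rw [hF, h3]
        push_cast
        rfl
      exact Module.End.mem_maxGenEigenspace _ _ _ |>.2 ⟨1, by
        rw [pow_one, LinearMap.sub_apply, h2]
        simp⟩
    rw [hfg, Functor.map_sum, ModuleCat.hom_sum, LinearMap.sum_apply]
    refine Submodule.sum_mem _ (fun i _ => ?_)
    rw [Functor.map_comp, ModuleCat.hom_comp, LinearMap.comp_apply]
    exact h1 _ _
  have hfix : ∀ w ∈ V, (R.H.map e).hom w = w := by
    intro w hw
    rw [← hrange] at hw
    obtain ⟨u, rfl⟩ := hw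
    rw [← LinearMap.comp_apply, ← ModuleCat.hom_comp, ← Functor.map_comp, he]
  -- the main endomorphism
  let y : S ⟶ S := pol φ Q1 ≫ (𝟙 S - e)
  have hy : R.H.map y = 0 := by
    apply ModuleCat.hom_ext
    have h1 : (⊤ : Submodule K (R.H.obj S)) ≤ LinearMap.ker (R.H.map y).hom := by
      rw [← Module.End.iSup_maxGenEigenspace_eq_top F]
      refine iSup_le (fun μ v hv => ?_)
      rw [LinearMap.mem_ker]
      have e1 : (R.H.map y).hom v = (R.H.map (𝟙 S - e)).hom ((R.H.map (pol φ Q1)).hom v) := by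
        rw [← LinearMap.comp_apply, ← ModuleCat.hom_comp, ← Functor.map_comp]
      have hinv : ∀ P : K[X], ∀ w ∈ Module.End.maxGenEigenspace F μ,
          aeval F P w ∈ Module.End.maxGenEigenspace F μ := by
        intro P w hw
        exact Module.End.mapsTo_maxGenEigenspace_of_comm (comm_pol F P) μ hw
      rw [e1, rho_pol]
      by_cases hμ : ∃ a : ℕ, μ = (q : K) ^ a
      · obtain ⟨a, rfl⟩ := hμ
        have h2 := hfix _ (Submodule.mem_iSup_of_mem a (hinv (Q1.map (algebraMap ℚ K)) v hv))
        rw [Functor.map_sub, CategoryTheory.Functor.map_id]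
        change aeval F (Q1.map (algebraMap ℚ K)) v - (R.H.map e).hom
          (aeval F (Q1.map (algebraMap ℚ K)) v) = 0
        rw [h2, sub_self]
      · have h2 : aeval F ((s.map (fun a => X - Polynomial.C (q ^ a))).prod.map (algebraMap ℚ K))
            (aeval F (Q1.map (algebraMap ℚ K)) v) = 0 := by
          rw [← Module.End.mul_apply, ← map_mul, ← Polynomial.map_mul, ← hQ1, ← rho_pol, hQ,
            Functor.map_zero]
          rfl
        have h3 : ∀ (s : Multiset ℕ) (w : R.H.obj S), w ∈ Module.End.maxGenEigenspace F μ →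
            aeval F ((s.map (fun a => X - Polynomial.C (q ^ a))).prod.map (algebraMap ℚ K)) w = 0 →
            w = 0 := by
          intro s
          induction s using Multiset.induction_on with
          | empty =>
            intro w _ hw
            simpa using hw
          | cons a s ih =>
            intro w hw hw0
            rw [Multiset.map_cons, Multiset.prod_cons, mul_comm, Polynomial.map_mul, map_mul,
              Module.End.mul_apply] at hw0
            have h4 : aeval F ((X - Polynomial.C (q ^ a)).map (algebraMap ℚ K)) w = 0 :=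
              ih _ (hinv _ w hw) hw0
            have h5 : F w = ((q : K) ^ a) • w := by
              have h6 : aeval F ((X - Polynomial.C (q ^ a)).map (algebraMap ℚ K)) w =
                  F w - ((q : K) ^ a) • w := by
                simp only [Polynomial.map_sub, map_X, map_C, map_sub, aeval_X, aeval_C,
                  LinearMap.sub_apply, Module.algebraMap_end_apply]
                rw [map_pow, eq_ratCast]
              rw [h6] at h4
              exact sub_eq_zero.1 h4
            have h6 : w ∈ Module.End.maxGenEigenspace F ((q : K) ^ a) :=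
              Module.End.mem_maxGenEigenspace _ _ _ |>.2 ⟨1, by
                rw [pow_one, LinearMap.sub_apply, h5]
                simp⟩
            have h7 := (Module.End.independent_maxGenEigenspace F).pairwiseDisjoint
              (fun h8 => hμ ⟨a, h8⟩)
            exact Submodule.disjoint_def.1 h7 w hw h6
        rw [h3 s _ (hinv _ v hv) h2, map_zero]
    ext v
    exact h1 (Submodule.mem_top (x := v))
  obtain ⟨N, hN⟩ := (h.homNil R hU) (en y) hy
  -- the action on numerically trivial morphisms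
  have hstep : ∀ (k : ℕ) (a : 𝟙_ C ⟶ S), NumTriv a →
      a ≫ ((en y ^ k : End S) : S ⟶ S) = a ≫ pol φ (Q1 ^ k) := by
    intro k
    induction k with
    | zero =>
      intro a _
      rw [pow_zero, pow_zero, pol_one]
      rfl
    | succ k ih =>
      intro a ha
      have ha' : NumTriv (a ≫ pol φ Q1) := by
        have := NumTriv.comp hR ha (𝟙 _) (pol φ Q1)
        rwa [Category.id_comp] at this
      have h1 : a ≫ y = a ≫ pol φ Q1 := by
        change a ≫ pol φ Q1 ≫ (𝟙 S - e) = _
        rw [← Category.assoc, Preadditive.comp_sub, Category.comp_id, hkill _ ha', sub_zero]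
      have h2 : ((en y ^ (k + 1) : End S) : S ⟶ S) = y ≫ ((en y ^ k : End S) : S ⟶ S) := by
        rw [pow_succ, End.mul_def]
        rfl
      rw [h2, ← Category.assoc, h1, ih _ ha', pow_succ, pol_mul, Category.assoc]
  have h1 := hstep N f hf
  rw [hN] at h1
  have h2 : f ≫ pol φ (Q1 ^ N) = 0 := by
    rw [← h1]
    exact comp_zero
  obtain ⟨t, g, hg, hfg'⟩ := hφ.1 f
  have h3 : f ≫ pol φ (∏ i ∈ t, (X - Polynomial.C (q ^ i))) = 0 := by
    rw [hfg', Preadditive.sum_comp]
    refine Finset.sum_eq_zero (fun i hi => ?_)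
    rw [comp_pol φ (hg i), eval_prod, Finset.prod_eq_zero hi (by simp), zero_smul]
  have h4 : IsCoprime (Q1 ^ N) (∏ i ∈ t, (X - Polynomial.C (q ^ i))) := by
    refine IsCoprime.pow_left (IsCoprime.prod_right (fun i _ => ?_))
    rw [isCoprime_comm]
    refine ((Polynomial.irreducible_X_sub_C (q ^ i)).coprime_iff_not_dvd).2 (fun h5 => ?_)
    exact hev i (dvd_iff_isRoot.1 h5)
  obtain ⟨a, b, hab⟩ := h4
  have h5 : f ≫ pol φ (a * Q1 ^ N + b * ∏ i ∈ t, (X - Polynomial.C (q ^ i))) = 0 := by
    rw [pol_add, pol_mul, pol_mul, Preadditive.comp_add, ← Category.assoc, ← Category.assoc, h2,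
      h3, Limits.zero_comp, Limits.zero_comp, add_zero]
  rw [hab, pol_one, Category.comp_id] at h5
  exact h5

end

end Pool.Agent.V8H87.GG
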