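import Pool.Agent.V8H87.GG.Ind
import Pool.Agent.V8H87.GG.Rect

/-!
# The number of standard fillings bounds the dimension
-/

set_option autoImplicit false
set_option linter.unusedSectionVars false

open Equiv Equiv.Perm

namespace Pool.Agent.V8H87.GG

/-- A number which encodes the rows of the boxes. -/
def key (M : ℕ) : List (ℕ × ℕ) → ℕ
  | [] => 0
  | b :: B => key M B * M + b.1

lemma key_lt_cases {M k k' r r' : ℕ} (hr' : r' < M) (h : k' * M + r' < k * M + r) (hr : r < M) :
    k' < k ∨ (k' = k ∧ r' < r) := by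
  rcases lt_trichotomy k' k with h1 | h1 | h1
  · exact Or.inl h1
  · subst h1; exact Or.inr ⟨rfl, by omega⟩
  · exfalso
    have : (k + 1) * M ≤ k' * M := Nat.mul_le_mul_right M h1
    have h2 : (k + 1) * M = k * M + M := by ring
    omega

lemma key_inj {M : ℕ} : ∀ {B B' : List (ℕ × ℕ)}, IsY B → IsY B' → B.length = B'.length →
    (∀ b ∈ B, b.1 < M) → (∀ b ∈ B', b.1 < M) → key M B = key M B' → B = B'
  | [], [], _, _, _, _, _, _ => rfl
  | [], b' :: B', _, _, h, _, _, _ => by simp at h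
  | b :: B, [], _, _, h, _, _, _ => by simp at h
  | b :: B, b' :: B', h1, h2, h3, h4, h5, h6 => by
    have hb : b.1 < M := h4 b List.mem_cons_self
    have hb' : b'.1 < M := h5 b' List.mem_cons_self
    have h7 : key M B * M + b.1 = key M B' * M + b'.1 := h6
    have h8 : key M B = key M B' ∧ b.1 = b'.1 := by
      have hM : 0 < M := by omega
      have e1 := congrArg (· / M) h7
      have e2 := congrArg (· % M) h7
      simp only [Nat.mul_comm _ M, Nat.mul_add_div hM, Nat.div_eq_of_lt hb, Nat.div_eq_of_lt hb',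
        add_zero, Nat.mul_add_mod, Nat.mod_eq_of_lt hb, Nat.mod_eq_of_lt hb'] at e1 e2
      exact ⟨e1, e2⟩
    have h9 := key_inj h1.1 h2.1 (by simpa using h3) (fun c hc => h4 c (List.mem_cons_of_mem _ hc))
      (fun c hc => h5 c (List.mem_cons_of_mem _ hc)) h8.1
    subst h9
    have h10 : b.2 = b'.2 := by
      rcases lt_trichotomy b.2 b'.2 with h | h | h
      · have := h2.2.2.2 b.2 h
        rw [← h8.2] at this
        exact absurd this h1.2.1
      · exact h
      · have := h1.2.2.2 b'.2 h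
        rw [h8.2] at this
        exact absurd this h2.2.1
    rw [Prod.ext h8.2 h10]

lemma key_lt {M : ℕ} : ∀ {B B' : List (ℕ × ℕ)} {n : ℕ}, IsY B → IsY B' → B.length = n →
    B'.length = n → (∀ b ∈ B, b.1 < M) → (∀ b ∈ B', b.1 < M) → key M B' < key M B →
    ∃ p q : Fin n, p ≠ q ∧ (fn B n p).2 = (fn B n q).2 ∧ (fn B' n p).1 = (fn B' n q).1
  | [], _, _, _, _, _, _, _, _, h => by simp [key] at h
  | b :: B, _, 0, _, _, h, _, _, _, _ => by simp at h
  | b :: B, [], n + 1, _, _, _, h, _, _, _ => by simp at h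
  | b :: B, b' :: B', n + 1, h1, h2, h3, h3', h4, h5, h6 => by
    have hb : b.1 < M := h4 b List.mem_cons_self
    have hb' : b'.1 < M := h5 b' List.mem_cons_self
    have hl : B.length = n := by simpa using h3
    have hl' : B'.length = n := by simpa using h3'
    rcases key_lt_cases hb' h6 hb with h7 | ⟨h7, h8⟩
    · obtain ⟨p, q, hpq, e1, e2⟩ := key_lt h1.1 h2.1 hl hl'
        (fun c hc => h4 c (List.mem_cons_of_mem _ hc))
        (fun c hc => h5 c (List.mem_cons_of_mem _ hc)) h7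
      refine ⟨p.succ, q.succ, fun h => hpq (Fin.succ_injective _ h), ?_, ?_⟩
      · rw [fn_succ_apply, fn_succ_apply, e1]
      · rw [fn_succ_apply, fn_succ_apply, e2]
    · have h9 := key_inj h2.1 h1.1 (by rw [hl, hl'])
        (fun c hc => h5 c (List.mem_cons_of_mem _ hc))
        (fun c hc => h4 c (List.mem_cons_of_mem _ hc)) h7
      subst h9
      obtain ⟨k, hk⟩ := exists_fn hl (h1.2.2.1 b'.1 h8)
      refine ⟨0, k.succ, (Fin.succ_ne_zero k).symm, ?_, ?_⟩
      · rw [fn_zero, fn_succ_apply, hk]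
      · rw [fn_zero, fn_succ_apply, hk]

section

variable {n : ℕ} {B : Type*} [Ring B] [Algebra ℚ B] {θ : Perm (Fin n) →* B}

lemma SP.mem_span {a b : B} (h : SP θ a b) : a ∈ Submodule.span ℚ (Set.range θ) := by
  obtain ⟨x, rfl, -⟩ := h
  exact Submodule.sum_mem _ (fun g _ => Submodule.smul_mem _ _ (Submodule.subset_span ⟨g, rfl⟩))

/-- The square of the number of standard fillings is a lower bound of the dimension of the span of
the permutations. -/
theorem card_le (w0 : List (ℕ × ℕ)) (hw0 : IsY w0) (hn0 : w0.length = n)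
    (W : Finset (List (ℕ × ℕ))) (hW : ∀ w ∈ W, IsY w ∧ w.length = n ∧ ∀ b, b ∈ w ↔ b ∈ w0)
    (h0 : Rw θ (fun i => (fn w0 n i).1) * Cw θ (fun i => (fn w0 n i).2) ≠ 0) :
    W.card ^ 2 ≤ Module.finrank ℚ (Submodule.span ℚ (Set.range θ)) := by
  classical
  obtain ⟨M, hM⟩ : ∃ M, ∀ b ∈ w0, b.1 < M := by
    refine ⟨(w0.map Prod.fst).sum + 1, fun b hb => ?_⟩
    have := List.single_le_sum (fun x _ => Nat.zero_le x) b.1 (List.mem_map.2 ⟨b, hb, rfl⟩)
    omega
  have hinj : Function.Injective (fun w : W => key M w.1) := by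
    intro w w' h
    obtain ⟨h1, h2, h3⟩ := hW w.1 w.2
    obtain ⟨h1', h2', h3'⟩ := hW w'.1 w'.2
    exact Subtype.ext (key_inj h1 h1' (h2.trans h2'.symm) (fun b hb => hM b ((h3 b).1 hb))
      (fun b hb => hM b ((h3' b).1 hb)) h)
  letI : LinearOrder W := LinearOrder.lift' (fun w : W => key M w.1) hinj
  have hg : ∀ w : W, ∃ g : Perm (Fin n), fn w.1 n = fn w0 n ∘ g := by
    intro w
    obtain ⟨h1, h2, h3⟩ := hW w.1 w.2
    exact exists_perm_fn h2 hn0 h1.nodup hw0.nodup h3
  choose g hg using hg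
  have hli := indep (θ := θ) (fun i => (fn w0 n i).1) (fun i => (fn w0 n i).2) g (by
    intro u v huv
    obtain ⟨h1, h2, h3⟩ := hW u.1 u.2
    obtain ⟨h1', h2', h3'⟩ := hW v.1 v.2
    have h4 : key M v.1 < key M u.1 := huv
    obtain ⟨p, q, hpq, e1, e2⟩ := key_lt h1 h1' h2 h2' (fun b hb => hM b ((h3 b).1 hb))
      (fun b hb => hM b ((h3' b).1 hb)) h4
    have e3 : ((fun i => (fn w0 n i).2) ∘ g u) = fun i => (fn u.1 n i).2 := by
      rw [hg u]; rfl
    have e4 : ((fun i => (fn w0 n i).1) ∘ g v) = fun i => (fn v.1 n i).1 := by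
      rw [hg v]; rfl
    rw [e3, e4]
    exact Cw_Rw_zero hpq e2 e1) h0
  set S := Submodule.span ℚ (Set.range θ) with hS
  have hmem : ∀ x : W × W, θ (g x.1)⁻¹ * (Rw θ (fun i => (fn w0 n i).1) *
      Cw θ (fun i => (fn w0 n i).2)) * θ (g x.2) ∈ S := by
    intro x
    have s1 : SP θ (θ (g x.1)⁻¹) (θ (g x.1)⁻¹⁻¹) := by
      simpa using SP.of (θ := θ) (g x.1)⁻¹ 1
    have s2 : SP θ (θ (g x.2)) (θ (g x.2)⁻¹) := by
      simpa using SP.of (θ := θ) (g x.2) 1
    exact ((s1.mul ((SP_Rw _).mul (SP_Cw _))).mul s2).mem_span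
  have hfin : Module.Finite ℚ S := FiniteDimensional.span_of_finite ℚ (Set.finite_range θ)
  have hli2 : LinearIndependent ℚ (fun x : W × W => (⟨_, hmem x⟩ : S)) :=
    LinearIndependent.of_comp S.subtype hli
  have h5 := hli2.fintype_card_le_finrank
  rw [Fintype.card_prod, Fintype.card_coe, ← pow_two] at h5
  exact h5

end

end Pool.Agent.V8H87.GG
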