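import Pool.Agent.V8H87.GG.Cat
import Pool.Agent.Y112.SC.Rat
import Pool.Agent.R905.Defs

/-!
# Kimura finite-dimensionality from the vanishing of a rectangle
-/

set_option autoImplicit false
set_option linter.unusedSectionVars false

open CategoryTheory Limits MonoidalCategory Module Equiv
open Pool.Agent.Y112.SR Pool.Agent.Y112.KD Pool.Agent.N64.AF Pool.Agent.R905
open Pool.Agent.Y116.MT (tr)

namespace Pool.Agent.V8H87.GG

universe v u w

/-- The sign as a homomorphism. -/
def sgH (n : ℕ) : Perm (Fin n) →* ℚ where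
  toFun := sg
  map_one' := sg_one
  map_mul' := sg_mul

section

variable {C : Type u} [Category.{v} C] [MonoidalCategory C] [SymmetricCategory C]
  [Preadditive C] [Linear ℚ C] [MonoidalPreadditive C] [MonoidalLinear ℚ C]
  [RightRigidCategory C] {K : Type w} [Field K] (R : SuperRealisation C K) (hU : UnitQ C)

/-- An element of the endomorphism algebra as a morphism. -/
abbrev hm {X : C} (f : End X) : X ⟶ X := f

/-- The action of the permutations on the tensor powers. -/
noncomputable def pm (M : C) (n : ℕ) : Perm (Fin n) →* End (tp M n) := (tower R hU M).th n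

lemma isSwap_adj (M : C) : ∀ {n : ℕ} (i : Fin n),
    IsSwap M (n + 1) (pm R hU M (n + 1) (swap i.castSucc i.succ))
  | 0, i => i.elim0
  | n + 1, i => by
    refine Fin.cases ?_ (fun k => ?_) i
    · have h1 : pm R hU M (n + 2) (swap (0 : Fin (n + 1)).castSucc (0 : Fin (n + 1)).succ) =
          sw (tp M n) M := (tower R hU M).th_swap_one n
      rw [h1]
      exact IsSwap.last n
    · have h1 : swap k.succ.castSucc k.succ.succ = ex (swap k.castSucc k.succ) := by
        rw [ex_swap]; rfl
      have h2 : pm R hU M (n + 2) (ex (swap k.castSucc k.succ)) =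
          ((pm R hU M (n + 1) (swap k.castSucc k.succ) : tp M (n + 1) ⟶ tp M (n + 1)) ▷ M) :=
        (tower R hU M).th_ex _
      rw [h1, h2]
      exact IsSwap.lift _ _ (isSwap_adj M k)

/-- Permutations act by a character on (anti)symmetric morphisms. -/
lemma pm_comp {M Z : C} {η : ℚ} : ∀ {n : ℕ} (χ : Perm (Fin n) →* ℚ)
    (_ : ∀ a b : Fin n, a ≠ b → χ (swap a b) = η) (h : tp M n ⟶ Z)
    (_ : ∀ s, IsSwap M n s → s ≫ h = η • h) (σ : Perm (Fin n)),
    (pm R hU M n σ : tp M n ⟶ tp M n) ≫ h = χ σ • h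
  | 0, χ, _, h, _, σ => by
    have h1 : σ = 1 := Subsingleton.elim _ _
    rw [h1, map_one, map_one, one_smul]
    exact Category.id_comp h
  | n + 1, χ, hχ, h, hh, σ => by
    have hmem : σ ∈ Submonoid.closure (Set.range fun i : Fin n => swap i.castSucc i.succ) := by
      rw [Equiv.Perm.mclosure_swap_castSucc_succ]
      trivial
    induction hmem using Submonoid.closure_induction with
    | mem x hx =>
      obtain ⟨i, rfl⟩ := hx
      simp only
      rw [hh _ (isSwap_adj R hU M i), hχ _ _ (Fin.castSucc_lt_succ).ne]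
    | one =>
      rw [map_one, map_one, one_smul]
      exact Category.id_comp h
    | mul x y _ _ hx hy =>
      have e1 : (pm R hU M (n + 1) (x * y) : tp M (n + 1) ⟶ tp M (n + 1)) =
          (pm R hU M (n + 1) y : tp M (n + 1) ⟶ tp M (n + 1)) ≫ pm R hU M (n + 1) x := by
        rw [map_mul]; rfl
      rw [e1, Category.assoc, hx, Linear.comp_smul, hy, map_mul, smul_smul]

lemma tpm_eq_H (M : C) (e : End M) (n : ℕ) :
    tpm (e : M ⟶ M) n = (tower R hU M).H n (fun _ => e) := by
  induction n with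
  | zero => rfl
  | succ n ih =>
    have h1 : (tower R hU M).H (n + 1) (fun _ => e) =
      ((tp M n ◁ (e : M ⟶ M)) ≫
        (((tower R hU M).H n (fun _ => e) : tp M n ⟶ tp M n) ▷ M) : tp M (n + 1) ⟶ _) := rfl
    rw [h1, ← ih, ← tensorHom_def']
    rfl

lemma powerVanishes_neg {M : C} {e : End M} {n : ℕ}
    (h : Cw ((tower R hU M).th n) (fun _ => ()) * (tower R hU M).H n (fun _ => e) = 0) :
    PowerVanishes (-1) (e : M ⟶ M) n := by
  classical
  intro Z g hg
  have h1 : tpm (e : M ⟶ M) n ≫ hm (Cw ((tower R hU M).th n) (fun _ => ())) = 0 := by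
    rw [tpm_eq_H R hU]
    exact h
  have h2 : hm (Cw ((tower R hU M).th n) (fun _ => ())) ≫ g =
      (n.factorial : ℚ) • g := by
    have h3 : hm (Cw ((tower R hU M).th n) (fun _ => ())) =
        ∑ σ : Perm (Fin n), (sg σ • (pm R hU M n σ : tp M n ⟶ tp M n)) := by
      unfold hm Cw
      refine Finset.sum_congr rfl (fun σ _ => ?_)
      rw [if_pos (show Fx (fun _ : Fin n => ()) σ from fun _ => rfl)]
      rfl
    rw [h3, Preadditive.sum_comp]
    have h4 : ∀ σ : Perm (Fin n), (sg σ • (pm R hU M n σ : tp M n ⟶ tp M n)) ≫ g = g := by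
      intro σ
      rw [Linear.smul_comp, pm_comp R hU (sgH n) (fun a b hab => sg_swap hab) g hg σ, smul_smul]
      change (sg σ * sg σ) • g = g
      rw [sg_sq, one_smul]
    simp only [h4, Finset.sum_const, Finset.card_univ, Fintype.card_perm, Fintype.card_fin]
    rw [Nat.cast_smul_eq_nsmul]
  have h5 : (n.factorial : ℚ) • (tpm (e : M ⟶ M) n ≫ g) = 0 := by
    rw [← Linear.comp_smul, ← h2, ← Category.assoc, h1, zero_comp]
  have h6 : (n.factorial : ℚ) ≠ 0 := by exact_mod_cast n.factorial_ne_zero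
  exact (smul_eq_zero.1 h5).resolve_left h6

lemma powerVanishes_pos {M : C} {e : End M} {n : ℕ}
    (h : Rw ((tower R hU M).th n) (fun _ => ()) * (tower R hU M).H n (fun _ => e) = 0) :
    PowerVanishes 1 (e : M ⟶ M) n := by
  classical
  intro Z g hg
  have h1 : tpm (e : M ⟶ M) n ≫ hm (Rw ((tower R hU M).th n) (fun _ => ())) = 0 := by
    rw [tpm_eq_H R hU]
    exact h
  have h2 : hm (Rw ((tower R hU M).th n) (fun _ => ())) ≫ g =
      (n.factorial : ℚ) • g := by
    have h3 : hm (Rw ((tower R hU M).th n) (fun _ => ())) =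
        ∑ σ : Perm (Fin n), (pm R hU M n σ : tp M n ⟶ tp M n) := by
      unfold hm Rw
      refine Finset.sum_congr rfl (fun σ _ => ?_)
      rw [if_pos (show Fx (fun _ : Fin n => ()) σ from fun _ => rfl)]
      rfl
    rw [h3, Preadditive.sum_comp]
    have h4 : ∀ σ : Perm (Fin n), (pm R hU M n σ : tp M n ⟶ tp M n) ≫ g = g := by
      intro σ
      rw [pm_comp R hU (1 : Perm (Fin n) →* ℚ) (fun a b _ => rfl) g hg σ]
      exact one_smul ℚ g
    simp only [h4, Finset.sum_const, Finset.card_univ, Fintype.card_perm, Fintype.card_fin]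
    rw [Nat.cast_smul_eq_nsmul]
  have h5 : (n.factorial : ℚ) • (tpm (e : M ⟶ M) n ≫ g) = 0 := by
    rw [← Linear.comp_smul, ← h2, ← Category.assoc, h1, zero_comp]
  have h6 : (n.factorial : ℚ) ≠ 0 := by exact_mod_cast n.factorial_ne_zero
  exact (smul_eq_zero.1 h5).resolve_left h6

/-- The dimensions of the two parts and the numerical idempotent. -/
lemma exists_num {M : C} (hM : R.CPlus M) : ∃ (q : End M) (m n' : ℕ),
    (∀ z, trq hU M ((q * q - q) * z) = 0) ∧ trq hU M q = m ∧ trq hU M (1 - q) = -n' ∧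
    bt R M = m + n' := by
  have hc := R_charZero R
  have h2 : (2 : K) ≠ 0 := two_ne_zero
  obtain ⟨f, hf⟩ := hM
  obtain ⟨m, n', h3, h4, -, -⟩ := Pool.Agent.Y112.SC.exists_pq R hc M
  have hf' : R.H.map f = (2 : K)⁻¹ • (𝟙 _ + R.par M) := by
    rw [← hf, smul_smul, inv_mul_cancel₀ h2, one_smul]
  have hbt : bt R M = m + n' := by
    have h5 : ((finrank K (R.H.obj M) : ℕ) : K) = ((m + n' : ℕ) : K) := by
      have h6 := R.finite M
      rw [ModuleCat.hom_id, LinearMap.trace_id] at h3
      rw [h3]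
      push_cast
      rfl
    exact_mod_cast h5
  have htr : trq hU M (f : End M) = m := by
    have h5 := real_tr R hU f
    have h6 : R.H.map f ≫ R.par M = (2 : K)⁻¹ • (R.par M + 𝟙 _) := by
      rw [hf', Linear.smul_comp, Preadditive.add_comp, Category.id_comp, R.par_sq]
    rw [h6, ModuleCat.hom_smul, ModuleCat.hom_add, map_smul, map_add, h3, h4] at h5
    have h7 : ((trq hU M (f : End M) : ℚ) : K) = ((m : ℚ) : K) := by
      rw [h5, smul_eq_mul]
      push_cast
      field_simp
      ring
    exact_mod_cast h7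
  have htr1 : trq hU M (1 : End M) = m - n' := by
    have h5 := real_tr R hU (𝟙 M)
    rw [CategoryTheory.Functor.map_id, Category.id_comp, h4] at h5
    have h7 : ((trq hU M (1 : End M) : ℚ) : K) = (((m : ℚ) - n' : ℚ) : K) := by
      refine h5.trans ?_
      push_cast
      rfl
    exact_mod_cast h7
  refine ⟨f, m, n', ?_, htr, ?_, hbt⟩
  · intro z
    have h5 := real_tr R hU ((z : M ⟶ M) ≫ (f ≫ f - f))
    have h6 : R.H.map ((z : M ⟶ M) ≫ (f ≫ f - f)) = 0 := by
      have h7 : R.H.map (f ≫ f - f) = 0 := by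
        rw [Functor.map_sub, Functor.map_comp, hf', Linear.smul_comp, Linear.comp_smul]
        have h8 : (𝟙 (R.H.obj M) + R.par M) ≫ (𝟙 (R.H.obj M) + R.par M) =
            (2 : K) • (𝟙 (R.H.obj M) + R.par M) := by
          simp only [Preadditive.add_comp, Preadditive.comp_add, Category.id_comp,
            Category.comp_id, R.par_sq]
          module
        have h9 : ∀ x : R.H.obj M ⟶ R.H.obj M, (2 : K)⁻¹ • (2 : K)⁻¹ • (2 : K) • x =
            (2 : K)⁻¹ • x := by
          intro x
          rw [smul_smul (2 : K)⁻¹ 2, inv_mul_cancel₀ h2, one_smul]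
        rw [h8, h9, sub_self]
      rw [Functor.map_comp, h7, comp_zero]
    rw [h6, zero_comp, ModuleCat.hom_zero, map_zero] at h5
    have h10 : ((trq hU M ((z : M ⟶ M) ≫ (f ≫ f - f)) : ℚ) : K) = ((0 : ℚ) : K) := by
      rw [h5]; simp
    exact_mod_cast h10
  · rw [map_sub, htr, htr1]
    ring

end

section

variable {C : Type u} [Category.{v} C] [MonoidalCategory C] [SymmetricCategory C]
  [Preadditive C] [Linear ℚ C] [MonoidalPreadditive C] [MonoidalLinear ℚ C]
  [RightRigidCategory C] {K : Type w} [Field K] (R : SuperRealisation C K) (hU : UnitQ C)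

/-- **The dichotomy.** -/
theorem dichotomy {M : C} (hM : R.CPlus M) : IsKimuraFinite M ∨
    ∀ r : ℝ, 0 ≤ r → r < bt R M + 2 → ∃ n0 : ℕ, ∀ n ≥ n0,
      r ^ (2 * n) ≤ finrank ℚ (Submodule.span ℚ (Set.range (pm R hU M n))) := by
  obtain ⟨q, m, n', h1, h2, h3, h4⟩ := exists_num R hU hM
  by_cases h : (tower R hU M).RC (fn (rectF 0 (m + 1) (n' + 1)) ((m + 1) * (n' + 1))) = 0
  · left
    obtain ⟨e, he, hc, hr⟩ := TT.kim_of_rect (T := tower R hU M) h1 h2 h3 h
    exact ⟨e, he, ⟨m + 1, powerVanishes_neg R hU hc⟩, ⟨n' + 1, powerVanishes_pos R hU hr⟩⟩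
  · right
    intro r hr0 hr
    refine TT.growth (T := tower R hU M) (Nat.succ_pos m) (Nat.succ_pos n') ?_ h hr0 ?_
    · have h5 : (tower R hU M).trE 1 = trq hU M 1 := rfl
      have h6 : trq hU M (1 : End M) = trq hU M q + trq hU M (1 - q) := by
        rw [map_sub]; ring
      rw [h5, h6, h2, h3]
      push_cast
      ring
    · rw [h4] at hr
      push_cast at hr ⊢
      linarith

end

end Pool.Agent.V8H87.GG
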