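import Mathlib

/-!
# The symmetric groups as a tower, and their actions on towers of monoids

`ex e` is the permutation of `{0, …, n}` which fixes `0` and acts as `e` on the successors.
-/

set_option autoImplicit false

open Equiv Equiv.Perm

namespace Pool.Agent.V8H87.GG

/-- The permutation that fixes `0` and acts as `e` on the successors. -/
def ex {n : ℕ} (e : Perm (Fin n)) : Perm (Fin (n + 1)) := decomposeFin.symm (0, e)

/-- The permutation `e` with `σ = swap 0 (σ 0) * ex e`. -/
def rest {n : ℕ} (σ : Perm (Fin (n + 1))) : Perm (Fin n) := (decomposeFin σ).2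

@[simp] lemma ex_zero {n : ℕ} (e : Perm (Fin n)) : ex e 0 = 0 := by simp [ex]

@[simp] lemma ex_succ {n : ℕ} (e : Perm (Fin n)) (i : Fin n) : ex e i.succ = (e i).succ := by
  simp [ex]

@[simp] lemma ex_mul {n : ℕ} (e f : Perm (Fin n)) : ex (e * f) = ex e * ex f := by
  ext i
  refine Fin.cases ?_ (fun i => ?_) i <;> simp [Perm.mul_apply]

@[simp] lemma ex_one {n : ℕ} : ex (1 : Perm (Fin n)) = 1 := by
  ext i
  refine Fin.cases ?_ (fun i => ?_) i <;> simp

lemma ex_inj {n : ℕ} {e f : Perm (Fin n)} (h : ex e = ex f) : e = f := by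
  ext i
  have := DFunLike.congr_fun h i.succ
  simp only [ex_succ] at this
  exact congrArg Fin.val (Fin.succ_injective _ this)

lemma ex_swap {n : ℕ} (a b : Fin n) : ex (swap a b) = swap a.succ b.succ := by
  ext i
  refine Fin.cases ?_ (fun i => ?_) i
  · rw [ex_zero, swap_apply_of_ne_of_ne (Fin.succ_ne_zero a).symm (Fin.succ_ne_zero b).symm]
  · rw [ex_succ]
    by_cases h1 : i = a
    · subst h1; simp
    · by_cases h2 : i = b
      · subst h2; simp
      · rw [swap_apply_of_ne_of_ne h1 h2, swap_apply_of_ne_of_ne (by simpa using h1)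
          (by simpa using h2)]

lemma sign_ex {n : ℕ} (e : Perm (Fin n)) : Perm.sign (ex e) = Perm.sign e := by
  simp [ex]

/-- A permutation fixing `0` is an extension. -/
lemma exists_ex {n : ℕ} {σ : Perm (Fin (n + 1))} (h : σ 0 = 0) : ∃ e, σ = ex e := by
  refine ⟨(decomposeFin σ).2, ?_⟩
  have h1 := decomposeFin.symm_apply_apply σ
  have h2 : (decomposeFin σ).1 = 0 := by
    have h3 := congrArg (fun τ : Perm (Fin (n + 1)) => τ 0) h1
    have h4 : decomposeFin.symm ((decomposeFin σ).1, (decomposeFin σ).2) 0 = (decomposeFin σ).1 :=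
      decomposeFin_symm_apply_zero _ _
    simp only [h] at h3
    exact h4.symm.trans h3
  rw [ex, ← h2]
  exact h1.symm

lemma eq_swap_mul {n : ℕ} (σ : Perm (Fin (n + 1))) : σ = swap 0 (σ 0) * ex (rest σ) := by
  rcases h : decomposeFin σ with ⟨p, e⟩
  have h1 : σ = decomposeFin.symm (p, e) := by rw [← h, Equiv.symm_apply_apply]
  have h2 : σ 0 = p := by rw [h1]; simp
  have h3 : rest σ = e := by rw [rest, h]
  rw [h2, h3, h1]
  ext i
  refine Fin.cases ?_ (fun i => ?_) i <;> simp [Perm.mul_apply]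

lemma rest_swap_mul {n : ℕ} (p : Fin (n + 1)) (e : Perm (Fin n)) :
    rest (swap 0 p * ex e) = e := by
  have h1 := eq_swap_mul (swap 0 p * ex e)
  have h2 : (swap 0 p * ex e) 0 = p := by simp [Perm.mul_apply]
  rw [h2] at h1
  exact (ex_inj (mul_left_cancel h1)).symm

@[simp] lemma rest_ex {n : ℕ} (e : Perm (Fin n)) : rest (ex e) = e := by
  have := rest_swap_mul 0 e
  rwa [swap_self, ← Perm.one_def, one_mul] at this

@[simp] lemma rest_swap {n : ℕ} (p : Fin (n + 1)) : rest (swap 0 p) = 1 := by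
  have := rest_swap_mul p 1
  rwa [ex_one, mul_one] at this

lemma ex_mul_swap {n : ℕ} (e : Perm (Fin n)) (p : Fin (n + 1)) :
    ex e * swap 0 p = swap 0 (ex e p) * ex e := by
  have := Equiv.swap_apply_apply (ex e) 0 p
  rw [ex_zero] at this
  rw [this]
  simp [mul_assoc]

lemma rest_conj {n : ℕ} (e f : Perm (Fin n)) (σ : Perm (Fin (n + 1))) :
    rest (ex e * σ * ex f) = e * rest σ * f := by
  conv_lhs => rw [eq_swap_mul σ]
  rw [← mul_assoc (ex e), ex_mul_swap, mul_assoc, mul_assoc, ← ex_mul, ← ex_mul, rest_swap_mul,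
    mul_assoc]

lemma conj_zero {n : ℕ} (e f : Perm (Fin n)) (σ : Perm (Fin (n + 1))) :
    (ex e * σ * ex f) 0 = 0 ↔ σ 0 = 0 := by
  rw [Perm.mul_apply, ex_zero, Perm.mul_apply]
  constructor
  · intro h
    have : ex e (σ 0) = ex e 0 := by rw [h, ex_zero]
    exact (ex e).injective this
  · intro h
    rw [h, ex_zero]

/-- The product of two transpositions which move `0`. -/
lemma swap_swap {n : ℕ} {a b : Fin n} (h : a ≠ b) :
    swap 0 a.succ * swap 0 b.succ = swap (0 : Fin (n + 1)) b.succ * ex (swap b a) := by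
  rw [ex_swap]
  have h1 := Equiv.swap_apply_apply (swap (0 : Fin (n + 1)) b.succ) 0 a.succ
  have h2 : swap (0 : Fin (n + 1)) b.succ a.succ = a.succ :=
    swap_apply_of_ne_of_ne (Fin.succ_ne_zero _) (by simpa using h)
  rw [swap_apply_left, h2] at h1
  rw [h1, Equiv.swap_inv]
  simp [← mul_assoc]

/-- A tower of monoids with involutions that satisfy the relations of the symmetric groups. -/
structure PTower (A : ℕ → Type*) [∀ n, Monoid (A n)] where
  /-- the inclusions -/
  ι : ∀ n, A n →* A (n + 1)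
  /-- the exchange of the two newest factors -/
  s : ∀ n, A (n + 2)
  s_sq : ∀ n, s n * s n = 1
  s_comm : ∀ n (a : A n), s n * ι (n + 1) (ι n a) = ι (n + 1) (ι n a) * s n
  braid : ∀ n, s (n + 1) * ι (n + 2) (s n) * s (n + 1) =
    ι (n + 2) (s n) * s (n + 1) * ι (n + 2) (s n)

namespace PTower

variable {A : ℕ → Type*} [∀ n, Monoid (A n)] (P : PTower A)

/-- The action of the transposition of `0` and `p`. -/
def tau : ∀ n, Fin (n + 1) → A (n + 1)
  | 0, _ => 1
  | n + 1, p => Fin.cases (motive := fun _ => A (n + 2)) 1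
      (fun q => P.ι (n + 1) (tau n q) * P.s n * P.ι (n + 1) (tau n q)) p

@[simp] lemma tau_zero (n : ℕ) : P.tau n 0 = 1 := by
  cases n <;> simp [tau]

lemma tau_succ (n : ℕ) (q : Fin (n + 1)) :
    P.tau (n + 1) q.succ = P.ι (n + 1) (P.tau n q) * P.s n * P.ι (n + 1) (P.tau n q) := by
  simp [tau]

lemma tau_sq : ∀ (n : ℕ) (p : Fin (n + 1)), P.tau n p * P.tau n p = 1
  | 0, _ => by simp [tau]
  | n + 1, p => by
    refine Fin.cases ?_ (fun q => ?_) p
    · simp
    · have h := tau_sq n q
      have h' : P.ι (n + 1) (P.tau n q) * P.ι (n + 1) (P.tau n q) = 1 := by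
        rw [← map_mul, h, map_one]
      rw [tau_succ]
      calc P.ι (n + 1) (P.tau n q) * P.s n * P.ι (n + 1) (P.tau n q) *
            (P.ι (n + 1) (P.tau n q) * P.s n * P.ι (n + 1) (P.tau n q))
          = P.ι (n + 1) (P.tau n q) * P.s n * (P.ι (n + 1) (P.tau n q) *
            P.ι (n + 1) (P.tau n q)) * P.s n * P.ι (n + 1) (P.tau n q) := by
            simp only [mul_assoc]
        _ = P.ι (n + 1) (P.tau n q) * (P.s n * P.s n) * P.ι (n + 1) (P.tau n q) := by
            rw [h']; simp only [mul_assoc, one_mul]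
        _ = 1 := by rw [P.s_sq, mul_one, h']

/-- The action of a permutation. -/
def th : ∀ n, Perm (Fin n) → A n
  | 0, _ => 1
  | n + 1, σ => P.tau n (σ 0) * P.ι n (th n (rest σ))

lemma th_ex {n : ℕ} (e : Perm (Fin n)) : P.th (n + 1) (ex e) = P.ι n (P.th n e) := by
  simp [th]

lemma th_one : ∀ n : ℕ, P.th n 1 = 1
  | 0 => rfl
  | n + 1 => by rw [← ex_one, th_ex, th_one n, map_one]

lemma th_swap {n : ℕ} (p : Fin (n + 1)) : P.th (n + 1) (swap 0 p) = P.tau n p := by
  rw [th, rest_swap, swap_apply_left, th_one, map_one, mul_one]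

lemma th_swap_ex {n : ℕ} (p : Fin (n + 1)) (e : Perm (Fin n)) :
    P.th (n + 1) (swap 0 p * ex e) = P.tau n p * P.ι n (P.th n e) := by
  rw [th, rest_swap_mul]
  simp [Perm.mul_apply]

/-- Equivariance of the transpositions, if the action on the smaller level is multiplicative. -/
lemma equi {n : ℕ} (hm : ∀ e f : Perm (Fin n), P.th n (e * f) = P.th n e * P.th n f)
    (hn : ∀ m, m + 1 = n → ∀ e f : Perm (Fin m), P.th m (e * f) = P.th m e * P.th m f)
    (e : Perm (Fin n)) (p : Fin (n + 1)) :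
    P.ι n (P.th n e) * P.tau n p = P.tau n (ex e p) * P.ι n (P.th n e) := by
  refine Fin.cases ?_ (fun q => ?_) p
  · simp
  · rcases n with - | m
    · exact q.elim0
    · rw [ex_succ, tau_succ, tau_succ]
      -- `e * swap 0 q = swap 0 (e q) * ex f`
      set f := rest (e * swap 0 q) with hf
      have h1 : e * swap 0 q = swap 0 (e q) * ex f := by
        have := eq_swap_mul (e * swap 0 q)
        simpa [Perm.mul_apply] using this
      have h2 : P.th (m + 1) e * P.tau m q = P.tau m (e q) * P.ι m (P.th m f) := by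
        rw [← th_swap, ← hm, h1, th_swap_ex]
      have h3 : P.ι m (P.th m f) * P.tau m q = P.tau m (e q) * P.th (m + 1) e := by
        have h4 := congrArg (fun x => P.tau m (e q) * x * P.tau m q) h2
        have h5 : P.tau m (e q) * (P.tau m (e q) * P.ι m (P.th m f)) * P.tau m q =
            P.ι m (P.th m f) * P.tau m q := by
          rw [← mul_assoc, tau_sq, one_mul]
        rw [← h5, ← h4]
        simp only [mul_assoc]
        rw [tau_sq, mul_one]
      calc P.ι (m + 1) (P.th (m + 1) e) * (P.ι (m + 1) (P.tau m q) * P.s m *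
            P.ι (m + 1) (P.tau m q))
          = P.ι (m + 1) (P.th (m + 1) e * P.tau m q) * P.s m * P.ι (m + 1) (P.tau m q) := by
            rw [map_mul]; simp only [mul_assoc]
        _ = P.ι (m + 1) (P.tau m (e q)) * (P.ι (m + 1) (P.ι m (P.th m f)) * P.s m) *
            P.ι (m + 1) (P.tau m q) := by
            rw [h2, map_mul]; simp only [mul_assoc]
        _ = P.ι (m + 1) (P.tau m (e q)) * P.s m * P.ι (m + 1) (P.ι m (P.th m f) * P.tau m q) := by
            rw [← P.s_comm, map_mul]; simp only [mul_assoc]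
        _ = P.ι (m + 1) (P.tau m (e q)) * P.s m * P.ι (m + 1) (P.tau m (e q)) *
            P.ι (m + 1) (P.th (m + 1) e) := by
            rw [h3, map_mul]; simp only [mul_assoc]

lemma tau_tau {n : ℕ} (hm : ∀ e f : Perm (Fin n), P.th n (e * f) = P.th n e * P.th n f)
    (hn : ∀ m, m + 1 = n → ∀ e f : Perm (Fin m), P.th m (e * f) = P.th m e * P.th m f)
    {a b : Fin n} (hab : a ≠ b) :
    P.tau n a.succ * P.tau n b.succ = P.tau n b.succ * P.ι n (P.th n (swap b a)) := by
  obtain ⟨m, rfl⟩ : ∃ m, n = m + 2 := by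
    rcases n with - | - | m
    · exact a.elim0
    · exact absurd (Fin.ext (by omega)) hab
    · exact ⟨m, rfl⟩
  -- a permutation with `0 ↦ a`, `1 ↦ b`
  obtain ⟨e, h0, h1⟩ : ∃ e : Perm (Fin (m + 2)), e 0 = a ∧ e 1 = b := by
    refine ⟨swap (swap 0 a 1) b * swap 0 a, ?_, ?_⟩
    · rw [Perm.mul_apply, swap_apply_left]
      refine swap_apply_of_ne_of_ne ?_ hab
      intro h
      have h2 : swap 0 a 0 = swap 0 a 1 := by rw [swap_apply_left]; exact h
      exact absurd ((swap 0 a).injective h2) (by simp)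
    · rw [Perm.mul_apply, swap_apply_left]
  have base : P.tau (m + 2) (Fin.succ 0) * P.tau (m + 2) (Fin.succ 1) =
      P.ι (m + 2) (P.th (m + 2) (swap 0 1)) * P.tau (m + 2) (Fin.succ 0) := by
    have e1 : P.tau (m + 1) 1 = P.s m := by
      have := P.tau_succ m 0
      simpa using this
    have e2 : P.ι (m + 2) (P.s m) * P.ι (m + 2) (P.s m) = 1 := by
      rw [← map_mul, P.s_sq, map_one]
    rw [tau_succ, tau_succ, th_swap, tau_zero, e1, map_one, one_mul, mul_one]
    calc P.s (m + 1) * (P.ι (m + 2) (P.s m) * P.s (m + 1) * P.ι (m + 2) (P.s m))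
        = (P.s (m + 1) * P.ι (m + 2) (P.s m) * P.s (m + 1)) * P.ι (m + 2) (P.s m) := by
          simp only [← mul_assoc]
      _ = P.ι (m + 2) (P.s m) * P.s (m + 1) := by
          rw [P.braid, mul_assoc, e2, mul_one]
  have q0 := P.equi hm hn e (Fin.succ 0)
  have q1 := P.equi hm hn e (Fin.succ 1)
  rw [ex_succ, h0] at q0
  rw [ex_succ, h1] at q1
  have qs := P.equi hm hn (swap b a) a.succ
  rw [ex_succ, swap_apply_right] at qs
  rw [← qs]
  -- cancel `ι (th e)`
  have inv : P.ι (m + 2) (P.th (m + 2) e) * P.ι (m + 2) (P.th (m + 2) e⁻¹) = 1 := by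
    rw [← map_mul, ← hm, mul_inv_cancel, th_one, map_one]
  have hc : swap b a * e = e * swap 0 1 := by
    have := Equiv.swap_apply_apply e 0 1
    rw [h0, h1] at this
    rw [swap_comm b a, this]
    simp [mul_assoc]
  have key : P.tau (m + 2) a.succ * P.tau (m + 2) b.succ * P.ι (m + 2) (P.th (m + 2) e) =
      P.ι (m + 2) (P.th (m + 2) (swap b a)) * P.tau (m + 2) a.succ *
        P.ι (m + 2) (P.th (m + 2) e) := by
    calc P.tau (m + 2) a.succ * P.tau (m + 2) b.succ * P.ι (m + 2) (P.th (m + 2) e)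
        = P.tau (m + 2) a.succ * (P.tau (m + 2) b.succ * P.ι (m + 2) (P.th (m + 2) e)) := by
          simp only [mul_assoc]
      _ = P.ι (m + 2) (P.th (m + 2) e) * (P.tau (m + 2) (Fin.succ 0) *
            P.tau (m + 2) (Fin.succ 1)) := by
          rw [← q1, ← mul_assoc, ← q0, mul_assoc]
      _ = P.ι (m + 2) (P.th (m + 2) (e * swap 0 1)) * P.tau (m + 2) (Fin.succ 0) := by
          rw [base, hm, map_mul, mul_assoc]
      _ = P.ι (m + 2) (P.th (m + 2) (swap b a)) * (P.ι (m + 2) (P.th (m + 2) e) *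
            P.tau (m + 2) (Fin.succ 0)) := by
          rw [← hc, hm, map_mul, mul_assoc]
      _ = _ := by rw [q0]; simp only [mul_assoc]
  have := congrArg (fun x => x * P.ι (m + 2) (P.th (m + 2) e⁻¹)) key
  simpa [mul_assoc, inv] using this

lemma th_mul_aux : ∀ n : ℕ, (∀ e f : Perm (Fin n), P.th n (e * f) = P.th n e * P.th n f) ∧
    (∀ m, m + 1 = n → ∀ e f : Perm (Fin m), P.th m (e * f) = P.th m e * P.th m f)
  | 0 => ⟨fun e f => by simp [th], fun m hm => by omega⟩
  | n + 1 => by
    obtain ⟨hm, hn⟩ := th_mul_aux n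
    refine ⟨fun σ σ' => ?_, fun m h => by obtain rfl : m = n := by omega
                                          exact hm⟩
    -- the product of two transpositions
    have hss : ∀ p r : Fin (n + 1), P.th (n + 1) (swap 0 p * swap 0 r) =
        P.tau n p * P.tau n r := by
      intro p r
      refine Fin.cases ?_ (fun a => ?_) p
      · rw [swap_self, ← Perm.one_def, one_mul, th_swap, tau_zero, one_mul]
      · refine Fin.cases ?_ (fun b => ?_) r
        · rw [swap_self, ← Perm.one_def, mul_one, th_swap, tau_zero, mul_one]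
        · by_cases hab : a = b
          · subst hab
            rw [swap_mul_self, th_one, tau_sq]
          · rw [swap_swap hab, th_swap_ex, P.tau_tau hm hn hab]
    have hex : ∀ (ρ : Perm (Fin (n + 1))) (f : Perm (Fin n)), P.th (n + 1) (ρ * ex f) =
        P.th (n + 1) ρ * P.ι n (P.th n f) := by
      intro ρ f
      conv_lhs => rw [eq_swap_mul ρ]
      rw [mul_assoc, ← ex_mul, th_swap_ex, hm, map_mul, ← mul_assoc]
      rfl
    have h1 := eq_swap_mul σ
    have h2 := eq_swap_mul σ'
    have h3 : σ * σ' = swap 0 (σ 0) * swap 0 (ex (rest σ) (σ' 0)) * ex (rest σ * rest σ') := by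
      conv_lhs => rw [h1, h2]
      rw [ex_mul, ← mul_assoc, mul_assoc (swap 0 (σ 0)) (ex (rest σ)), ex_mul_swap]
      simp only [mul_assoc]
    rw [h3, hex, hss, hm, map_mul]
    have h4 := P.equi hm hn (rest σ) (σ' 0)
    calc P.tau n (σ 0) * P.tau n (ex (rest σ) (σ' 0)) *
          (P.ι n (P.th n (rest σ)) * P.ι n (P.th n (rest σ')))
        = P.tau n (σ 0) * (P.tau n (ex (rest σ) (σ' 0)) * P.ι n (P.th n (rest σ))) *
          P.ι n (P.th n (rest σ')) := by simp only [mul_assoc]
      _ = P.th (n + 1) σ * P.th (n + 1) σ' := by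
          rw [← h4, th, th]; simp only [mul_assoc]

/-- The action of the symmetric group as a homomorphism. -/
def hom (n : ℕ) : Perm (Fin n) →* A n where
  toFun := P.th n
  map_one' := P.th_one n
  map_mul' := (P.th_mul_aux n).1

lemma hom_ex {n : ℕ} (e : Perm (Fin n)) : P.hom (n + 1) (ex e) = P.ι n (P.hom n e) :=
  P.th_ex e

lemma hom_swap {n : ℕ} (p : Fin (n + 1)) : P.hom (n + 1) (swap 0 p) = P.tau n p :=
  P.th_swap p

lemma hom_eq {n : ℕ} (σ : Perm (Fin (n + 1))) : P.hom (n + 1) σ =
    P.tau n (σ 0) * P.ι n (P.hom n (rest σ)) := rfl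

lemma hom_swap_one (n : ℕ) : P.hom (n + 2) (swap 0 1) = P.s n := by
  rw [hom_swap]
  have := P.tau_succ n 0
  simpa using this

end PTower

end Pool.Agent.V8H87.GG
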