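import Pool.Agent.V8H87.GG.Typed

/-!
# The spectator argument

If the Young symmetrizer of a diagram vanishes then an explicit polynomial in a numerical idempotent
vanishes.
-/

set_option autoImplicit false
set_option linter.unusedSectionVars false

open Equiv Equiv.Perm

namespace Pool.Agent.V8H87.GG

lemma sum_ex {n : ℕ} {M : Type*} [AddCommMonoid M] (g : Perm (Fin (n + 1)) → M)
    (h : ∀ σ, σ 0 ≠ 0 → g σ = 0) : ∑ σ, g σ = ∑ e : Perm (Fin n), g (ex e) := by
  rw [← Fintype.sum_bijective _ (swex_bij n) (fun x => g (swap 0 x.1 * ex x.2)) g (fun x => rfl),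
    Fintype.sum_prod_type, Fin.sum_univ_succ]
  have h1 : ∀ i : Fin n, ∑ e : Perm (Fin n), g (swap 0 i.succ * ex e) = 0 := by
    intro i
    refine Finset.sum_eq_zero (fun e _ => h _ ?_)
    rw [Perm.mul_apply, ex_zero, swap_apply_left]
    exact Fin.succ_ne_zero i
  simp only [h1, Finset.sum_const_zero, add_zero]
  refine Finset.sum_congr rfl (fun e _ => ?_)
  rw [swap_self, ← Perm.one_def, one_mul]

namespace TT

variable {A : ℕ → Type*} [∀ n, Ring (A n)] [∀ n, Algebra ℚ (A n)] {E : Type*} [Ring E]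
    [Algebra ℚ E] (T : TT A E) (q : E)

/-- The element commutes with the operators `q` on the factors. -/
def Com {n : ℕ} (h : A n) : Prop := ∀ k : Fin n, T.X k q * h = h * T.X k q

variable {T q}

lemma Com.mul {n : ℕ} {a b : A n} (ha : Com T q a) (hb : Com T q b) : Com T q (a * b) :=
  fun k => by rw [← mul_assoc, ha k, mul_assoc, hb k, mul_assoc]

lemma Com.sub {n : ℕ} {a b : A n} (ha : Com T q a) (hb : Com T q b) : Com T q (a - b) :=
  fun k => by rw [mul_sub, sub_mul, ha k, hb k]

lemma com_H {n : ℕ} (y : Fin n → E) (hy : ∀ i, q * y i = y i * q) : Com T q (T.H n y) := by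
  intro k
  rw [X, ← H_mul, ← H_mul]
  congr 1
  funext i
  by_cases h : i = k
  · subst h; simp [hy]
  · simp [Pi.mulSingle_eq_of_ne h]

lemma com_X {n : ℕ} (l : Fin n) : Com T q (T.X l q) := by
  refine com_H _ (fun i => ?_)
  by_cases h : i = l
  · subst h; simp
  · simp [Pi.mulSingle_eq_of_ne h]

lemma com_ι {n : ℕ} {a : A n} (ha : Com T q a) : Com T q (T.ι n a) := by
  intro k
  refine Fin.cases ?_ (fun k => ?_) k
  · rw [X_zero, T.j_comm]
  · rw [X_succ, ← map_mul, ha k, map_mul]

variable (T q) in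
/-- The product of the differences of the operators. -/
def DL {n : ℕ} (L : List (Fin n)) : A (n + 1) :=
  (L.map (fun k => T.ι n (T.X k q) - T.j n q)).prod

lemma DL_nil {n : ℕ} : T.DL q ([] : List (Fin n)) = 1 := rfl

lemma DL_cons {n : ℕ} (k : Fin n) (L : List (Fin n)) :
    T.DL q (k :: L) = (T.ι n (T.X k q) - T.j n q) * T.DL q L := by
  simp [DL]

lemma com_dif {n : ℕ} (k : Fin n) : Com T q (T.ι n (T.X k q) - T.j n q) := by
  rw [← X_zero]
  exact (com_ι (com_X k)).sub (com_X 0)

lemma com_DL {n : ℕ} (L : List (Fin n)) : Com T q (T.DL q L) := by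
  induction L with
  | nil => intro k; rw [DL_nil, mul_one, one_mul]
  | cons k L ih => rw [DL_cons]; exact (com_dif k).mul ih

lemma Com.dif {n : ℕ} {h : A (n + 1)} (hh : Com T q h) (k : Fin n) :
    (T.ι n (T.X k q) - T.j n q) * h = h * (T.ι n (T.X k q) - T.j n q) := by
  rw [sub_mul, mul_sub, ← X_succ, hh, ← X_zero, hh]

lemma lp_move {n : ℕ} (σ : Perm (Fin (n + 1))) (i : Fin n) (hi : σ 0 = i.succ) (h : A (n + 1))
    (hh : Com T q h) : T.lp n (T.th (n + 1) σ * ((T.ι n (T.X i q) - T.j n q) * h)) = 0 := by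
  have h1 : T.th (n + 1) σ * (T.j n q * h) = T.ι n (T.X i q) * (T.th (n + 1) σ * h) := by
    rw [← mul_assoc, ← X_zero, th_X, hi, X_succ, mul_assoc]
  have h2 : T.ι n (T.X i q) * h = h * T.ι n (T.X i q) := by
    rw [← X_succ, hh]
  rw [sub_mul, mul_sub, map_sub, h1, T.lp_comm, mul_assoc, ← h2, sub_self]

lemma lp_DL {n : ℕ} (σ : Perm (Fin (n + 1))) (i : Fin n) (hi : σ 0 = i.succ) :
    ∀ (L : List (Fin n)), i ∈ L → ∀ (h : A (n + 1)), Com T q h →
      T.lp n (T.th (n + 1) σ * (T.DL q L * h)) = 0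
  | [], hL, _, _ => absurd hL List.not_mem_nil
  | k :: L, hL, h, hh => by
    rcases List.mem_cons.1 hL with rfl | hL'
    · rw [DL_cons, mul_assoc]
      exact lp_move σ _ hi _ ((com_DL L).mul hh)
    · rw [DL_cons, (com_DL L).dif, mul_assoc]
      exact lp_DL σ i hi L hL' _ ((com_dif k).mul hh)

/-- The polynomial of the list. -/
noncomputable def PL {n : ℕ} (c : Fin n → ℚ) (L : List (Fin n)) : Polynomial ℚ :=
  (L.map (fun k => Polynomial.C (c k) - Polynomial.X)).prod

lemma PL_cons {n : ℕ} (c : Fin n → ℚ) (k : Fin n) (L : List (Fin n)) :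
    PL c (k :: L) = PL c L * (Polynomial.C (c k) - Polynomial.X) := by
  simp [PL, mul_comm]

lemma lp_fix {n : ℕ} (c : Fin n → ℚ) (h' : A n)
    (hc : ∀ k, T.X k q * h' - c k • h' ∈ T.rad.N n) :
    ∀ (L : List (Fin n)) (a : A n) (y : E), Com T q h' →
      T.lp n (T.ι n a * (T.DL q L * (T.ι n h' * T.j n y))) =
        T.tr n (a * h') • (Polynomial.aeval q (PL c L) * y)
  | [], a, y, _ => by
    rw [DL_nil, one_mul, ← mul_assoc, ← map_mul, T.lp_j]
    simp [PL]
  | k :: L, a, y, hh => by
    have h1 : T.ι n a * (T.DL q (k :: L) * (T.ι n h' * T.j n y)) =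
        T.ι n (a * T.X k q) * (T.DL q L * (T.ι n h' * T.j n y)) -
        T.ι n a * (T.DL q L * (T.ι n h' * T.j n (q * y))) := by
      have h2 : T.j n q * (T.DL q L * (T.ι n h' * T.j n y)) =
          T.DL q L * (T.ι n h' * T.j n (q * y)) := by
        rw [← X_zero, ← mul_assoc, com_DL L 0, mul_assoc, X_zero, ← mul_assoc (T.j n q),
          ← T.j_comm, mul_assoc, ← map_mul]
      rw [DL_cons, sub_mul, sub_mul, mul_sub, map_mul, mul_assoc (T.j n q), h2]
      simp only [mul_assoc]
    have h3 : T.tr n (a * T.X k q * h') = c k * T.tr n (a * h') := by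
      have h4 := tr_rad T (T.rad.left _ a _ (hc k))
      rw [mul_sub, map_sub, sub_eq_zero, mul_smul_comm, map_smul, smul_eq_mul] at h4
      rw [mul_assoc, h4]
    rw [h1, map_sub, lp_fix c h' hc L _ _ hh, lp_fix c h' hc L _ _ hh, h3, PL_cons,
      map_mul (Polynomial.aeval q)]
    have h4 : Polynomial.aeval q (Polynomial.C (c k) - Polynomial.X) = c k • (1 : E) - q := by
      rw [map_sub, Polynomial.aeval_C, Polynomial.aeval_X, Algebra.algebraMap_eq_smul_one]
    rw [h4, mul_assoc _ _ y, sub_mul _ _ y, mul_sub, smul_sub,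
      smul_mul_assoc, one_mul, mul_smul_comm, smul_smul, mul_comm (c k)]

/-- The two types of a numerical idempotent. -/
def pr (q : E) : Bool → E := fun b => if b then q else 1 - q

/-- **The spectator argument.** -/
theorem spect (hq : ∀ z, T.trE ((q * q - q) * z) = 0) (ty : ℕ × ℕ → Bool) {n : ℕ}
    (f : Fin (n + 1) → ℕ × ℕ) (h0 : ∀ i : Fin n, f i.succ ≠ f 0) (hRC : T.RC f = 0) :
    T.tr n (T.RC (f ∘ Fin.succ) * T.H n (fun i => pr q (ty (f i.succ)))) •
      Polynomial.aeval q (PL (fun k : Fin n => if ty (f k.succ) then 1 else 0)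
        (List.finRange n)) = 0 := by
  classical
  set h' := T.H n (fun i => pr q (ty (f i.succ))) with hh'
  set L := List.finRange n with hL
  have hcom : Com T q h' := by
    refine com_H _ (fun i => ?_)
    unfold pr
    split_ifs
    · rfl
    · rw [mul_sub, sub_mul, mul_one, one_mul]
  have hc : ∀ k : Fin n, T.X k q * h' - (if ty (f k.succ) then (1 : ℚ) else 0) • h' ∈
      T.rad.N n := by
    intro k
    by_cases hk : ty (f k.succ) = true
    · rw [if_pos hk, one_smul]
      refine X_H_sub _ _ _ (rad_NE (fun z => ?_))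
      simp only [pr, hk, if_true]
      exact hq z
    · rw [if_neg hk, zero_smul, sub_zero, hh', X_H]
      refine H_update_mem _ _ _ (rad_NE (fun z => ?_))
      simp only [pr, hk]
      have := hq z
      have e : q * (1 - q) * z = -((q * q - q) * z) := by noncomm_ring
      simp only [Bool.false_eq_true, if_false]
      rw [e, map_neg, this, neg_zero]
  have hsum : T.lp n (T.RC f * (T.DL q L * (T.ι n h' * T.j n 1))) =
      ∑ a : Perm (Fin (n + 1)), ∑ b : Perm (Fin (n + 1)),
        if Fx (fun i => (f i).1) a then (if Fx (fun i => (f i).2) b then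
          sg b • T.lp n (T.th (n + 1) (a * b) * (T.DL q L * (T.ι n h' * T.j n 1))) else 0)
          else 0 := by
    rw [RC, Rw, Cw, Finset.sum_mul_sum, Finset.sum_mul, map_sum]
    refine Finset.sum_congr rfl (fun a _ => ?_)
    rw [Finset.sum_mul, map_sum]
    refine Finset.sum_congr rfl (fun b _ => ?_)
    split_ifs
    · rw [mul_smul_comm, smul_mul_assoc, map_smul, map_mul (T.th _)]
    · rw [mul_zero, zero_mul, map_zero]
    · rw [zero_mul, zero_mul, map_zero]
    · rw [zero_mul, zero_mul, map_zero]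
  have hcom1 : Com T q (T.ι n h' * T.j n 1) := by
    rw [map_one, mul_one]
    exact com_ι hcom
  have hz : ∀ a b : Perm (Fin (n + 1)), ¬ (a 0 = 0 ∧ b 0 = 0) →
      (if Fx (fun i => (f i).1) a then (if Fx (fun i => (f i).2) b then
          sg b • T.lp n (T.th (n + 1) (a * b) * (T.DL q L * (T.ι n h' * T.j n 1))) else 0)
          else 0) = 0 := by
    intro a b hab
    split_ifs with ha hb
    · by_cases h1 : (a * b) 0 = 0
      · exfalso
        apply hab
        have h2 : b 0 = 0 := by
          by_contra h3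
          obtain ⟨i, hi⟩ := Fin.exists_succ_eq.2 h3
          have e1 := hb 0
          have e2 := ha (b 0)
          rw [Perm.mul_apply] at h1
          rw [h1] at e2
          simp only at e1 e2
          exact h0 i (Prod.ext (by rw [hi, ← e2]) (by rw [hi, e1]))
        rw [Perm.mul_apply, h2] at h1
        exact ⟨h1, h2⟩
      · obtain ⟨i, hi⟩ := Fin.exists_succ_eq.2 h1
        rw [lp_DL (a * b) i hi.symm L (List.mem_finRange i) _ hcom1, smul_zero]
    · rfl
    · rfl
  have hsum2 : T.lp n (T.RC f * (T.DL q L * (T.ι n h' * T.j n 1))) =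
      ∑ a : Perm (Fin n), ∑ b : Perm (Fin n),
        if Fx (fun i => (f (Fin.succ i)).1) a then (if Fx (fun i => (f (Fin.succ i)).2) b then
          sg b • (T.tr n (T.th n a * T.th n b * h') • Polynomial.aeval q
            (PL (fun k : Fin n => if ty (f k.succ) then 1 else 0) L)) else 0)
          else 0 := by
    rw [hsum, sum_ex _ (fun a ha => Finset.sum_eq_zero (fun b _ => hz a b (fun h => ha h.1)))]
    refine Finset.sum_congr rfl (fun a _ => ?_)
    rw [sum_ex _ (fun b hb => hz _ b (fun h => hb h.2))]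
    refine Finset.sum_congr rfl (fun b _ => ?_)
    have e1 : Fx (fun i => (f i).1) (ex a) ↔ Fx (fun i : Fin n => (f (Fin.succ i)).1) a :=
      Fx.ex_iff
    have e2 : Fx (fun i => (f i).2) (ex b) ↔ Fx (fun i : Fin n => (f (Fin.succ i)).2) b :=
      Fx.ex_iff
    rw [← ex_mul, th_ex, sg_ex, lp_fix _ h' hc L _ _ hcom, mul_one, map_mul (T.th _)]
    simp only [e1, e2]
  rw [hRC, zero_mul, map_zero] at hsum2
  rw [hsum2]
  have hfin : T.tr n (T.RC (f ∘ Fin.succ) * h') = ∑ a : Perm (Fin n), ∑ b : Perm (Fin n),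
        if Fx (fun i => (f (Fin.succ i)).1) a then (if Fx (fun i => (f (Fin.succ i)).2) b then
          sg b * (T.tr n (T.th n a * T.th n b * h')) else 0) else 0 := by
    rw [RC, Rw, Cw, Finset.sum_mul_sum, Finset.sum_mul, map_sum]
    refine Finset.sum_congr rfl (fun a _ => ?_)
    rw [Finset.sum_mul, map_sum]
    refine Finset.sum_congr rfl (fun b _ => ?_)
    simp only [Function.comp_apply]
    split_ifs
    · rw [mul_smul_comm, smul_mul_assoc, map_smul, smul_eq_mul]
    · rw [mul_zero, zero_mul, map_zero]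
    · rw [zero_mul, zero_mul, map_zero]
    · rw [zero_mul, zero_mul, map_zero]
  rw [hfin, Finset.sum_smul]
  refine Finset.sum_congr rfl (fun a _ => ?_)
  rw [Finset.sum_smul]
  refine Finset.sum_congr rfl (fun b _ => ?_)
  split_ifs
  · rw [smul_smul]
  · rw [zero_smul]
  · rw [zero_smul]

end TT

end Pool.Agent.V8H87.GG
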