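import Pool.Agent.V8H87.GG.Perm

/-!
# Row sums and signed column sums of a labelling
-/

set_option autoImplicit false
set_option linter.unusedSectionVars false

open Equiv Equiv.Perm

namespace Pool.Agent.V8H87.GG

/-- The permutation `σ` preserves the labelling `ρ`. -/
def Fx {n : ℕ} {α : Type*} (ρ : Fin n → α) (σ : Perm (Fin n)) : Prop := ∀ i, ρ (σ i) = ρ i

namespace Fx

variable {n : ℕ} {α β : Type*} {ρ : Fin n → α} {σ τ : Perm (Fin n)}

lemma one : Fx ρ 1 := fun _ => rfl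

lemma mul (h : Fx ρ σ) (h' : Fx ρ τ) : Fx ρ (σ * τ) := fun i => (h (τ i)).trans (h' i)

lemma inv (h : Fx ρ σ) : Fx ρ σ⁻¹ := fun i => by
  simpa using (h (σ⁻¹ i)).symm

lemma mul_left_iff (h : Fx ρ τ) : Fx ρ (τ * σ) ↔ Fx ρ σ :=
  ⟨fun h' => by simpa using (h.inv.mul h'), fun h' => h.mul h'⟩

lemma mul_right_iff (h : Fx ρ τ) : Fx ρ (σ * τ) ↔ Fx ρ σ :=
  ⟨fun h' => by simpa using (h'.mul h.inv), fun h' => h'.mul h⟩

lemma swap_of {a b : Fin n} (h : ρ a = ρ b) : Fx ρ (swap a b) := fun i => by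
  by_cases h1 : i = a
  · subst h1; rw [swap_apply_left, h]
  · by_cases h2 : i = b
    · subst h2; rw [swap_apply_right, h]
    · rw [swap_apply_of_ne_of_ne h1 h2]

lemma conj_iff (g : Perm (Fin n)) : Fx (ρ ∘ g) σ ↔ Fx ρ (g * σ * g⁻¹) := by
  constructor
  · intro h i
    have := h (g⁻¹ i)
    simpa [Perm.mul_apply] using this
  · intro h i
    have := h (g i)
    simpa [Perm.mul_apply] using this

lemma ex_iff {ρ : Fin (n + 1) → α} {e : Perm (Fin n)} : Fx ρ (ex e) ↔ Fx (ρ ∘ Fin.succ) e := by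
  constructor
  · intro h i
    have := h i.succ
    simpa using this
  · intro h i
    refine Fin.cases ?_ (fun i => ?_) i
    · simp
    · simpa using h i

lemma ex_swap_iff {ρ : Fin (n + 1) → α} {e : Perm (Fin n)} {p : Fin (n + 1)} :
    Fx ρ (ex e * swap 0 p) ↔ Fx (ρ ∘ Fin.succ) e ∧ ρ p = ρ 0 := by
  constructor
  · intro h
    have h1 : ρ p = ρ 0 := by
      have := h p
      rw [Perm.mul_apply, swap_apply_right, ex_zero] at this
      exact this.symm
    exact ⟨ex_iff.1 ((mul_right_iff (swap_of h1.symm)).1 h), h1⟩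
  · rintro ⟨h1, h2⟩
    exact (ex_iff.2 h1).mul (swap_of h2.symm)

lemma swap_ex_iff {ρ : Fin (n + 1) → α} {e : Perm (Fin n)} {p : Fin (n + 1)} :
    Fx ρ (swap 0 p * ex e) ↔ Fx (ρ ∘ Fin.succ) e ∧ ρ p = ρ 0 := by
  constructor
  · intro h
    have h1 : ρ p = ρ 0 := by
      have := h 0
      rwa [Perm.mul_apply, ex_zero, swap_apply_left] at this
    exact ⟨ex_iff.1 ((mul_left_iff (swap_of h1.symm)).1 h), h1⟩
  · rintro ⟨h1, h2⟩
    exact (swap_of h2.symm).mul (ex_iff.2 h1)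

end Fx

/-- The sign as a rational number. -/
def sg {n : ℕ} (σ : Perm (Fin n)) : ℚ := ((Perm.sign σ : ℤ) : ℚ)

@[simp] lemma sg_one {n : ℕ} : sg (1 : Perm (Fin n)) = 1 := by simp [sg]

lemma sg_mul {n : ℕ} (σ τ : Perm (Fin n)) : sg (σ * τ) = sg σ * sg τ := by simp [sg]

lemma sg_inv {n : ℕ} (σ : Perm (Fin n)) : sg σ⁻¹ = sg σ := by simp [sg]

lemma sg_swap {n : ℕ} {a b : Fin n} (h : a ≠ b) : sg (swap a b) = -1 := by
  simp [sg, Perm.sign_swap h]

lemma sg_ex {n : ℕ} (e : Perm (Fin n)) : sg (ex e) = sg e := by rw [sg, sign_ex, sg]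

lemma sg_sq {n : ℕ} (σ : Perm (Fin n)) : sg σ * sg σ = 1 := by
  rw [← sg_mul]
  rcases Int.units_eq_one_or (Perm.sign σ) with h | h <;> simp [sg, h]

section

variable {n : ℕ} {α β : Type*} {B : Type*} [Ring B] [Algebra ℚ B] (θ : Perm (Fin n) →* B)

open Classical in
/-- The sum of the permutations that preserve the labelling. -/
noncomputable def Rw (ρ : Fin n → α) : B := ∑ σ : Perm (Fin n), if Fx ρ σ then θ σ else 0

open Classical in
/-- The signed sum of the permutations that preserve the labelling. -/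
noncomputable def Cw (γ : Fin n → α) : B :=
  ∑ σ : Perm (Fin n), if Fx γ σ then sg σ • θ σ else 0

variable {θ}

lemma mul_Rw {ρ : Fin n → α} {τ : Perm (Fin n)} (h : Fx ρ τ) : θ τ * Rw θ ρ = Rw θ ρ := by
  classical
  rw [Rw, Finset.mul_sum]
  refine Fintype.sum_equiv (Equiv.mulLeft τ) _ _ (fun σ => ?_)
  simp only [Equiv.coe_mulLeft, Fx.mul_left_iff h, mul_ite, mul_zero, map_mul]

lemma Rw_mul {ρ : Fin n → α} {τ : Perm (Fin n)} (h : Fx ρ τ) : Rw θ ρ * θ τ = Rw θ ρ := by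
  classical
  rw [Rw, Finset.sum_mul]
  refine Fintype.sum_equiv (Equiv.mulRight τ) _ _ (fun σ => ?_)
  simp only [Equiv.coe_mulRight, Fx.mul_right_iff h, ite_mul, zero_mul, map_mul]

lemma mul_Cw {γ : Fin n → α} {τ : Perm (Fin n)} (h : Fx γ τ) :
    θ τ * Cw θ γ = sg τ • Cw θ γ := by
  classical
  rw [Cw, Finset.mul_sum, Finset.smul_sum]
  refine Fintype.sum_equiv (Equiv.mulLeft τ) _ _ (fun σ => ?_)
  simp only [Equiv.coe_mulLeft, Fx.mul_left_iff h, mul_ite, mul_zero, map_mul, smul_ite, smul_zero,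
    sg_mul, smul_smul, ← mul_assoc, sg_sq, one_mul, mul_smul_comm]

lemma Cw_mul {γ : Fin n → α} {τ : Perm (Fin n)} (h : Fx γ τ) :
    Cw θ γ * θ τ = sg τ • Cw θ γ := by
  classical
  rw [Cw, Finset.sum_mul, Finset.smul_sum]
  refine Fintype.sum_equiv (Equiv.mulRight τ) _ _ (fun σ => ?_)
  simp only [Equiv.coe_mulRight, Fx.mul_right_iff h, ite_mul, zero_mul, map_mul, smul_ite,
    smul_zero, sg_mul, smul_smul, smul_mul_assoc]
  congr 2
  rw [mul_comm (sg σ), ← mul_assoc, sg_sq, one_mul]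

lemma Rw_conj (ρ : Fin n → α) (g : Perm (Fin n)) :
    Rw θ (ρ ∘ g) = θ g⁻¹ * Rw θ ρ * θ g := by
  classical
  rw [Rw, Rw, Finset.mul_sum, Finset.sum_mul]
  refine Fintype.sum_equiv (MulAut.conj g).toEquiv _ _ (fun σ => ?_)
  have e : (MulAut.conj g).toEquiv σ = g * σ * g⁻¹ := rfl
  rw [e]
  simp only [Fx.conj_iff, mul_ite, ite_mul, mul_zero, zero_mul, map_mul]
  congr 1
  simp only [← map_mul]
  congr 1
  group

lemma sg_conj (g σ : Perm (Fin n)) : sg (g * σ * g⁻¹) = sg σ := by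
  rw [sg_mul, sg_mul, sg_inv, mul_comm (sg g), mul_assoc, sg_sq, mul_one]

lemma Cw_conj (γ : Fin n → α) (g : Perm (Fin n)) :
    Cw θ (γ ∘ g) = θ g⁻¹ * Cw θ γ * θ g := by
  classical
  rw [Cw, Cw, Finset.mul_sum, Finset.sum_mul]
  refine Fintype.sum_equiv (MulAut.conj g).toEquiv _ _ (fun σ => ?_)
  have e : (MulAut.conj g).toEquiv σ = g * σ * g⁻¹ := rfl
  rw [e]
  simp only [Fx.conj_iff, mul_ite, ite_mul, mul_zero, zero_mul, map_mul, sg_conj, mul_smul_comm,
    smul_mul_assoc]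
  congr 2
  simp only [← map_mul]
  congr 1
  group

lemma Rw_map {B' : Type*} [Ring B'] [Algebra ℚ B'] (f : B →ₐ[ℚ] B') (ρ : Fin n → α) :
    f (Rw θ ρ) = Rw ((f : B →* B').comp θ) ρ := by
  classical
  rw [Rw, Rw, map_sum]
  refine Finset.sum_congr rfl (fun σ _ => ?_)
  split_ifs <;> simp

lemma Cw_map {B' : Type*} [Ring B'] [Algebra ℚ B'] (f : B →ₐ[ℚ] B') (γ : Fin n → α) :
    f (Cw θ γ) = Cw ((f : B →* B').comp θ) γ := by
  classical
  rw [Cw, Cw, map_sum]
  refine Finset.sum_congr rfl (fun σ _ => ?_)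
  split_ifs <;> simp

lemma Rw_congr {ρ : Fin n → α} {ρ' : Fin n → β} (h : ∀ i k, ρ i = ρ k ↔ ρ' i = ρ' k) :
    Rw θ ρ = Rw θ ρ' := by
  classical
  rw [Rw, Rw]
  refine Finset.sum_congr rfl (fun σ _ => ?_)
  have : Fx ρ σ ↔ Fx ρ' σ := forall_congr' fun i => h _ _
  simp only [this]

lemma Cw_congr {γ : Fin n → α} {γ' : Fin n → β} (h : ∀ i k, γ i = γ k ↔ γ' i = γ' k) :
    Cw θ γ = Cw θ γ' := by
  classical
  rw [Cw, Cw]
  refine Finset.sum_congr rfl (fun σ _ => ?_)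
  have : Fx γ σ ↔ Fx γ' σ := forall_congr' fun i => h _ _
  simp only [this]

/-- Two positions in the same row for the row sum and in the same column for the column sum. -/
lemma Cw_Rw_zero {ρ : Fin n → α} {γ : Fin n → β} {a b : Fin n} (hab : a ≠ b) (h1 : ρ a = ρ b)
    (h2 : γ a = γ b) : Cw θ γ * Rw θ ρ = 0 := by
  have e1 : Cw θ γ * θ (swap a b) = (-1 : ℚ) • Cw θ γ := by
    rw [Cw_mul (Fx.swap_of h2), sg_swap hab]
  have e2 : θ (swap a b) * Rw θ ρ = Rw θ ρ := mul_Rw (Fx.swap_of h1)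
  have e3 : Cw θ γ * Rw θ ρ = (-1 : ℚ) • (Cw θ γ * Rw θ ρ) := by
    conv_lhs => rw [← e2, ← mul_assoc, e1, smul_mul_assoc]
  have e4 : (2 : ℚ) • (Cw θ γ * Rw θ ρ) = 0 := by
    rw [two_smul]
    nth_rewrite 1 [e3]
    rw [neg_one_smul, neg_add_cancel]
  have := congrArg (fun x => (2 : ℚ)⁻¹ • x) e4
  simpa [smul_smul] using this

/-- A permutation between the row sum and the column sum which maps two positions of the same
column to the same row. -/
lemma Rw_mul_Cw_zero {ρ : Fin n → α} {γ : Fin n → β} {g : Perm (Fin n)} {a b : Fin n}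
    (hab : a ≠ b) (h1 : ρ (g a) = ρ (g b)) (h2 : γ a = γ b) : Rw θ ρ * θ g * Cw θ γ = 0 := by
  have e1 : θ (swap a b) * Cw θ γ = (-1 : ℚ) • Cw θ γ := by
    rw [mul_Cw (Fx.swap_of h2), sg_swap hab]
  have e2 : Rw θ ρ * θ (swap (g a) (g b)) = Rw θ ρ := Rw_mul (Fx.swap_of h1)
  have e0 : θ (swap (g a) (g b)) * θ g = θ g * θ (swap a b) := by
    rw [← map_mul, ← map_mul, swap_apply_apply]
    simp [mul_assoc]
  have e3 : Rw θ ρ * θ g * Cw θ γ = (-1 : ℚ) • (Rw θ ρ * θ g * Cw θ γ) := by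
    conv_lhs => rw [← e2, mul_assoc (Rw θ ρ), e0, ← mul_assoc, mul_assoc _ (θ (swap a b)), e1,
      mul_smul_comm]
  have e4 : (2 : ℚ) • (Rw θ ρ * θ g * Cw θ γ) = 0 := by
    rw [two_smul]
    nth_rewrite 1 [e3]
    rw [neg_one_smul, neg_add_cancel]
  have := congrArg (fun x => (2 : ℚ)⁻¹ • x) e4
  simpa [smul_smul] using this

end

/-! ### The decompositions along the newest position -/

lemma exsw_bij (n : ℕ) : Function.Bijective
    (fun x : Fin (n + 1) × Perm (Fin n) => ex x.2 * swap 0 x.1) := by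
  have h1 : Function.Injective
      (fun x : Fin (n + 1) × Perm (Fin n) => ex x.2 * swap 0 x.1) := by
    rintro ⟨p, e⟩ ⟨q, f⟩ h
    simp only at h
    have h2 : p = q := by
      have h3 := congrArg (fun τ : Perm (Fin (n + 1)) => τ⁻¹ 0) h
      have h4 : ∀ (r : Fin (n + 1)) (g : Perm (Fin n)), (ex g * swap 0 r)⁻¹ 0 = r := by
        intro r g
        rw [Perm.inv_eq_iff_eq, Perm.mul_apply, swap_apply_right, ex_zero]
      simpa only [h4] using h3
    subst h2
    have h5 := ex_inj (mul_right_cancel h)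
    rw [h5]
  refine (Fintype.bijective_iff_injective_and_card _).2 ⟨h1, ?_⟩
  rw [Fintype.card_prod, Fintype.card_fin, Fintype.card_perm, Fintype.card_perm, Fintype.card_fin,
    Fintype.card_fin, Nat.factorial_succ]

lemma swex_bij (n : ℕ) : Function.Bijective
    (fun x : Fin (n + 1) × Perm (Fin n) => swap 0 x.1 * ex x.2) := by
  have h1 : Function.Injective
      (fun x : Fin (n + 1) × Perm (Fin n) => swap 0 x.1 * ex x.2) := by
    rintro ⟨p, e⟩ ⟨q, f⟩ h
    simp only at h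
    have h2 : p = q := by
      have h3 := congrArg (fun τ : Perm (Fin (n + 1)) => τ 0) h
      have h4 : ∀ (r : Fin (n + 1)) (g : Perm (Fin n)), (swap 0 r * ex g) 0 = r := by
        intro r g
        rw [Perm.mul_apply, ex_zero, swap_apply_left]
      simpa only [h4] using h3
    subst h2
    have h5 := ex_inj (mul_left_cancel h)
    rw [h5]
  refine (Fintype.bijective_iff_injective_and_card _).2 ⟨h1, ?_⟩
  rw [Fintype.card_prod, Fintype.card_fin, Fintype.card_perm, Fintype.card_perm, Fintype.card_fin,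
    Fintype.card_fin, Nat.factorial_succ]

section

variable {n : ℕ} {α : Type*} {B B' : Type*} [Ring B] [Algebra ℚ B] [Ring B'] [Algebra ℚ B']
  (θ : Perm (Fin (n + 1)) →* B) (θ' : Perm (Fin n) →* B') (f : B' →ₐ[ℚ] B)

open Classical in
lemma Rw_succ (hf : ∀ e, θ (ex e) = f (θ' e)) (ρ : Fin (n + 1) → α) :
    Rw θ ρ = f (Rw θ' (ρ ∘ Fin.succ)) *
      (1 + ∑ i : Fin n, if ρ i.succ = ρ 0 then θ (swap 0 i.succ) else 0) := by
  have h1 : Rw θ ρ = ∑ x : Fin (n + 1) × Perm (Fin n),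
      (if Fx (ρ ∘ Fin.succ) x.2 then f (θ' x.2) else 0) *
        (if ρ x.1 = ρ 0 then θ (swap 0 x.1) else 0) := by
    rw [Rw]
    refine (Fintype.sum_bijective _ (exsw_bij n) _ _ (fun x => ?_)).symm
    simp only [Fx.ex_swap_iff]
    by_cases h2 : Fx (ρ ∘ Fin.succ) x.2 <;> by_cases h3 : ρ x.1 = ρ 0 <;>
      simp [h2, h3, hf]
  rw [h1, Fintype.sum_prod_type, Finset.sum_comm]
  refine (Finset.sum_mul_sum Finset.univ Finset.univ
    (fun e => if Fx (ρ ∘ Fin.succ) e then f (θ' e) else 0)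
    (fun p => if ρ p = ρ 0 then θ (swap 0 p) else 0)).symm.trans ?_
  congr 1
  · rw [Rw, map_sum]
    refine Finset.sum_congr rfl (fun e _ => ?_)
    split_ifs <;> simp
  · rw [Fin.sum_univ_succ, swap_self, ← Perm.one_def]
    simp

open Classical in
lemma Cw_succ (hf : ∀ e, θ (ex e) = f (θ' e)) (γ : Fin (n + 1) → α) :
    Cw θ γ = (1 - ∑ i : Fin n, if γ i.succ = γ 0 then θ (swap 0 i.succ) else 0) *
      f (Cw θ' (γ ∘ Fin.succ)) := by
  have h1 : Cw θ γ = ∑ x : Fin (n + 1) × Perm (Fin n),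
        (if γ x.1 = γ 0 then sg (swap 0 x.1) • θ (swap 0 x.1) else 0) *
      (if Fx (γ ∘ Fin.succ) x.2 then sg x.2 • f (θ' x.2) else 0) := by
    rw [Cw]
    refine (Fintype.sum_bijective _ (swex_bij n) _ _ (fun x => ?_)).symm
    simp only [Fx.swap_ex_iff]
    by_cases h2 : Fx (γ ∘ Fin.succ) x.2 <;> by_cases h3 : γ x.1 = γ 0 <;>
      simp [h2, h3, hf, sg_mul, sg_ex, smul_smul, mul_comm]
  rw [h1, Fintype.sum_prod_type]
  refine (Finset.sum_mul_sum Finset.univ Finset.univ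
    (fun p => if γ p = γ 0 then sg (swap 0 p) • θ (swap 0 p) else 0)
    (fun e => if Fx (γ ∘ Fin.succ) e then sg e • f (θ' e) else 0)).symm.trans ?_
  congr 1
  · rw [Fin.sum_univ_succ, sub_eq_add_neg, ← Finset.sum_neg_distrib, swap_self, ← Perm.one_def]
    congr 1
    · simp
    · refine Finset.sum_congr rfl (fun i _ => ?_)
      rw [sg_swap (Fin.succ_ne_zero i).symm]
      split_ifs <;> simp
  · rw [Cw, map_sum]
    refine Finset.sum_congr rfl (fun e _ => ?_)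
    split_ifs <;> simp

end

end Pool.Agent.V8H87.GG
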