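import Pool.Agent.V8H87.GG.Alg
import Pool.Agent.Y112.KD.Zip
import Pool.Agent.N64.AF.P1

/-!
# Tensor products of Kimura finite objects
-/

set_option autoImplicit false
set_option linter.unusedSectionVars false

open CategoryTheory Limits MonoidalCategory Module Equiv
open Pool.Agent.Y112.SR Pool.Agent.Y112.KD Pool.Agent.N64.AF Pool.Agent.R905
open Pool.Agent.Y116.MT (tr)

namespace Pool.Agent.V8H87.GG

universe v u w

section

variable {C : Type u} [Category.{v} C] [MonoidalCategory C] [SymmetricCategory C]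

lemma zip_iso (A B : C) (n : ℕ) : ∃ u : tp A n ⊗ tp B n ⟶ tp (A ⊗ B) n,
    u ≫ zip A B n = 𝟙 _ ∧ zip A B n ≫ u = 𝟙 _ := by
  induction n with
  | zero => exact ⟨(λ_ (𝟙_ C)).hom, by simp [zip], by simp [zip]⟩
  | succ n ih =>
    obtain ⟨u, hu, hu'⟩ := ih
    refine ⟨tensorδ (tp A n) (tp B n) A B ≫ u ▷ (A ⊗ B), ?_, ?_⟩
    · rw [zip_succ, Category.assoc, ← comp_whiskerRight_assoc, hu]
      simp
    · rw [zip_succ, Category.assoc, tensorμ_tensorδ_assoc, ← comp_whiskerRight, hu']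
      simp

end

section

variable {C : Type u} [Category.{v} C] [MonoidalCategory C] [SymmetricCategory C]
  [Preadditive C] [Linear ℚ C] [MonoidalPreadditive C] [MonoidalLinear ℚ C]
  [RightRigidCategory C] {K : Type w} [Field K] (R : SuperRealisation C K) (hU : UnitQ C)

/-- The tensor product of endomorphisms as a bilinear map. -/
def tenL (A B : C) : End A →ₗ[ℚ] End B →ₗ[ℚ] End (A ⊗ B) :=
  LinearMap.mk₂ ℚ (fun a b => ((a : A ⟶ A) ⊗ₘ (b : B ⟶ B) : A ⊗ B ⟶ A ⊗ B))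
    (fun a a' b => MonoidalPreadditive.add_tensor (f := (a : A ⟶ A)) (g := a') (h := b))
    (fun c a b => by
      change (c • (a : A ⟶ A)) ⊗ₘ (b : B ⟶ B) = _
      rw [MonoidalCategory.tensorHom_def, MonoidalLinear.smul_whiskerRight, Linear.smul_comp,
        ← MonoidalCategory.tensorHom_def])
    (fun a b b' => MonoidalPreadditive.tensor_add (f := (a : A ⟶ A)) (g := b) (h := b'))
    (fun c a b => by
      change (a : A ⟶ A) ⊗ₘ (c • (b : B ⟶ B)) = _
      rw [MonoidalCategory.tensorHom_def, MonoidalLinear.whiskerLeft_smul, Linear.comp_smul,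
        ← MonoidalCategory.tensorHom_def])

/-- Permutations of the factors of the power of a tensor product. -/
lemma closure_ten (A B : C) (n : ℕ) (w : End (tp (A ⊗ B) n))
    (hw : w ∈ Submonoid.closure {s : End (tp (A ⊗ B) n) | IsSwap (A ⊗ B) n s}) :
    ∃ (x : End (tp A n)) (y : End (tp B n)), x ∈ permAlg A n ∧ y ∈ permAlg B n ∧
      (w : tp (A ⊗ B) n ⟶ tp (A ⊗ B) n) ≫ zip A B n =
        zip A B n ≫ ((x : tp A n ⟶ tp A n) ⊗ₘ (y : tp B n ⟶ tp B n)) := by
  induction hw using Submonoid.closure_induction with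
  | mem s hs =>
    obtain ⟨s', s'', h1, h2, h3⟩ := zip_swap A B hs
    exact ⟨s', s'', Algebra.subset_adjoin h1, Algebra.subset_adjoin h2, h3⟩
  | one =>
    refine ⟨1, 1, Subalgebra.one_mem _, Subalgebra.one_mem _, ?_⟩
    change 𝟙 _ ≫ _ = _ ≫ (𝟙 _ ⊗ₘ 𝟙 _)
    simp
  | mul x y _ _ hx hy =>
    obtain ⟨x1, x2, h1, h2, h3⟩ := hx
    obtain ⟨y1, y2, h4, h5, h6⟩ := hy
    refine ⟨x1 * y1, x2 * y2, Subalgebra.mul_mem _ h1 h4, Subalgebra.mul_mem _ h2 h5, ?_⟩
    rw [End.mul_def, End.mul_def, End.mul_def, Category.assoc, h3, ← Category.assoc, h6,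
      Category.assoc, tensorHom_comp_tensorHom]

include R hU in
lemma finite_permAlg (M : C) (n : ℕ) : Module.Finite ℚ (permAlg M n) := by
  have h1 : Module.Finite ℚ (Subalgebra.toSubmodule (permAlg M n)) := by
    rw [permAlg_eq R hU]
    exact Module.Finite.span_of_finite ℚ (Set.finite_range _)
  exact h1

include R hU in
/-- The dimensions are submultiplicative. -/
lemma finrank_ten (A B : C) (n : ℕ) : finrank ℚ (permAlg (A ⊗ B) n) ≤
    finrank ℚ (permAlg A n) * finrank ℚ (permAlg B n) := by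
  have f1 := finite_permAlg R hU A n
  have f2 := finite_permAlg R hU B n
  obtain ⟨u, hu, hu'⟩ := zip_iso A B n
  let Ψ : End (tp A n ⊗ tp B n) →ₗ[ℚ] End (tp (A ⊗ B) n) :=
    (Linear.rightComp ℚ (tp (A ⊗ B) n) u) ∘ₗ (Linear.leftComp ℚ (tp A n ⊗ tp B n) (zip A B n))
  let Φ : TensorProduct ℚ (permAlg A n) (permAlg B n) →ₗ[ℚ] End (tp (A ⊗ B) n) :=
    Ψ ∘ₗ TensorProduct.lift ((tenL (tp A n) (tp B n)).compl₁₂
      (Subalgebra.toSubmodule (permAlg A n)).subtype
      (Subalgebra.toSubmodule (permAlg B n)).subtype)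
  have h1 : Subalgebra.toSubmodule (permAlg (A ⊗ B) n) ≤ LinearMap.range Φ := by
    rw [permAlg, Algebra.adjoin_eq_span, Submodule.span_le]
    intro w hw
    obtain ⟨x, y, hx, hy, h2⟩ := closure_ten A B n w hw
    refine ⟨(⟨x, hx⟩ : permAlg A n) ⊗ₜ[ℚ] (⟨y, hy⟩ : permAlg B n), ?_⟩
    change (zip A B n ≫ ((x : tp A n ⟶ tp A n) ⊗ₘ (y : tp B n ⟶ tp B n))) ≫ u = w
    rw [← h2, Category.assoc, hu', Category.comp_id]
  have h2 := Submodule.finrank_mono h1
  have h3 := LinearMap.finrank_range_le Φ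
  rw [Module.finrank_tensorProduct] at h3
  exact h2.trans h3

include R hU in
lemma isReal_of [Algebra ℚ K] : IsReal ℚ R where
  unit := hU.ex
  lin a f := by
    have hc := R_charZero R
    rw [R_smul R a f]
    congr 1
    exact (eq_ratCast (algebraMap ℚ K) a).symm

include R hU in
/-- Tensor products of Kimura finite objects are Kimura finite (a theorem of Kimura). -/
theorem kimura_tensor [IsIdempotentComplete C] {M N : C} (hM : IsKimuraFinite M)
    (hN : IsKimuraFinite N) : IsKimuraFinite (M ⊗ N) := by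
  have hc := R_charZero R
  let _ : Algebra ℚ K := DivisionRing.toRatAlgebra
  have hR := isReal_of R hU
  have h1 := cplus_tensor hR (hM.cplus R) (hN.cplus R)
  by_contra h2
  obtain ⟨n0, h3⟩ := (growth_gap R hU (M ⊗ N)).2 h1 h2 (bt R (M ⊗ N) + 1) (by positivity)
    (by linarith)
  have h4 := h3 (n0 + 1) (Nat.le_succ _)
  have h5 : finrank ℚ (permAlg (M ⊗ N) (n0 + 1)) ≤ bt R (M ⊗ N) ^ (2 * (n0 + 1)) := by
    refine (finrank_ten R hU M N (n0 + 1)).trans ?_
    rw [bt_tensor, mul_pow]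
    exact Nat.mul_le_mul (((growth_gap R hU M).1 hM).2 _) (((growth_gap R hU N).1 hN).2 _)
  have h6 : (finrank ℚ (permAlg (M ⊗ N) (n0 + 1)) : ℝ) ≤ (bt R (M ⊗ N) : ℝ) ^ (2 * (n0 + 1)) := by
    exact_mod_cast h5
  have h7 : (bt R (M ⊗ N) : ℝ) ^ (2 * (n0 + 1)) < (bt R (M ⊗ N) + 1 : ℝ) ^ (2 * (n0 + 1)) :=
    pow_lt_pow_left₀ (by linarith) (Nat.cast_nonneg _) (by omega)
  linarith

lemma kimura_unit : IsKimuraFinite (𝟙_ C) := by
  refine ⟨𝟙 _, by simp, ⟨2, ?_⟩, 1, ?_⟩
  · intro Z h hs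
    have h1 : sw (tp (𝟙_ C) 0) (𝟙_ C) = 𝟙 _ := by
      simp only [sw]
      have : (β_ (𝟙_ C) (𝟙_ C)).hom = 𝟙 _ := by
        rw [braiding_tensorUnit_left, unitors_equal, Iso.hom_inv_id]
      rw [this]
      simp
    have h2 := hs _ (IsSwap.last 0)
    rw [h1, Category.id_comp, neg_smul, one_smul] at h2
    have h3 : (2 : ℚ) • h = 0 := by
      rw [two_smul]
      nth_rewrite 1 [h2]
      exact neg_add_cancel h
    have h4 : h = 0 := (smul_eq_zero.1 h3).resolve_left two_ne_zero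
    rw [h4, comp_zero]
  · intro Z h _
    have h1 : tpm (𝟙 (𝟙_ C) - 𝟙 (𝟙_ C)) 1 = 0 := by
      rw [sub_self]
      change (tpm (0 : 𝟙_ C ⟶ 𝟙_ C) 0 ⊗ₘ (0 : 𝟙_ C ⟶ 𝟙_ C)) = 0
      rw [MonoidalCategory.tensorHom_def]
      simp
    rw [h1, zero_comp]

include R hU in
/-- The tensor powers of a Kimura finite object are Kimura finite. -/
theorem kimura_tp [IsIdempotentComplete C] {M : C} (hM : IsKimuraFinite M) :
    ∀ n, IsKimuraFinite (tp M n)
  | 0 => kimura_unit
  | n + 1 => kimura_tensor R hU (kimura_tp hM n) hM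

end

end Pool.Agent.V8H87.GG
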