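import Pool.Agent.V8H87.GG.Sym

/-!
# Towers of algebras with partial traces

The algebras `A n` stand for the endomorphism algebras of the tensor powers `M ^ n` of an object `M`
of a tensor category, and `E` for the endomorphism algebra of `M`. The position `0` is the last
tensor factor.
-/

set_option autoImplicit false
set_option linter.unusedSectionVars false

open Equiv Equiv.Perm

namespace Pool.Agent.V8H87.GG

/-- The structure on the endomorphism algebras of the tensor powers of an object. -/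
structure TT (A : ℕ → Type*) [∀ n, Ring (A n)] [∀ n, Algebra ℚ (A n)] (E : Type*) [Ring E]
    [Algebra ℚ E] where
  /-- the inclusions -/
  ι : ∀ n, A n →ₐ[ℚ] A (n + 1)
  /-- the exchange of the two newest factors -/
  s : ∀ n, A (n + 2)
  s_sq : ∀ n, s n * s n = 1
  s_comm : ∀ n (a : A n), s n * ι (n + 1) (ι n a) = ι (n + 1) (ι n a) * s n
  braid : ∀ n, s (n + 1) * ι (n + 2) (s n) * s (n + 1) =
    ι (n + 2) (s n) * s (n + 1) * ι (n + 2) (s n)
  /-- the partial trace over the newest factor -/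
  pt : ∀ n, A (n + 1) →ₗ[ℚ] A n
  pt_left : ∀ n (a : A n) (x : A (n + 1)), pt n (ι n a * x) = a * pt n x
  pt_right : ∀ n (a : A n) (x : A (n + 1)), pt n (x * ι n a) = pt n x * a
  pt_s : ∀ n, pt (n + 1) (s n) = 1
  /-- the operators on the newest factor -/
  j : ∀ n, E →ₐ[ℚ] A (n + 1)
  /-- the trace -/
  trE : E →ₗ[ℚ] ℚ
  pt_j : ∀ n (y : E), pt n (j n y) = trE y • (1 : A n)
  j_comm : ∀ n (a : A n) (y : E), ι n a * j n y = j n y * ι n a
  s_j : ∀ n (y : E), s n * j (n + 1) y = ι (n + 1) (j n y) * s n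
  /-- the trace on the tensor powers -/
  tr : ∀ n, A n →ₗ[ℚ] ℚ
  tr_one : tr 0 1 = 1
  tr_pt : ∀ n (x : A (n + 1)), tr n (pt n x) = tr (n + 1) x
  tr_comm : ∀ n (x y : A n), tr n (x * y) = tr n (y * x)
  /-- the partial trace over all factors but the newest -/
  lp : ∀ n, A (n + 1) →ₗ[ℚ] E
  lp_j : ∀ n (a : A n) (y : E), lp n (ι n a * j n y) = tr n a • y
  lp_comm : ∀ n (a : A n) (x : A (n + 1)), lp n (ι n a * x) = lp n (x * ι n a)
  lp_left : ∀ n (y : E) (x : A (n + 1)), lp n (j n y * x) = y * lp n x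
  trE_lp : ∀ n (x : A (n + 1)), trE (lp n x) = tr (n + 1) x

namespace TT

variable {A : ℕ → Type*} [∀ n, Ring (A n)] [∀ n, Algebra ℚ (A n)] {E : Type*} [Ring E]
    [Algebra ℚ E] (T : TT A E)

/-- The underlying tower of monoids. -/
def P : PTower A where
  ι n := (T.ι n : A n →* A (n + 1))
  s := T.s
  s_sq := T.s_sq
  s_comm := T.s_comm
  braid := T.braid

/-- The action of the symmetric group. -/
def th (n : ℕ) : Perm (Fin n) →* A n := T.P.hom n

lemma th_ex {n : ℕ} (e : Perm (Fin n)) : T.th (n + 1) (ex e) = T.ι n (T.th n e) := T.P.hom_ex e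

lemma th_swap_one (n : ℕ) : T.th (n + 2) (swap 0 1) = T.s n := T.P.hom_swap_one n

lemma swap_conj {n : ℕ} (q : Fin (n + 1)) :
    swap 0 q.succ = ex (swap 0 q) * swap 0 1 * ex (swap 0 q) := by
  have h1 := swap_apply_apply (ex (swap 0 q)) 0 1
  have h2 : ex (swap 0 q) 1 = q.succ := by
    have : (1 : Fin (n + 2)) = Fin.succ 0 := rfl
    rw [this, ex_succ, swap_apply_left]
  rw [ex_zero, h2] at h1
  rw [h1]
  congr 1
  rw [ex_swap, swap_inv]

lemma pt_swap {n : ℕ} (i : Fin n) : T.pt n (T.th (n + 1) (swap 0 i.succ)) = 1 := by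
  rcases n with - | n
  · exact i.elim0
  · rw [swap_conj i, map_mul (T.th _), map_mul (T.th _), th_ex, th_swap_one, T.pt_right, T.pt_left,
      T.pt_s, mul_one, ← map_mul, swap_mul_self, map_one]

/-- The tensor product of endomorphisms. -/
def H : ∀ n, (Fin n → E) → A n
  | 0, _ => 1
  | n + 1, y => T.ι n (H n (y ∘ Fin.succ)) * T.j n (y 0)

lemma H_succ {n : ℕ} (y : Fin (n + 1) → E) :
    T.H (n + 1) y = T.ι n (T.H n (y ∘ Fin.succ)) * T.j n (y 0) := rfl

lemma H_one : ∀ n, T.H n 1 = 1
  | 0 => rfl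
  | n + 1 => by
    rw [H_succ]
    have : (1 : Fin (n + 1) → E) ∘ Fin.succ = 1 := rfl
    rw [this, H_one n, map_one, Pi.one_apply, map_one, one_mul]

lemma H_mul : ∀ (n : ℕ) (y z : Fin n → E), T.H n (y * z) = T.H n y * T.H n z
  | 0, _, _ => by simp [H]
  | n + 1, y, z => by
    have : (y * z) ∘ Fin.succ = (y ∘ Fin.succ) * (z ∘ Fin.succ) := rfl
    rw [H_succ, H_succ, H_succ, this, H_mul n, Pi.mul_apply, map_mul, map_mul]
    calc T.ι n (T.H n (y ∘ Fin.succ)) * T.ι n (T.H n (z ∘ Fin.succ)) *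
          (T.j n (y 0) * T.j n (z 0))
        = T.ι n (T.H n (y ∘ Fin.succ)) * (T.ι n (T.H n (z ∘ Fin.succ)) * T.j n (y 0)) *
          T.j n (z 0) := by simp only [mul_assoc]
      _ = _ := by rw [T.j_comm]; simp only [mul_assoc]

/-- The operator on one factor. -/
def X {n : ℕ} (k : Fin n) (y : E) : A n := T.H n (Pi.mulSingle k y)

lemma mulSingle_zero_comp {n : ℕ} (y : E) :
    (Pi.mulSingle (0 : Fin (n + 1)) y : Fin (n + 1) → E) ∘ Fin.succ = 1 := by
  funext i
  simp [Fin.succ_ne_zero]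

lemma mulSingle_succ_comp {n : ℕ} (k : Fin n) (y : E) :
    (Pi.mulSingle k.succ y : Fin (n + 1) → E) ∘ Fin.succ = Pi.mulSingle k y := by
  funext i
  simp [Pi.mulSingle_apply]

lemma X_zero {n : ℕ} (y : E) : T.X (0 : Fin (n + 1)) y = T.j n y := by
  rw [X, H_succ, mulSingle_zero_comp, H_one, map_one, one_mul, Pi.mulSingle_eq_same]

lemma X_succ {n : ℕ} (k : Fin n) (y : E) : T.X k.succ y = T.ι n (T.X k y) := by
  rw [X, H_succ, mulSingle_succ_comp, Pi.mulSingle_eq_of_ne (Fin.succ_ne_zero k).symm, map_one,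
    mul_one, X]

lemma s_j' (n : ℕ) (y : E) : T.s n * T.ι (n + 1) (T.j n y) = T.j (n + 1) y * T.s n := by
  have h := congrArg (fun x => T.s n * x * T.s n) (T.s_j n y)
  calc T.s n * T.ι (n + 1) (T.j n y) = T.s n * (T.ι (n + 1) (T.j n y) * T.s n) * T.s n := by
        rw [mul_assoc, mul_assoc, T.s_sq, mul_one]
    _ = T.s n * (T.s n * T.j (n + 1) y) * T.s n := h.symm
    _ = _ := by rw [← mul_assoc, T.s_sq, one_mul]

/-- Permutations permute the factors. -/
lemma th_H : ∀ {n : ℕ} (σ : Perm (Fin n)) (y : Fin n → E),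
    T.th n σ * T.H n y = T.H n (y ∘ ⇑(σ⁻¹)) * T.th n σ
  | 0, σ, y => by simp [H]
  | n + 1, σ, y => by
    have hex : ∀ (e : Perm (Fin n)) (y : Fin (n + 1) → E),
        T.th (n + 1) (ex e) * T.H (n + 1) y = T.H (n + 1) (y ∘ ⇑((ex e)⁻¹)) * T.th (n + 1) (ex e) := by
      intro e y
      have e1 : (ex e)⁻¹ = ex e⁻¹ := by
        rw [inv_eq_iff_mul_eq_one, ← ex_mul, mul_inv_cancel, ex_one]
      have e2 : (y ∘ ⇑((ex e)⁻¹)) ∘ Fin.succ = (y ∘ Fin.succ) ∘ ⇑(e⁻¹) := by
        rw [e1]; funext i; simp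
      have e3 : (y ∘ ⇑((ex e)⁻¹)) 0 = y 0 := by rw [e1]; simp
      rw [th_ex, H_succ, H_succ, e2, e3, ← mul_assoc, ← map_mul, th_H e, map_mul, mul_assoc,
        T.j_comm, ← mul_assoc]
    have hmul : ∀ σ τ : Perm (Fin (n + 1)),
        (∀ y, T.th (n + 1) σ * T.H (n + 1) y = T.H (n + 1) (y ∘ ⇑(σ⁻¹)) * T.th (n + 1) σ) →
        (∀ y, T.th (n + 1) τ * T.H (n + 1) y = T.H (n + 1) (y ∘ ⇑(τ⁻¹)) * T.th (n + 1) τ) →
        (∀ y, T.th (n + 1) (σ * τ) * T.H (n + 1) y =
          T.H (n + 1) (y ∘ ⇑((σ * τ)⁻¹)) * T.th (n + 1) (σ * τ)) := by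
      intro σ τ h1 h2 y
      rw [map_mul, mul_assoc, h2, ← mul_assoc, h1, mul_assoc, mul_inv_rev]
      rfl
    have hsw : ∀ (p : Fin (n + 1)) (y : Fin (n + 1) → E),
        T.th (n + 1) (swap 0 p) * T.H (n + 1) y =
          T.H (n + 1) (y ∘ ⇑((swap 0 p)⁻¹)) * T.th (n + 1) (swap 0 p) := by
      intro p
      refine Fin.cases ?_ (fun q => ?_) p
      · intro y
        rw [swap_self, ← Perm.one_def, map_one]
        simp
      · rcases n with - | n
        · exact q.elim0
        · rw [swap_conj q]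
          refine hmul _ _ (hmul _ _ (hex _) ?_) (hex _)
          intro y
          have e1 : (y ∘ ⇑((swap 0 1)⁻¹)) 0 = y 1 := by simp
          have e2 : ((y ∘ ⇑((swap (0 : Fin (n + 2)) 1)⁻¹)) ∘ Fin.succ) 0 = y 0 := by simp
          have e3 : ((y ∘ ⇑((swap (0 : Fin (n + 2)) 1)⁻¹)) ∘ Fin.succ) ∘ Fin.succ =
              (y ∘ Fin.succ) ∘ Fin.succ := by
            funext i
            simp only [Function.comp_apply, swap_inv]
            rw [swap_apply_of_ne_of_ne (Fin.succ_ne_zero _)]
            intro h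
            have : (1 : Fin (n + 2)) = Fin.succ 0 := rfl
            rw [this] at h
            exact Fin.succ_ne_zero _ (Fin.succ_injective _ h)
          rw [th_swap_one, H_succ, H_succ, H_succ, H_succ, e1, e2, e3, map_mul, map_mul]
          have e4 : (y ∘ Fin.succ) 0 = y 1 := rfl
          rw [e4]
          generalize T.H n ((y ∘ Fin.succ) ∘ Fin.succ) = a
          calc T.s n * (T.ι (n + 1) (T.ι n a) * T.ι (n + 1) (T.j n (y 1)) * T.j (n + 1) (y 0))
              = (T.s n * T.ι (n + 1) (T.ι n a)) * T.ι (n + 1) (T.j n (y 1)) *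
                T.j (n + 1) (y 0) := by
                simp only [mul_assoc]
            _ = T.ι (n + 1) (T.ι n a) * (T.s n * T.ι (n + 1) (T.j n (y 1))) *
                T.j (n + 1) (y 0) := by
                rw [T.s_comm]; simp only [mul_assoc]
            _ = T.ι (n + 1) (T.ι n a) * T.j (n + 1) (y 1) * (T.s n * T.j (n + 1) (y 0)) := by
                rw [T.s_j']; simp only [mul_assoc]
            _ = T.ι (n + 1) (T.ι n a) * (T.j (n + 1) (y 1) * T.ι (n + 1) (T.j n (y 0))) *
                T.s n := by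
                rw [T.s_j]; simp only [mul_assoc]
            _ = _ := by rw [← T.j_comm]; simp only [mul_assoc]
    rw [eq_swap_mul σ]
    exact hmul _ _ (hsw _) (hex _) y

lemma th_X {n : ℕ} (σ : Perm (Fin n)) (k : Fin n) (y : E) :
    T.th n σ * T.X k y = T.X (σ k) y * T.th n σ := by
  rw [X, th_H, X]
  congr 2
  funext i
  simp only [Function.comp_apply, Pi.mulSingle_apply]
  by_cases h : i = σ k
  · subst h; simp
  · rw [if_neg, if_neg h]
    rintro rfl
    exact h (by simp)

/-- Ideals which are stable under the inclusions. -/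
structure Nul where
  /-- the ideals -/
  N : ∀ n, Submodule ℚ (A n)
  left : ∀ n (a x : A n), x ∈ N n → a * x ∈ N n
  right : ∀ n (a x : A n), x ∈ N n → x * a ∈ N n
  up : ∀ n (x : A n), x ∈ N n → T.ι n x ∈ N (n + 1)

/-- The zero ideals. -/
def bot : T.Nul where
  N _ := ⊥
  left n a x h := by rw [Submodule.mem_bot] at h ⊢; rw [h, mul_zero]
  right n a x h := by rw [Submodule.mem_bot] at h ⊢; rw [h, zero_mul]
  up n x h := by rw [Submodule.mem_bot] at h ⊢; rw [h, map_zero]

/-- The radical of the trace forms. -/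
def rad : T.Nul where
  N n :=
    { carrier := {x | ∀ z, T.tr n (x * z) = 0}
      zero_mem' := fun z => by rw [zero_mul, map_zero]
      add_mem' := fun {a b} ha hb z => by rw [add_mul, map_add, ha z, hb z, add_zero]
      smul_mem' := fun c a ha z => by rw [smul_mul_assoc, map_smul, ha z, smul_zero] }
  left n a x h z := by
    rw [mul_assoc, T.tr_comm, mul_assoc]
    exact h _
  right n a x h z := by
    rw [mul_assoc]
    exact h _
  up n x h z := by
    rw [← T.tr_pt, T.pt_left]
    exact h _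

lemma mem_rad {n : ℕ} {x : A n} : x ∈ T.rad.N n ↔ ∀ z, T.tr n (x * z) = 0 := Iff.rfl

lemma tr_rad {n : ℕ} {x : A n} (h : x ∈ T.rad.N n) : T.tr n x = 0 := by
  have := h 1
  rwa [mul_one] at this

variable {T} (N : T.Nul)

/-- The endomorphism is zero modulo the ideals. -/
def NE (y : E) : Prop := ∀ n, T.j n y ∈ N.N (n + 1)

lemma rad_NE {y : E} (h : ∀ z, T.trE (y * z) = 0) : NE T.rad y := by
  intro n z
  rw [← T.trE_lp, T.lp_left]
  exact h _

lemma bot_NE {y : E} (h : y = 0) : NE T.bot y := by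
  intro n
  rw [h, map_zero]
  exact Submodule.zero_mem _

variable {N}

lemma X_H {n : ℕ} (y : Fin n → E) (k : Fin n) (z : E) :
    T.X k z * T.H n y = T.H n (Function.update y k (z * y k)) := by
  rw [X, ← H_mul]
  congr 1
  funext i
  by_cases h : i = k
  · subst h; simp
  · simp [Function.update_of_ne h, Pi.mulSingle_eq_of_ne h]

lemma update_succ_comp {n : ℕ} (y : Fin (n + 1) → E) (k : Fin n) (z : E) :
    (Function.update y k.succ z) ∘ Fin.succ = Function.update (y ∘ Fin.succ) k z := by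
  funext i
  by_cases h : i = k
  · subst h; simp
  · rw [Function.comp_apply, Function.update_of_ne (fun h' => h (Fin.succ_injective _ h')),
      Function.update_of_ne h, Function.comp_apply]

lemma update_zero_comp {n : ℕ} (y : Fin (n + 1) → E) (z : E) :
    (Function.update y 0 z) ∘ Fin.succ = y ∘ Fin.succ := by
  funext i
  simp [Fin.succ_ne_zero]

lemma H_update_sub : ∀ {n : ℕ} (y : Fin n → E) (k : Fin n) (z z' : E), NE N (z - z') →
    T.H n (Function.update y k z) - T.H n (Function.update y k z') ∈ N.N n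
  | 0, _, k, _, _, _ => k.elim0
  | n + 1, y, k, z, z', h => by
    revert k
    refine Fin.cases ?_ (fun k => ?_)
    · rw [H_succ, H_succ, update_zero_comp, update_zero_comp, Function.update_self,
        Function.update_self, ← mul_sub, ← map_sub]
      exact N.left _ _ _ (h n)
    · rw [H_succ, H_succ, update_succ_comp, update_succ_comp,
        Function.update_of_ne (Fin.succ_ne_zero k).symm,
        Function.update_of_ne (Fin.succ_ne_zero k).symm, ← sub_mul, ← map_sub]
      exact N.right _ _ _ (N.up _ _ (H_update_sub _ k z z' h))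

lemma X_H_sub {n : ℕ} (y : Fin n → E) (k : Fin n) (z : E) (h : NE N (z * y k - y k)) :
    T.X k z * T.H n y - T.H n y ∈ N.N n := by
  have h1 := H_update_sub (T := T) y k (z * y k) (y k) h
  rwa [Function.update_eq_self, ← X_H] at h1

lemma H_update_mem {n : ℕ} (y : Fin n → E) (k : Fin n) (z : E) (h : NE N z) :
    T.H n (Function.update y k z) ∈ N.N n := by
  have h1 := H_update_sub (T := T) y k z 0 (by rwa [sub_zero])
  have h2 : T.H n (Function.update y k 0) = 0 := by
    have h3 : ∀ {n : ℕ} (y : Fin n → E) (k : Fin n), y k = 0 → T.H n y = 0 := by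
      intro n
      induction n with
      | zero => intro y k; exact k.elim0
      | succ n ih =>
        intro y k
        refine Fin.cases ?_ (fun k => ?_) k
        · intro h
          rw [H_succ, h, map_zero, mul_zero]
        · intro h
          rw [H_succ, ih _ k h, map_zero, zero_mul]
    exact h3 _ k (by simp)
  rwa [h2, sub_zero] at h1

end TT

end Pool.Agent.V8H87.GG
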