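import Pool.Agent.V8H87.GG.Young

/-!
# Types, rectangles and the spectator argument
-/

set_option autoImplicit false
set_option linter.unusedSectionVars false

open Equiv Equiv.Perm

namespace Pool.Agent.V8H87.GG

namespace TT

variable {A : ℕ → Type*} [∀ n, Ring (A n)] [∀ n, Algebra ℚ (A n)] {E : Type*} [Ring E]
    [Algebra ℚ E] {T : TT A E} {ty : ℕ × ℕ → Bool} {p : Bool → E} {N : T.Nul} {α β : Type*}

lemma NE.smul_mem {y : E} (h : NE N y) (n : ℕ) : T.j n y ∈ N.N (n + 1) := h n

lemma H_sub : ∀ {n : ℕ} (y z : Fin n → E), (∀ i, NE N (y i - z i)) →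
    T.H n y - T.H n z ∈ N.N n
  | 0, y, z, _ => by
    have : T.H 0 y = T.H 0 z := rfl
    rw [this, sub_self]
    exact Submodule.zero_mem _
  | n + 1, y, z, h => by
    have h1 := H_sub (y ∘ Fin.succ) (z ∘ Fin.succ) (fun i => h i.succ)
    have h2 : T.H (n + 1) y - T.H (n + 1) z =
        T.ι n (T.H n (y ∘ Fin.succ)) * T.j n (y 0 - z 0) +
        T.ι n (T.H n (y ∘ Fin.succ) - T.H n (z ∘ Fin.succ)) * T.j n (z 0) := by
      rw [H_succ, H_succ, map_sub, map_sub]
      noncomm_ring
    rw [h2]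
    exact Submodule.add_mem _ (N.left _ _ _ (h 0 n)) (N.right _ _ _ (N.up _ _ h1))

/-- `p` is a pair of orthogonal idempotents modulo the ideals. -/
structure Idm (N : T.Nul) (p : Bool → E) : Prop where
  idem : ∀ b, NE N (p b * p b - p b)
  orth : ∀ b c, b ≠ c → NE N (p b * p c)

lemma HH (hp : Idm N p) {n : ℕ} (ε : Fin n → Bool) :
    T.H n (fun i => p (ε i)) * T.H n (fun i => p (ε i)) - T.H n (fun i => p (ε i)) ∈ N.N n := by
  rw [← H_mul]
  exact H_sub _ _ (fun i => hp.idem _)

open Classical in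
lemma HthH (hp : Idm N p) {n : ℕ} (ε : Fin n → Bool) (σ : Perm (Fin n)) :
    T.H n (fun i => p (ε i)) * T.th n σ * T.H n (fun i => p (ε i)) -
      (if Fx ε σ then T.th n σ * T.H n (fun i => p (ε i)) else 0) ∈ N.N n := by
  have h1 : T.H n (fun i => p (ε i)) * T.th n σ = T.th n σ * T.H n (fun i => p (ε (σ i))) := by
    rw [th_H]
    congr 2
    funext i
    simp
  rw [h1, mul_assoc, ← H_mul]
  split_ifs with h
  · have h2 : (fun i => p (ε (σ i))) = fun i => p (ε i) := by
      funext i; rw [h i]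
    rw [h2, ← mul_sub]
    exact N.left _ _ _ (H_sub _ _ (fun i => hp.idem _))
  · rw [sub_zero]
    obtain ⟨i, hi⟩ := not_forall.1 h
    refine N.left _ _ _ ?_
    have h3 := H_update_mem (T := T) (N := N) ((fun i => p (ε (σ i))) * (fun i => p (ε i))) i
      (((fun i => p (ε (σ i))) * (fun i => p (ε i))) i) (hp.orth _ _ hi)
    rwa [Function.update_eq_self] at h3

lemma HCH (hp : Idm N p) {n : ℕ} (ε : Fin n → Bool) (γ : Fin n → α) :
    T.H n (fun i => p (ε i)) * Cw (T.th n) γ * T.H n (fun i => p (ε i)) -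
      Cw (T.th n) (fun i => (γ i, ε i)) * T.H n (fun i => p (ε i)) ∈ N.N n := by
  classical
  have h1 : T.H n (fun i => p (ε i)) * Cw (T.th n) γ * T.H n (fun i => p (ε i)) -
      Cw (T.th n) (fun i => (γ i, ε i)) * T.H n (fun i => p (ε i)) =
      ∑ σ : Perm (Fin n), if Fx γ σ then sg σ • (T.H n (fun i => p (ε i)) * T.th n σ *
        T.H n (fun i => p (ε i)) - (if Fx ε σ then T.th n σ * T.H n (fun i => p (ε i)) else 0))
        else 0 := by
    rw [Cw, Cw, Finset.mul_sum, Finset.sum_mul, Finset.sum_mul, ← Finset.sum_sub_distrib]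
    refine Finset.sum_congr rfl (fun σ _ => ?_)
    have h2 : Fx (fun i => (γ i, ε i)) σ ↔ Fx γ σ ∧ Fx ε σ := by
      simp only [Fx, Prod.mk.injEq, forall_and]
    by_cases ha : Fx γ σ <;> by_cases hb : Fx ε σ <;>
      simp [h2, ha, hb, smul_sub, mul_assoc]
  rw [h1]
  refine Submodule.sum_mem _ (fun σ _ => ?_)
  split_ifs
  · exact Submodule.smul_mem _ _ (by convert HthH hp ε σ using 2; simp [*])
  · exact Submodule.smul_mem _ _ (by convert HthH hp ε σ using 2; simp [*])
  · exact Submodule.zero_mem _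

lemma HRH (hp : Idm N p) {n : ℕ} (ε : Fin n → Bool) (ρ : Fin n → α) :
    T.H n (fun i => p (ε i)) * Rw (T.th n) ρ * T.H n (fun i => p (ε i)) -
      Rw (T.th n) (fun i => (ρ i, ε i)) * T.H n (fun i => p (ε i)) ∈ N.N n := by
  classical
  have h1 : T.H n (fun i => p (ε i)) * Rw (T.th n) ρ * T.H n (fun i => p (ε i)) -
      Rw (T.th n) (fun i => (ρ i, ε i)) * T.H n (fun i => p (ε i)) =
      ∑ σ : Perm (Fin n), if Fx ρ σ then (T.H n (fun i => p (ε i)) * T.th n σ *
        T.H n (fun i => p (ε i)) - (if Fx ε σ then T.th n σ * T.H n (fun i => p (ε i)) else 0))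
        else 0 := by
    rw [Rw, Rw, Finset.mul_sum, Finset.sum_mul, Finset.sum_mul, ← Finset.sum_sub_distrib]
    refine Finset.sum_congr rfl (fun σ _ => ?_)
    have h2 : Fx (fun i => (ρ i, ε i)) σ ↔ Fx ρ σ ∧ Fx ε σ := by
      simp only [Fx, Prod.mk.injEq, forall_and]
    by_cases ha : Fx ρ σ <;> by_cases hb : Fx ε σ <;>
      simp [h2, ha, hb, mul_assoc]
  rw [h1]
  refine Submodule.sum_mem _ (fun σ _ => ?_)
  split_ifs
  · exact (by convert HthH hp ε σ using 2; simp [*])
  · exact (by convert HthH hp ε σ using 2; simp [*])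
  · exact Submodule.zero_mem _

lemma th_H_comm {n : ℕ} {y : Fin n → E} {σ : Perm (Fin n)} (h : ∀ i, y (σ i) = y i) :
    T.th n σ * T.H n y = T.H n y * T.th n σ := by
  rw [th_H]
  congr 2
  funext i
  have := h (σ⁻¹ i)
  simpa using this.symm

lemma Rw_H {n : ℕ} {y : Fin n → E} {ρ : Fin n → α} (h : ∀ i k, ρ i = ρ k → y i = y k) :
    Rw (T.th n) ρ * T.H n y = T.H n y * Rw (T.th n) ρ := by
  classical
  rw [Rw, Finset.sum_mul, Finset.mul_sum]
  refine Finset.sum_congr rfl (fun σ _ => ?_)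
  split_ifs with hσ
  · exact th_H_comm (fun i => h _ _ (hσ i))
  · simp

lemma Cw_H {n : ℕ} {y : Fin n → E} {γ : Fin n → α} (h : ∀ i k, γ i = γ k → y i = y k) :
    Cw (T.th n) γ * T.H n y = T.H n y * Cw (T.th n) γ := by
  classical
  rw [Cw, Finset.sum_mul, Finset.mul_sum]
  refine Finset.sum_congr rfl (fun σ _ => ?_)
  split_ifs with hσ
  · rw [smul_mul_assoc, mul_smul_comm, th_H_comm (fun i => h _ _ (hσ i))]
  · simp

variable (T) in
/-- The Young symmetrizer of a labelling by boxes. -/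
noncomputable def RC {n : ℕ} (f : Fin n → ℕ × ℕ) : A n :=
  Rw (T.th n) (fun i => (f i).1) * Cw (T.th n) (fun i => (f i).2)

/-- The typed Young symmetrizer as a truncation of the Young symmetrizer. -/
theorem W_sub (hty : TyOk ty) (hp : Idm N p) {n : ℕ} (f : Fin n → ℕ × ℕ) :
    T.H n (fun i => p (ty (f i))) * T.RC f * T.H n (fun i => p (ty (f i))) - T.W ty p f
      ∈ N.N n := by
  set H := T.H n (fun i => p (ty (f i))) with hH
  rcases hty with ht | ht
  · have hrow : ∀ i k : Fin n, (f i).1 = (f k).1 → ty (f i) = ty (f k) := by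
      intro i k h
      have e1 : f i = ((f i).1, (f i).2) := rfl
      rw [e1, h]
      exact ht _ _ _
    have e1 : Rw (T.th n) (fun i => (f i).1) = Rw (T.th n) (rl ty f) :=
      Rw_congr (fun i k => ⟨fun h => by simp only [rl]; rw [h, hrow i k h],
        fun h => (Prod.mk.inj h).1⟩)
    have e2 : H * Rw (T.th n) (rl ty f) = Rw (T.th n) (rl ty f) * H :=
      (Rw_H (ρ := rl ty f) (y := fun i => p (ty (f i)))
        (fun i k h => congrArg p (Prod.mk.inj h).2)).symm
    have e3 : H * T.RC f * H - T.W ty p f = Rw (T.th n) (rl ty f) *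
        (H * Cw (T.th n) (fun i => (f i).2) * H -
          Cw (T.th n) (fun i => ((f i).2, ty (f i))) * H) := by
      rw [RC, e1, ← mul_assoc, e2, W, rch, ← hH, mul_sub]
      simp only [mul_assoc]
      rfl
    rw [e3]
    exact N.left _ _ _ (HCH hp (fun i => ty (f i)) (fun i => (f i).2))
  · have hcol : ∀ i k : Fin n, (f i).2 = (f k).2 → ty (f i) = ty (f k) := by
      intro i k h
      have e1 : f i = ((f i).1, (f i).2) := rfl
      rw [e1, h]
      exact ht _ _ _
    have e1 : Cw (T.th n) (fun i => (f i).2) = Cw (T.th n) (cl ty f) :=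
      Cw_congr (fun i k => ⟨fun h => by simp only [cl]; rw [h, hcol i k h],
        fun h => (Prod.mk.inj h).1⟩)
    have e2 : Cw (T.th n) (cl ty f) * H = H * Cw (T.th n) (cl ty f) :=
      Cw_H (γ := cl ty f) (y := fun i => p (ty (f i)))
        (fun i k h => congrArg p (Prod.mk.inj h).2)
    have e3 : H * T.RC f * H - T.W ty p f =
        (H * Rw (T.th n) (fun i => (f i).1) * H -
          Rw (T.th n) (fun i => ((f i).1, ty (f i))) * H) * Cw (T.th n) (cl ty f) := by
      rw [RC, e1, W, rch, ← hH, sub_mul, mul_assoc _ H (Cw (T.th n) (cl ty f)), ← e2,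
        mul_assoc _ H (Cw (T.th n) (cl ty f)), ← e2]
      simp only [mul_assoc]
      rfl
    rw [e3]
    exact N.right _ _ _ (HRH hp (fun i => ty (f i)) (fun i => (f i).1))

/-- The trace of the typed Young symmetrizer. -/
theorem tr_RC_H (hty : TyOk ty) (hp : Idm T.rad p) {n : ℕ} (f : Fin n → ℕ × ℕ) :
    T.tr n (T.RC f * T.H n (fun i => p (ty (f i)))) = T.tr n (T.W ty p f) := by
  set H := T.H n (fun i => p (ty (f i))) with hH
  have h1 := tr_rad T (W_sub hty hp f)
  have h2 := tr_rad T (T.rad.left _ (T.RC f) _ (HH hp (fun i => ty (f i))))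
  rw [← hH] at h1 h2
  rw [map_sub, sub_eq_zero, mul_assoc, T.tr_comm, mul_assoc] at h1
  rw [mul_sub, map_sub, sub_eq_zero] at h2
  rw [← h1, h2]

end TT

end Pool.Agent.V8H87.GG
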