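import Pool.Agent.V8H87.GG.Upper
import Pool.Agent.V8H87.GG.Kim
import Pool.Agent.R905.Div

/-!
# The upper bound for Kimura finite objects
-/

set_option autoImplicit false
set_option linter.unusedSectionVars false

open CategoryTheory Limits MonoidalCategory Module Equiv
open Pool.Agent.Y112.SR Pool.Agent.Y112.KD Pool.Agent.N64.AF Pool.Agent.R905
open Pool.Agent.Y116.MT (tr)

namespace Pool.Agent.V8H87.GG

universe v u w

lemma Rw_inj {n : ℕ} {α : Type*} {B : Type*} [Ring B] [Algebra ℚ B] (θ : Perm (Fin n) →* B)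
    (ρ : Fin n → α) (h : Function.Injective ρ) : Rw θ ρ = 1 := by
  classical
  rw [Rw, Finset.sum_eq_single 1, if_pos Fx.one, map_one]
  · intro σ _ hσ
    rw [if_neg]
    intro h1
    exact hσ (Equiv.ext (fun i => h (h1 i)))
  · intro h1
    exact absurd (Finset.mem_univ _) h1

lemma Cw_inj {n : ℕ} {α : Type*} {B : Type*} [Ring B] [Algebra ℚ B] (θ : Perm (Fin n) →* B)
    (ρ : Fin n → α) (h : Function.Injective ρ) : Cw θ ρ = 1 := by
  classical
  rw [Cw, Finset.sum_eq_single 1, if_pos Fx.one, map_one, sg_one, one_smul]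
  · intro σ _ hσ
    rw [if_neg]
    intro h1
    exact hσ (Equiv.ext (fun i => h (h1 i)))
  · intro h1
    exact absurd (Finset.mem_univ _) h1

namespace TT

variable {A : ℕ → Type*} [∀ n, Ring (A n)] [∀ n, Algebra ℚ (A n)] {E : Type*} [Ring E]
    [Algebra ℚ E] {T : TT A E}

lemma Cw_lower {e : E} (he : e * e = e) {m n : ℕ} (hm : T.trE e = m) (hmn : n ≠ m)
    (h : Cw (T.th (n + 1)) (fun _ => ()) * T.H (n + 1) (fun _ => e) = 0) :
    Cw (T.th n) (fun _ => ()) * T.H n (fun _ => e) = 0 := by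
  classical
  have h1 := pt_rch (T := T) (N := T.bot) (n := n) (fun i => i) (fun _ => ()) (fun _ => e)
    (fun _ _ _ => rfl) (fun _ _ _ => rfl) (bot_NE (by rw [he, sub_self]))
    (fun i h2 _ => Fin.succ_ne_zero i h2) (fun a b h2 _ => absurd h2 (Fin.succ_ne_zero a))
  have h2 : T.rch (fun i : Fin (n + 1) => i) (fun _ => ()) (fun _ => e) = 0 := by
    rw [rch, Rw_inj _ _ (fun _ _ h3 => h3), one_mul, h]
  have h3 : T.rch ((fun i : Fin (n + 1) => i) ∘ Fin.succ) ((fun _ => ()) ∘ Fin.succ)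
      ((fun _ => e) ∘ Fin.succ) = Cw (T.th n) (fun _ => ()) * T.H n (fun _ => e) := by
    rw [rch, Rw_inj _ ((fun i : Fin (n + 1) => i) ∘ Fin.succ) (Fin.succ_injective n), one_mul]
    rfl
  rw [h2, h3, map_zero, zero_sub] at h1
  have h4 := (Submodule.mem_bot ℚ).1 h1
  rw [neg_eq_zero] at h4
  refine (smul_eq_zero.1 h4).resolve_left ?_
  simp only [Fin.succ_ne_zero, if_false, Finset.sum_const_zero, add_zero, if_true,
    Finset.sum_const, Finset.card_univ, Fintype.card_fin, nsmul_eq_mul, mul_one, hm]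
  intro h5
  apply hmn
  have h6 : (m : ℚ) = n := by linarith
  exact_mod_cast h6.symm

lemma Rw_lower {e : E} (he : e * e = e) {m n : ℕ} (hm : T.trE e = -m) (hmn : n ≠ m)
    (h : Rw (T.th (n + 1)) (fun _ => ()) * T.H (n + 1) (fun _ => e) = 0) :
    Rw (T.th n) (fun _ => ()) * T.H n (fun _ => e) = 0 := by
  classical
  have h1 := pt_rch (T := T) (N := T.bot) (n := n) (fun _ => ()) (fun i => i) (fun _ => e)
    (fun _ _ _ => rfl) (fun _ _ _ => rfl) (bot_NE (by rw [he, sub_self]))
    (fun i _ h2 => Fin.succ_ne_zero i h2) (fun a b _ h2 => absurd h2 (Fin.succ_ne_zero b))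
  have h2 : T.rch (fun _ => ()) (fun i : Fin (n + 1) => i) (fun _ => e) = 0 := by
    rw [rch, Cw_inj _ _ (fun _ _ h3 => h3), mul_one, h]
  have h3 : T.rch ((fun _ => ()) ∘ Fin.succ) ((fun i : Fin (n + 1) => i) ∘ Fin.succ)
      ((fun _ => e) ∘ Fin.succ) = Rw (T.th n) (fun _ => ()) * T.H n (fun _ => e) := by
    rw [rch, Cw_inj _ ((fun i : Fin (n + 1) => i) ∘ Fin.succ) (Fin.succ_injective n), mul_one]
    rfl
  rw [h2, h3, map_zero, zero_sub] at h1
  have h4 := (Submodule.mem_bot ℚ).1 h1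
  rw [neg_eq_zero] at h4
  refine (smul_eq_zero.1 h4).resolve_left ?_
  simp only [Fin.succ_ne_zero, if_false, Finset.sum_const_zero, sub_zero, if_true,
    Finset.sum_const, Finset.card_univ, Fintype.card_fin, nsmul_eq_mul, mul_one, hm]
  intro h5
  apply hmn
  have h6 : (m : ℚ) = n := by linarith
  exact_mod_cast h6.symm

lemma Cw_to {e : E} (he : e * e = e) {m : ℕ} (hm : T.trE e = m) : ∀ k : ℕ,
    Cw (T.th k) (fun _ => ()) * T.H k (fun _ => e) = 0 →
    Cw (T.th (m + 1)) (fun _ => ()) * T.H (m + 1) (fun _ => e) = 0 := by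
  intro k h
  by_cases hk : k ≤ m + 1
  · obtain ⟨s, -, hs⟩ := Finset.exists_subset_card_eq (s := (Finset.univ : Finset (Fin (m + 1))))
      (n := k) (by simpa using hk)
    exact Cw_H_zero h s hs _ _ (fun _ _ _ _ => rfl) (fun _ _ => rfl)
  · obtain ⟨j, rfl⟩ : ∃ j, k = m + 1 + j := ⟨k - (m + 1), by omega⟩
    clear hk
    induction j with
    | zero => exact h
    | succ j ih => exact ih (Cw_lower he hm (by omega) h)

lemma Rw_to {e : E} (he : e * e = e) {m : ℕ} (hm : T.trE e = -m) : ∀ k : ℕ,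
    Rw (T.th k) (fun _ => ()) * T.H k (fun _ => e) = 0 →
    Rw (T.th (m + 1)) (fun _ => ()) * T.H (m + 1) (fun _ => e) = 0 := by
  intro k h
  by_cases hk : k ≤ m + 1
  · obtain ⟨s, -, hs⟩ := Finset.exists_subset_card_eq (s := (Finset.univ : Finset (Fin (m + 1))))
      (n := k) (by simpa using hk)
    exact Rw_H_zero h s hs _ _ (fun _ _ _ _ => rfl) (fun _ _ => rfl)
  · obtain ⟨j, rfl⟩ : ∃ j, k = m + 1 + j := ⟨k - (m + 1), by omega⟩
    clear hk
    induction j with
    | zero => exact h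
    | succ j ih => exact ih (Rw_lower he hm (by omega) h)

end TT

section

variable {C : Type u} [Category.{v} C] [MonoidalCategory C] [SymmetricCategory C]
  [Preadditive C] [Linear ℚ C] [MonoidalPreadditive C] [MonoidalLinear ℚ C]
  [RightRigidCategory C] {K : Type w} [Field K] (R : SuperRealisation C K) (hU : UnitQ C)

lemma isSwap_eq (M : C) : ∀ {n : ℕ} {s : tp M n ⟶ tp M n}, IsSwap M n s →
    ∃ a b : Fin n, a ≠ b ∧ s = pm R hU M n (swap a b) := by
  intro n s hs
  induction hs with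
  | last n =>
    refine ⟨0, 1, by simp, ?_⟩
    exact ((tower R hU M).th_swap_one n).symm
  | lift n s _ ih =>
    obtain ⟨a, b, hab, rfl⟩ := ih
    refine ⟨a.succ, b.succ, fun h => hab (Fin.succ_injective _ h), ?_⟩
    have h1 : pm R hU M (n + 1) (ex (swap a b)) =
        ((pm R hU M n (swap a b) : tp M n ⟶ tp M n) ▷ M) := (tower R hU M).th_ex _
    rw [← h1, ex_swap]

lemma Cw_of_vanishes {M : C} {e : End M} {n : ℕ} (h : PowerVanishes (-1) (e : M ⟶ M) n) :
    Cw ((tower R hU M).th n) (fun _ => ()) * (tower R hU M).H n (fun _ => e) = 0 := by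
  have h1 := h (tp M n) (hm (Cw ((tower R hU M).th n) (fun _ => ()))) (fun s hs => ?_)
  · rw [tpm_eq_H R hU] at h1
    exact h1
  · obtain ⟨a, b, hab, rfl⟩ := isSwap_eq R hU M hs
    have h2 := Cw_mul (θ := (tower R hU M).th n) (γ := fun _ => ()) (τ := swap a b)
      (fun _ => rfl)
    rw [sg_swap hab] at h2
    exact h2

lemma Rw_of_vanishes {M : C} {e : End M} {n : ℕ} (h : PowerVanishes 1 (e : M ⟶ M) n) :
    Rw ((tower R hU M).th n) (fun _ => ()) * (tower R hU M).H n (fun _ => e) = 0 := by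
  have h1 := h (tp M n) (hm (Rw ((tower R hU M).th n) (fun _ => ()))) (fun s hs => ?_)
  · rw [tpm_eq_H R hU] at h1
    exact h1
  · obtain ⟨a, b, hab, rfl⟩ := isSwap_eq R hU M hs
    have h2 := Rw_mul (θ := (tower R hU M).th n) (ρ := fun _ => ()) (τ := swap a b)
      (fun _ => rfl)
    rw [one_smul]
    exact h2

/-- **The upper bound.** -/
theorem upper [IsIdempotentComplete C] {M : C} (h : IsKimuraFinite M) (n : ℕ) :
    finrank ℚ (Submodule.span ℚ (Set.range (pm R hU M n))) ≤ bt R M ^ (2 * n) := by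
  have hc := R_charZero R
  obtain ⟨E, O, i, r, i', r', h1, h3, h5, ⟨a, ha⟩, b, hb⟩ := (isKimuraFinite_iff M).1 h
  obtain ⟨h6, h7⟩ := map_proj R i r i' r' ha hb
  have hE := R.finite E
  have hO := R.finite O
  have e1 : LinearMap.trace K _ (R.H.map (r ≫ i)).hom = bt R E := by
    rw [Functor.map_comp, ModuleCat.hom_comp, LinearMap.trace_comp_comm', ← ModuleCat.hom_comp,
      ← Functor.map_comp, h1, CategoryTheory.Functor.map_id, ModuleCat.hom_id, LinearMap.trace_id]
    rfl
  have e2 : LinearMap.trace K _ (R.H.map (r' ≫ i')).hom = bt R O := by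
    rw [Functor.map_comp, ModuleCat.hom_comp, LinearMap.trace_comp_comm', ← ModuleCat.hom_comp,
      ← Functor.map_comp, h3, CategoryTheory.Functor.map_id, ModuleCat.hom_id, LinearMap.trace_id]
    rfl
  have e3 : trq hU M (r ≫ i : End M) = bt R E := by
    have h8 := real_tr R hU (r ≫ i)
    rw [h6, e1] at h8
    exact_mod_cast h8
  have e4 : trq hU M (r' ≫ i' : End M) = -bt R O := by
    have h8 := real_tr R hU (r' ≫ i')
    rw [h7, ModuleCat.hom_neg, map_neg, e2] at h8
    exact_mod_cast h8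
  have e5 : bt R M = bt R E + bt R O := by
    have hM := R.finite M
    have h8 : LinearMap.trace K _ (R.H.map (r ≫ i + r' ≫ i')).hom = bt R E + bt R O := by
      rw [Functor.map_add, ModuleCat.hom_add, map_add, e1, e2]
    rw [h5, CategoryTheory.Functor.map_id, ModuleCat.hom_id, LinearMap.trace_id] at h8
    exact_mod_cast h8
  have e6 : (1 : End M) - en (r ≫ i) = en (r' ≫ i') := by
    have h7 : (1 : End M) = en (r ≫ i) + en (r' ≫ i') := h5.symm
    rw [h7]
    exact add_sub_cancel_left _ _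
  have he : en (r ≫ i) * en (r ≫ i) = en (r ≫ i) := by
    rw [End.mul_def]
    change (r ≫ i) ≫ r ≫ i = r ≫ i
    rw [Category.assoc, reassoc_of% h1]
  have he' : en (r' ≫ i') * en (r' ≫ i') = en (r' ≫ i') := by
    rw [End.mul_def]
    change (r' ≫ i') ≫ r' ≫ i' = r' ≫ i'
    rw [Category.assoc, reassoc_of% h3]
  have hC := TT.Cw_to (T := tower R hU M) (e := en (r ≫ i)) he (m := bt R E) e3 a
    (Cw_of_vanishes R hU ((powerVanishes_iff (by norm_num) i r h1 rfl a).2 ha))
  have hR := TT.Rw_to (T := tower R hU M) (e := en (r' ≫ i')) he' (m := bt R O) e4 b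
    (Rw_of_vanishes R hU ((powerVanishes_iff (by norm_num) i' r' h3 rfl b).2 hb))
  rw [← e6] at hR
  rw [e5]
  exact TT.finrank_le (T := tower R hU M) hC hR n

end

end Pool.Agent.V8H87.GG
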