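import Pool.Agent.V8H87.GG.Rect

/-!
# The upper bound for the dimension of the span of the permutations
-/

set_option autoImplicit false
set_option linter.unusedSectionVars false

open Equiv Equiv.Perm

namespace Pool.Agent.V8H87.GG

section

variable {n : ℕ} {α : Type*} {B B' : Type*} [Ring B] [Algebra ℚ B] [Ring B'] [Algebra ℚ B']
  (θ : Perm (Fin (n + 1)) →* B) (θ' : Perm (Fin n) →* B') (f : B' →ₐ[ℚ] B)

open Classical in
lemma Rw_succ' (hf : ∀ e, θ (ex e) = f (θ' e)) (γ : Fin (n + 1) → α) :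
    Rw θ γ = (1 + ∑ i : Fin n, if γ i.succ = γ 0 then θ (swap 0 i.succ) else 0) *
      f (Rw θ' (γ ∘ Fin.succ)) := by
  have h1 : Rw θ γ = ∑ x : Fin (n + 1) × Perm (Fin n),
        (if γ x.1 = γ 0 then θ (swap 0 x.1) else 0) *
      (if Fx (γ ∘ Fin.succ) x.2 then f (θ' x.2) else 0) := by
    rw [Rw]
    refine (Fintype.sum_bijective _ (swex_bij n) _ _ (fun x => ?_)).symm
    simp only [Fx.swap_ex_iff]
    by_cases h2 : Fx (γ ∘ Fin.succ) x.2 <;> by_cases h3 : γ x.1 = γ 0 <;>
      simp [h2, h3, hf]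
  rw [h1, Fintype.sum_prod_type]
  refine (Finset.sum_mul_sum Finset.univ Finset.univ
    (fun p => if γ p = γ 0 then θ (swap 0 p) else 0)
    (fun e => if Fx (γ ∘ Fin.succ) e then f (θ' e) else 0)).symm.trans ?_
  congr 1
  · rw [Fin.sum_univ_succ, swap_self, ← Perm.one_def]
    simp
  · rw [Rw, map_sum]
    refine Finset.sum_congr rfl (fun e _ => ?_)
    split_ifs <;> simp

end

namespace TT

variable {A : ℕ → Type*} [∀ n, Ring (A n)] [∀ n, Algebra ℚ (A n)] {E : Type*} [Ring E]
    [Algebra ℚ E] {T : TT A E} {α : Type*}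

/-- Vanishing for the labellings which are constant on the oldest positions. -/
lemma Cw_H_last {k : ℕ} {e : E}
    (h : Cw (T.th k) (fun _ => ()) * T.H k (fun _ => e) = 0) : ∀ (j : ℕ)
    (γ : Fin (k + j) → α) (y : Fin (k + j) → E),
    (∀ i i' : Fin (k + j), j ≤ (i : ℕ) → j ≤ (i' : ℕ) → γ i = γ i') →
    (∀ i : Fin (k + j), j ≤ (i : ℕ) → y i = e) → Cw (T.th (k + j)) γ * T.H (k + j) y = 0
  | 0, γ, y, hγ, hy => by
    have e1 : Cw (T.th k) γ = Cw (T.th k) (fun _ => ()) :=
      Cw_congr (fun i i' => by simp [hγ i i' (Nat.zero_le _) (Nat.zero_le _)])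
    have e2 : y = fun _ => e := funext (fun i => hy i (Nat.zero_le _))
    rw [e2]
    exact (congrArg (· * T.H k (fun _ => e)) e1).trans h
  | j + 1, γ, y, hγ, hy => by
    classical
    have h1 := Cw_H_last h j (γ ∘ Fin.succ) (y ∘ Fin.succ)
      (fun i i' hi hi' => hγ i.succ i'.succ (by simp; omega) (by simp; omega))
      (fun i hi => hy i.succ (by simp; omega))
    have h2 := Cw_succ (T.th (k + j + 1)) (T.th (k + j)) (T.ι (k + j)) T.th_ex γ
    change Cw (T.th (k + j + 1)) γ * T.H (k + j + 1) y = 0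
    rw [h2, H_succ, mul_assoc, ← mul_assoc (T.ι (k + j) _), ← map_mul, h1, map_zero, zero_mul,
      mul_zero]

lemma Rw_H_last {k : ℕ} {e : E}
    (h : Rw (T.th k) (fun _ => ()) * T.H k (fun _ => e) = 0) : ∀ (j : ℕ)
    (γ : Fin (k + j) → α) (y : Fin (k + j) → E),
    (∀ i i' : Fin (k + j), j ≤ (i : ℕ) → j ≤ (i' : ℕ) → γ i = γ i') →
    (∀ i : Fin (k + j), j ≤ (i : ℕ) → y i = e) → Rw (T.th (k + j)) γ * T.H (k + j) y = 0
  | 0, γ, y, hγ, hy => by
    have e1 : Rw (T.th k) γ = Rw (T.th k) (fun _ => ()) :=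
      Rw_congr (fun i i' => by simp [hγ i i' (Nat.zero_le _) (Nat.zero_le _)])
    have e2 : y = fun _ => e := funext (fun i => hy i (Nat.zero_le _))
    rw [e2]
    exact (congrArg (· * T.H k (fun _ => e)) e1).trans h
  | j + 1, γ, y, hγ, hy => by
    classical
    have h1 := Rw_H_last h j (γ ∘ Fin.succ) (y ∘ Fin.succ)
      (fun i i' hi hi' => hγ i.succ i'.succ (by simp; omega) (by simp; omega))
      (fun i hi => hy i.succ (by simp; omega))
    have h2 := Rw_succ' (T.th (k + j + 1)) (T.th (k + j)) (T.ι (k + j)) T.th_ex γ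
    change Rw (T.th (k + j + 1)) γ * T.H (k + j + 1) y = 0
    rw [h2, H_succ, mul_assoc, ← mul_assoc (T.ι (k + j) _), ← map_mul, h1, map_zero, zero_mul,
      mul_zero]

lemma H_conj {n : ℕ} (y : Fin n → E) (g : Perm (Fin n)) :
    T.H n (y ∘ g) = T.th n g⁻¹ * T.H n y * T.th n g := by
  have h1 := T.th_H g⁻¹ y
  rw [inv_inv] at h1
  rw [h1, mul_assoc, ← map_mul, inv_mul_cancel, map_one, mul_one]

/-- A permutation that maps the oldest positions to a given set. -/
lemma exists_move {k j : ℕ} (s : Finset (Fin (k + j))) (hs : s.card = k) :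
    ∃ g : Perm (Fin (k + j)), ∀ i : Fin (k + j), j ≤ (i : ℕ) → g i ∈ s := by
  classical
  have h1 : Fintype.card {i : Fin (k + j) // j ≤ (i : ℕ)} = Fintype.card {i // i ∈ s} := by
    rw [Fintype.card_coe, hs, Fintype.card_subtype]
    have h2 : (Finset.univ.filter (fun i : Fin (k + j) => j ≤ (i : ℕ))).card = k := by
      have h3 := Finset.card_filter_add_card_filter_not (s := (Finset.univ : Finset (Fin (k + j))))
        (fun i : Fin (k + j) => (i : ℕ) < j)
      have h4 : (Finset.univ.filter (fun i : Fin (k + j) => (i : ℕ) < j)).card = j := by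
        rw [Fin.card_filter_val_lt]
        omega
      rw [h4, Finset.card_univ, Fintype.card_fin] at h3
      have h5 : (Finset.univ.filter (fun i : Fin (k + j) => ¬ (i : ℕ) < j)) =
          Finset.univ.filter (fun i : Fin (k + j) => j ≤ (i : ℕ)) := by
        ext i; simp
      rw [h5] at h3
      omega
    exact h2
  let e := Fintype.equivOfCardEq h1
  refine ⟨e.extendSubtype, fun i hi => ?_⟩
  exact Equiv.extendSubtype_mem e i hi

lemma Cw_H_zero {k : ℕ} {e : E}
    (h : Cw (T.th k) (fun _ => ()) * T.H k (fun _ => e) = 0) {n : ℕ} (s : Finset (Fin n))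
    (hs : s.card = k) (γ : Fin n → α) (y : Fin n → E) (hγ : ∀ i ∈ s, ∀ i' ∈ s, γ i = γ i')
    (hy : ∀ i ∈ s, y i = e) : Cw (T.th n) γ * T.H n y = 0 := by
  obtain ⟨j, rfl⟩ : ∃ j, n = k + j := by
    have h1 := s.card_le_univ
    rw [Fintype.card_fin, hs] at h1
    exact ⟨n - k, by omega⟩
  obtain ⟨g, hg⟩ := exists_move s hs
  have h2 := Cw_H_last h j (γ ∘ g) (y ∘ g) (fun i i' hi hi' => hγ _ (hg i hi) _ (hg i' hi'))
    (fun i hi => hy _ (hg i hi))
  have e1 : T.th (k + j) g * T.th (k + j) g⁻¹ = 1 := by rw [← map_mul, mul_inv_cancel, map_one]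
  rw [Cw_conj, H_conj] at h2
  have h3 := congrArg (fun z => T.th (k + j) g * z * T.th (k + j) g⁻¹) h2
  simp only [mul_zero, zero_mul] at h3
  rw [← h3]
  calc Cw (T.th (k + j)) γ * T.H (k + j) y
      = 1 * Cw (T.th (k + j)) γ * 1 * T.H (k + j) y * 1 := by simp only [one_mul, mul_one]
    _ = (T.th (k + j) g * T.th (k + j) g⁻¹) * Cw (T.th (k + j)) γ *
        (T.th (k + j) g * T.th (k + j) g⁻¹) * T.H (k + j) y *
        (T.th (k + j) g * T.th (k + j) g⁻¹) := by rw [e1]
    _ = _ := by simp only [mul_assoc]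

lemma Rw_H_zero {k : ℕ} {e : E}
    (h : Rw (T.th k) (fun _ => ()) * T.H k (fun _ => e) = 0) {n : ℕ} (s : Finset (Fin n))
    (hs : s.card = k) (γ : Fin n → α) (y : Fin n → E) (hγ : ∀ i ∈ s, ∀ i' ∈ s, γ i = γ i')
    (hy : ∀ i ∈ s, y i = e) : Rw (T.th n) γ * T.H n y = 0 := by
  obtain ⟨j, rfl⟩ : ∃ j, n = k + j := by
    have h1 := s.card_le_univ
    rw [Fintype.card_fin, hs] at h1
    exact ⟨n - k, by omega⟩
  obtain ⟨g, hg⟩ := exists_move s hs
  have h2 := Rw_H_last h j (γ ∘ g) (y ∘ g) (fun i i' hi hi' => hγ _ (hg i hi) _ (hg i' hi'))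
    (fun i hi => hy _ (hg i hi))
  have e1 : T.th (k + j) g * T.th (k + j) g⁻¹ = 1 := by rw [← map_mul, mul_inv_cancel, map_one]
  rw [Rw_conj, H_conj] at h2
  have h3 := congrArg (fun z => T.th (k + j) g * z * T.th (k + j) g⁻¹) h2
  simp only [mul_zero, zero_mul] at h3
  rw [← h3]
  calc Rw (T.th (k + j)) γ * T.H (k + j) y
      = 1 * Rw (T.th (k + j)) γ * 1 * T.H (k + j) y * 1 := by simp only [one_mul, mul_one]
    _ = (T.th (k + j) g * T.th (k + j) g⁻¹) * Rw (T.th (k + j)) γ *
        (T.th (k + j) g * T.th (k + j) g⁻¹) * T.H (k + j) y *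
        (T.th (k + j) g * T.th (k + j) g⁻¹) := by rw [e1]
    _ = _ := by simp only [mul_assoc]

/-- The sum of the types is the identity. -/
lemma sum_H {e : E} : ∀ n : ℕ, ∑ ε : Fin n → Bool, T.H n (fun i => pr e (ε i)) = 1
  | 0 => by
    rw [Fintype.sum_unique]
    rfl
  | n + 1 => by
    have h1 : ∑ ε : Fin (n + 1) → Bool, T.H (n + 1) (fun i => pr e (ε i)) =
        ∑ x : Bool × (Fin n → Bool), T.ι n (T.H n (fun i => pr e (x.2 i))) *
          T.j n (pr e x.1) := by
      refine (Fintype.sum_equiv (Fin.consEquiv (fun _ => Bool)) _ _ (fun x => ?_)).symm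
      rw [H_succ]
      rfl
    rw [h1, Fintype.sum_prod_type]
    have h2 : ∀ b : Bool, ∑ ε : Fin n → Bool, T.ι n (T.H n (fun i => pr e (ε i))) *
        T.j n (pr e b) = T.j n (pr e b) := by
      intro b
      rw [← Finset.sum_mul, ← map_sum, sum_H n, map_one, one_mul]
    simp only [h2]
    rw [Fintype.sum_bool, ← map_add]
    have h3 : pr e true + pr e false = 1 := by simp [pr]
    rw [h3, map_one]

end TT

/-! ### Chains -/

section Chain

variable {n : ℕ} (σ : Perm (Fin n)) (ε : Fin n → Bool)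

/-- The step of a chain. -/
def Stp (i k : Fin n) : Prop :=
  i < k ∧ ε i = ε k ∧ (if ε k then σ k < σ i else σ i < σ k)

lemma Stp.trans {i k l : Fin n} (h : Stp σ ε i k) (h' : Stp σ ε k l) : Stp σ ε i l := by
  obtain ⟨h1, h2, h3⟩ := h
  obtain ⟨h4, h5, h6⟩ := h'
  refine ⟨h1.trans h4, h2.trans h5, ?_⟩
  rw [← h5] at h6 ⊢
  split_ifs at h3 h6 ⊢
  · exact h6.trans h3
  · exact h3.trans h6

/-- There is a chain of `t + 1` elements that ends at `k`. -/
def Ch : ℕ → Fin n → Prop
  | 0, _ => True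
  | t + 1, k => ∃ i, Stp σ ε i k ∧ Ch t i

lemma Ch.le : ∀ {t : ℕ} {k : Fin n}, Ch σ ε t k → t ≤ (k : ℕ)
  | 0, _, _ => Nat.zero_le _
  | t + 1, k, h => by
    obtain ⟨i, h1, h2⟩ := h
    have h3 := Ch.le h2
    have h4 : (i : ℕ) < k := h1.1
    omega

lemma Ch.exists_finset : ∀ {t : ℕ} {k : Fin n}, Ch σ ε t k → ∃ s : Finset (Fin n),
    s.card = t + 1 ∧ k ∈ s ∧ (∀ x ∈ s, x = k ∨ Stp σ ε x k) ∧
    (∀ x ∈ s, ∀ y ∈ s, x < y → Stp σ ε x y)
  | 0, k, _ => by
    refine ⟨{k}, by simp, by simp, by simp, ?_⟩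
    intro x hx y hy hxy
    rw [Finset.mem_singleton] at hx hy
    subst hx; subst hy
    exact absurd hxy (lt_irrefl _)
  | t + 1, k, h => by
    obtain ⟨i, h1, h2⟩ := h
    obtain ⟨s, h3, h4, h5, h6⟩ := Ch.exists_finset h2
    have h7 : ∀ x ∈ s, Stp σ ε x k := by
      intro x hx
      rcases h5 x hx with rfl | h8
      · exact h1
      · exact h8.trans _ _ h1
    have h8 : k ∉ s := fun h9 => absurd (h7 k h9).1 (lt_irrefl _)
    refine ⟨insert k s, by rw [Finset.card_insert_of_notMem h8, h3], Finset.mem_insert_self _ _,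
      ?_, ?_⟩
    · intro x hx
      rcases Finset.mem_insert.1 hx with rfl | hx
      · exact Or.inl rfl
      · exact Or.inr (h7 x hx)
    · intro x hx y hy hxy
      by_cases ey : y = k
      · by_cases ex : x = k
        · rw [ex, ey] at hxy
          exact absurd hxy (lt_irrefl _)
        · rw [ey]
          exact h7 x ((Finset.mem_insert.1 hx).resolve_left ex)
      · have hy' := (Finset.mem_insert.1 hy).resolve_left ey
        by_cases ex : x = k
        · rw [ex] at hxy
          exact absurd (hxy.trans (h7 y hy').1) (lt_irrefl _)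
        · exact h6 x ((Finset.mem_insert.1 hx).resolve_left ex) y hy' hxy

open Classical in
/-- The length of the longest chain that ends at `k`. -/
noncomputable def lc (k : Fin n) : ℕ := Nat.findGreatest (fun t => Ch σ ε t k) n

lemma lc_spec (k : Fin n) : Ch σ ε (lc σ ε k) k := by
  classical
  exact Nat.findGreatest_spec (P := fun t => Ch σ ε t k) (Nat.zero_le n) trivial

lemma lc_lt {i k : Fin n} (h : Stp σ ε i k) : lc σ ε i < lc σ ε k := by
  classical
  have h1 : Ch σ ε (lc σ ε i + 1) k := ⟨i, h, lc_spec σ ε i⟩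
  have h2 := h1.le
  have h3 : lc σ ε i + 1 ≤ n := by omega
  exact Nat.lt_of_succ_le (Nat.le_findGreatest h3 h1)

/-- The permutation has no long chains. -/
def Gd (m n' : ℕ) : Prop := ∀ k, (ε k = true → ¬ Ch σ ε m k) ∧ (ε k = false → ¬ Ch σ ε n' k)

lemma Ch.mono {t : ℕ} : ∀ {t' : ℕ} {k : Fin n}, t ≤ t' → Ch σ ε t' k → Ch σ ε t k := by
  induction t with
  | zero => intro _ _ _ _; trivial
  | succ t ih =>
    intro t' k ht h
    obtain ⟨t'', rfl⟩ : ∃ t'', t' = t'' + 1 := ⟨t' - 1, by omega⟩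
    obtain ⟨i, h1, h2⟩ := h
    exact ⟨i, h1, ih (by omega) h2⟩

variable {σ ε} in
/-- The colour of a position. -/
noncomputable def colr {m n' : ℕ} (h : Gd σ ε m n') (k : Fin n) : Fin m ⊕ Fin n' :=
  if hk : ε k = true then
    Sum.inl ⟨lc σ ε k, by
      by_contra hcon
      exact (h k).1 hk ((lc_spec σ ε k).mono _ _ (not_lt.1 hcon))⟩
  else
    Sum.inr ⟨lc σ ε k, by
      by_contra hcon
      exact (h k).2 (by simpa using hk) ((lc_spec σ ε k).mono _ _ (not_lt.1 hcon))⟩

variable {σ ε} in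
lemma colr_eq {m n' : ℕ} (h : Gd σ ε m n') {i k : Fin n} (hik : colr h i = colr h k) :
    ε i = ε k ∧ lc σ ε i = lc σ ε k := by
  unfold colr at hik
  split_ifs at hik with h1 h2 h2
  · rw [h1, h2]
    exact ⟨rfl, by simpa using hik⟩
  · simp only [Bool.not_eq_true] at h1 h2
    rw [h1, h2]
    exact ⟨rfl, by simpa using hik⟩

variable {σ ε} in
lemma colr_type {σ' : Perm (Fin n)} {ε' : Fin n → Bool} {m n' : ℕ} (h : Gd σ ε m n')
    (h' : Gd σ' ε' m n') {k : Fin n} (hk : colr h k = colr h' k) : ε k = ε' k := by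
  unfold colr at hk
  split_ifs at hk with h1 h2 h2
  · rw [h1, h2]
  · simp only [Bool.not_eq_true] at h1 h2
    rw [h1, h2]

variable {σ ε} in
/-- On the positions of one colour the permutation is monotone or antitone. -/
lemma colr_mono {m n' : ℕ} (h : Gd σ ε m n') {i k : Fin n} (hik : colr h i = colr h k)
    (hlt : i < k) : if ε k then σ i < σ k else σ k < σ i := by
  obtain ⟨h1, h2⟩ := colr_eq h hik
  have h3 : ¬ Stp σ ε i k := fun h4 => by
    have := lc_lt σ ε h4
    omega
  have h4 : σ i ≠ σ k := fun h5 => hlt.ne (σ.injective h5)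
  have h5 : ¬ (if ε k then σ k < σ i else σ i < σ k) := fun h6 => h3 ⟨hlt, h1, h6⟩
  split_ifs at h5 ⊢
  · exact lt_of_le_of_ne (not_lt.1 h5) h4
  · exact lt_of_le_of_ne (not_lt.1 h5) h4.symm

end Chain

/-- A permutation which is monotone on the fibres of a map that it preserves is trivial. -/
lemma perm_eq_one {n : ℕ} {α : Type*} (c : Fin n → α) (τ : Perm (Fin n))
    (h1 : ∀ i, c (τ i) = c i) (h2 : ∀ i k, i < k → c i = c k → τ i < τ k) : τ = 1 := by
  classical
  by_contra hne
  have h3 : (Finset.univ.filter (fun i => τ i ≠ i)).Nonempty := by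
    obtain ⟨i, hi⟩ := not_forall.1 (fun h => hne (Equiv.ext h))
    exact ⟨i, Finset.mem_filter.2 ⟨Finset.mem_univ _, hi⟩⟩
  obtain ⟨i0, h4, h5⟩ : ∃ i0, τ i0 ≠ i0 ∧ ∀ i, τ i ≠ i → i0 ≤ i :=
    ⟨_, (Finset.mem_filter.1 (Finset.min'_mem _ h3)).2, fun i hi =>
      Finset.min'_le (Finset.univ.filter (fun i => τ i ≠ i)) i
        (Finset.mem_filter.2 ⟨Finset.mem_univ _, hi⟩)⟩
  set k := τ⁻¹ i0 with hk
  have hτk : τ k = i0 := by simp [hk]
  have h6 : k ≠ i0 := fun h => h4 (by rw [← h] at hτk ⊢; exact hτk)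
  have h7 : i0 ≤ k := h5 k (by rw [hτk]; exact h6.symm)
  have h8 : i0 < k := lt_of_le_of_ne h7 h6.symm
  have h9 : c i0 = c k := by rw [← h1 k, hτk]
  have h10 := h2 i0 k h8 h9
  rw [hτk] at h10
  have h11 : i0 ≤ τ i0 := h5 (τ i0) (fun h => h4 (τ.injective h))
  exact absurd (lt_of_lt_of_le h10 h11) (lt_irrefl _)

/-- The number of the permutations without long chains. -/
lemma card_Gd (n m n' : ℕ) : Nat.card {x : (Fin n → Bool) × Perm (Fin n) // Gd x.2 x.1 m n'} ≤
    (m + n') ^ (2 * n) := by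
  classical
  let F : {x : (Fin n → Bool) × Perm (Fin n) // Gd x.2 x.1 m n'} →
      (Fin n → Fin m ⊕ Fin n') × (Fin n → Fin m ⊕ Fin n') :=
    fun x => (colr x.2, fun i => colr x.2 (x.1.2⁻¹ i))
  have hF : Function.Injective F := by
    rintro ⟨⟨ε, σ⟩, h⟩ ⟨⟨ε', σ'⟩, h'⟩ hFF
    simp only [F, Prod.mk.injEq] at hFF
    obtain ⟨h1, h2⟩ := hFF
    have h3 : ε = ε' := by
      funext k
      exact colr_type h h' (congrFun h1 k)
    subst h3
    have hcc : ∀ i, colr h (σ'⁻¹ (σ i)) = colr h i := by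
      intro i
      have e1 := congrFun h2 (σ i)
      have e2 : σ⁻¹ (σ i) = i := by simp
      rw [e2] at e1
      rw [e1]
      exact congrFun h1 _
    have h4 : σ = σ' := by
      have h5 : σ'⁻¹ * σ = 1 := by
        refine perm_eq_one (colr h) _ (fun i => ?_) (fun i k hik hc => ?_)
        · exact hcc i
        · have hc1 := hcc i
          have hc2 := hcc k
          have hε := colr_eq h hc2
          rw [Perm.mul_apply, Perm.mul_apply]
          by_contra hcon
          have h6 : σ'⁻¹ (σ k) < σ'⁻¹ (σ i) := by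
            refine lt_of_le_of_ne (not_lt.1 hcon) (fun h7 => hik.ne ?_)
            exact (σ.injective (σ'⁻¹.injective h7)).symm
          have h7 := colr_mono h hc hik
          have h8 : colr h' (σ'⁻¹ (σ k)) = colr h' (σ'⁻¹ (σ i)) := by
            rw [← congrFun h1, ← congrFun h1, hc2, hc1, hc]
          have h9 := colr_mono h' h8 h6
          have hε' := colr_eq h hc1
          have hik' := (colr_eq h hc).1
          have e3 : ∀ z, σ' (σ'⁻¹ z) = z := fun z => by simp
          simp only [e3] at h9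
          rw [show ε (σ'⁻¹ (σ i)) = ε k from hε'.1.trans hik'] at h9
          split_ifs at h7 h9
          · exact absurd (h7.trans h9) (lt_irrefl _)
          · exact absurd (h7.trans h9) (lt_irrefl _)
      calc σ = σ' * (σ'⁻¹ * σ) := by group
        _ = σ' := by rw [h5, mul_one]
    subst h4
    rfl
  have h1 := Nat.card_le_card_of_injective F hF
  refine h1.trans (le_of_eq ?_)
  rw [Nat.card_eq_fintype_card, Fintype.card_prod, Fintype.card_fun, Fintype.card_sum,
    Fintype.card_fin, Fintype.card_fin, Fintype.card_fin, ← pow_add]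
  congr 1
  ring

/-- The strict rearrangement inequality. -/
lemma rearr {n : ℕ} (s : Finset (Fin n)) (u : Fin n → ℤ) (τ : Perm (Fin n))
    (hs : ∀ i, i ∉ s → τ i = i) (hτ : τ ≠ 1) (hu : ∀ i ∈ s, ∀ k ∈ s, i < k → u i < u k) :
    ∑ i ∈ s, ((i : ℕ) : ℤ) * u (τ i) < ∑ i ∈ s, ((i : ℕ) : ℤ) * u i := by
  classical
  have hmem : ∀ i ∈ s, τ i ∈ s := by
    intro i hi
    by_contra h
    exact h (by rw [τ.injective (hs _ h)]; exact hi)
  have h1 : MonovaryOn (fun i : Fin n => ((i : ℕ) : ℤ)) u (s : Set (Fin n)) := by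
    intro i hi k hk hik
    simp only
    by_contra hcon
    have h2 : k < i := by
      rw [Fin.lt_def]
      omega
    exact absurd ((hu k hk i hi h2).trans hik) (lt_irrefl _)
  refine (MonovaryOn.sum_mul_comp_perm_lt_sum_mul_iff h1 (fun i hi => ?_)).2 ?_
  · by_contra h
    exact hi (hs i h)
  · intro h2
    apply hτ
    refine perm_eq_one (fun i => if i ∈ s then none else some i) τ (fun i => ?_)
      (fun i k hik hc => ?_)
    · by_cases hi : i ∈ s
      · simp only [if_pos hi, if_pos (hmem i hi)]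
      · rw [hs i hi]
    · have h3 : i ∈ s ∧ k ∈ s := by
        by_cases hi : i ∈ s <;> by_cases hk : k ∈ s
        · exact ⟨hi, hk⟩
        · simp [hi, hk] at hc
        · simp [hi, hk] at hc
        · simp only [if_neg hi, if_neg hk, Option.some.injEq] at hc
          exact absurd hc hik.ne
      by_contra hcon
      have h4 : τ k < τ i := lt_of_le_of_ne (not_lt.1 hcon) (fun h5 => hik.ne (τ.injective h5).symm)
      have h5 := hu _ (hmem k h3.2) _ (hmem i h3.1) h4
      have h6 := h2 h3.2 h3.1 h5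
      simp only at h6
      have h7 : (i : ℕ) < k := hik
      omega

/-- The potential of a permutation. -/
def Kp {n : ℕ} (ε : Fin n → Bool) (σ : Perm (Fin n)) : ℤ :=
  ∑ i, (if ε i then (1 : ℤ) else -1) * (((i : ℕ) : ℤ) * ((σ i : ℕ) : ℤ))

lemma Kp_lt {n : ℕ} (ε : Fin n → Bool) (σ τ : Perm (Fin n)) (s : Finset (Fin n))
    (hs : ∀ i, i ∉ s → τ i = i) (hτ : τ ≠ 1) (b : Bool) (hb : ∀ i ∈ s, ε i = b)
    (hu : ∀ i ∈ s, ∀ k ∈ s, i < k → if b then σ k < σ i else σ i < σ k) :
    Kp ε σ < Kp ε (σ * τ) := by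
  classical
  have h1 : Kp ε (σ * τ) - Kp ε σ = ∑ i ∈ s, (if b then (1 : ℤ) else -1) *
      (((i : ℕ) : ℤ) * ((σ (τ i) : ℕ) : ℤ) - ((i : ℕ) : ℤ) * ((σ i : ℕ) : ℤ)) := by
    rw [Kp, Kp, ← Finset.sum_sub_distrib]
    symm
    rw [← Finset.sum_subset (Finset.subset_univ s)]
    · refine Finset.sum_congr rfl (fun i hi => ?_)
      rw [hb i hi, Perm.mul_apply]
      ring
    · intro i _ hi
      rw [Perm.mul_apply, hs i hi]
      ring
  have h2 : 0 < ∑ i ∈ s, (if b then (1 : ℤ) else -1) *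
      (((i : ℕ) : ℤ) * ((σ (τ i) : ℕ) : ℤ) - ((i : ℕ) : ℤ) * ((σ i : ℕ) : ℤ)) := by
    rw [← Finset.mul_sum, Finset.sum_sub_distrib]
    cases b with
    | false =>
      have h3 := rearr s (fun i => ((σ i : ℕ) : ℤ)) τ hs hτ (fun i hi k hk hik => by
        have h4 := hu i hi k hk hik
        simp only [Bool.false_eq_true, if_false] at h4
        have h5 : (σ i : ℕ) < σ k := h4
        omega)
      simp only [Bool.false_eq_true, if_false] at h3 ⊢
      linarith
    | true =>
      have h3 := rearr s (fun i => -((σ i : ℕ) : ℤ)) τ hs hτ (fun i hi k hk hik => by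
        have h4 := hu i hi k hk hik
        simp only [if_true] at h4
        have h5 : (σ k : ℕ) < σ i := h4
        omega)
      simp only [if_true, mul_neg, Finset.sum_neg_distrib] at h3 ⊢
      linarith
  linarith

namespace TT

variable {A : ℕ → Type*} [∀ n, Ring (A n)] [∀ n, Algebra ℚ (A n)] {E : Type*} [Ring E]
    [Algebra ℚ E] {T : TT A E}

/-- The products without long chains span. -/
lemma straighten {m n' : ℕ} {e : E}
    (hC : Cw (T.th (m + 1)) (fun _ => ()) * T.H (m + 1) (fun _ => e) = 0)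
    (hR : Rw (T.th (n' + 1)) (fun _ => ()) * T.H (n' + 1) (fun _ => 1 - e) = 0) {n : ℕ}
    (ε : Fin n → Bool) (σ : Perm (Fin n)) :
    T.th n σ * T.H n (fun i => pr e (ε i)) ∈ Submodule.span ℚ
      {z | ∃ ρ : Perm (Fin n), Gd ρ ε m n' ∧ z = T.th n ρ * T.H n (fun i => pr e (ε i))} := by
  classical
  by_contra hσ
  obtain ⟨σ, hσ1, hσ2⟩ := Finset.exists_max_image
    (Finset.univ.filter (fun σ : Perm (Fin n) => T.th n σ * T.H n (fun i => pr e (ε i)) ∉
      Submodule.span ℚ {z | ∃ ρ : Perm (Fin n), Gd ρ ε m n' ∧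
        z = T.th n ρ * T.H n (fun i => pr e (ε i))})) (Kp ε)
    ⟨σ, Finset.mem_filter.2 ⟨Finset.mem_univ _, hσ⟩⟩
  have hσ3 := (Finset.mem_filter.1 hσ1).2
  apply hσ3
  have hup : ∀ ρ : Perm (Fin n), Kp ε σ < Kp ε ρ → T.th n ρ * T.H n (fun i => pr e (ε i)) ∈
      Submodule.span ℚ {z | ∃ ρ : Perm (Fin n), Gd ρ ε m n' ∧
        z = T.th n ρ * T.H n (fun i => pr e (ε i))} := by
    intro ρ hρ
    by_contra hcon
    exact absurd (hσ2 ρ (Finset.mem_filter.2 ⟨Finset.mem_univ _, hcon⟩)) (not_le.2 hρ)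
  by_cases hg : Gd σ ε m n'
  · exact Submodule.subset_span ⟨σ, hg, rfl⟩
  · obtain ⟨k, hk⟩ := not_forall.1 hg
    have key : ∀ (b : Bool) (t : ℕ), ε k = b → Ch σ ε t k → ∃ s : Finset (Fin n),
        s.card = t + 1 ∧ (∀ i ∈ s, ε i = b) ∧
        ∀ τ : Perm (Fin n), Fx (fun i => if i ∈ s then none else some i) τ → τ ≠ 1 →
          T.th n (σ * τ) * T.H n (fun i => pr e (ε i)) ∈
            Submodule.span ℚ {z | ∃ ρ : Perm (Fin n), Gd ρ ε m n' ∧
              z = T.th n ρ * T.H n (fun i => pr e (ε i))} := by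
      intro b t hb ht
      obtain ⟨s, h1, h2, h3, h4⟩ := ht.exists_finset
      have hb' : ∀ i ∈ s, ε i = b := by
        intro i hi
        rcases h3 i hi with h5 | h5
        · rw [h5, hb]
        · rw [h5.2.1, hb]
      refine ⟨s, h1, hb', fun τ hτ hτ1 => hup _ ?_⟩
      refine Kp_lt ε σ τ s (fun i hi => ?_) hτ1 b hb' (fun i hi k hk hik => ?_)
      · have h5 := hτ i
        simp only [if_neg hi] at h5
        split_ifs at h5
        exact Option.some.inj h5
      · have h5 := (h4 i hi k hk hik).2.2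
        rw [hb' k hk] at h5
        exact h5
    rw [not_and_or] at hk
    rcases hk with hk | hk
    · simp only [Classical.not_imp, not_not] at hk
      obtain ⟨s, h1, h2, h3⟩ := key true m hk.1 hk.2
      have h4 := Cw_H_zero hC s h1 (fun i => if i ∈ s then none else some i)
        (fun i => pr e (ε i)) (fun i hi i' hi' => by rw [if_pos hi, if_pos hi'])
        (fun i hi => by rw [h2 i hi]; rfl)
      have h5 : T.th n σ * (Cw (T.th n) (fun i => if i ∈ s then none else some i) *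
          T.H n (fun i => pr e (ε i))) = 0 := by rw [h4, mul_zero]
      rw [Cw, Finset.sum_mul, Finset.mul_sum, ← Finset.add_sum_erase _ _ (Finset.mem_univ 1),
        if_pos Fx.one, sg_one, one_smul, map_one, one_mul] at h5
      rw [eq_neg_of_add_eq_zero_left h5]
      refine Submodule.neg_mem _ (Submodule.sum_mem _ (fun τ hτ => ?_))
      split_ifs with h6
      · rw [smul_mul_assoc, mul_smul_comm, ← mul_assoc, ← map_mul]
        exact Submodule.smul_mem _ _ (h3 τ h6 (Finset.ne_of_mem_erase hτ))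
      · rw [zero_mul, mul_zero]
        exact Submodule.zero_mem _
    · simp only [Classical.not_imp, not_not] at hk
      obtain ⟨s, h1, h2, h3⟩ := key false n' hk.1 hk.2
      have h4 := Rw_H_zero hR s h1 (fun i => if i ∈ s then none else some i)
        (fun i => pr e (ε i)) (fun i hi i' hi' => by rw [if_pos hi, if_pos hi'])
        (fun i hi => by rw [h2 i hi]; rfl)
      have h5 : T.th n σ * (Rw (T.th n) (fun i => if i ∈ s then none else some i) *
          T.H n (fun i => pr e (ε i))) = 0 := by rw [h4, mul_zero]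
      rw [Rw, Finset.sum_mul, Finset.mul_sum, ← Finset.add_sum_erase _ _ (Finset.mem_univ 1),
        if_pos Fx.one, map_one, one_mul] at h5
      rw [eq_neg_of_add_eq_zero_left h5]
      refine Submodule.neg_mem _ (Submodule.sum_mem _ (fun τ hτ => ?_))
      split_ifs with h6
      · rw [← mul_assoc, ← map_mul]
        exact h3 τ h6 (Finset.ne_of_mem_erase hτ)
      · rw [zero_mul, mul_zero]
        exact Submodule.zero_mem _

/-- The upper bound for the dimension of the span of the permutations. -/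
theorem finrank_le {m n' : ℕ} {e : E}
    (hC : Cw (T.th (m + 1)) (fun _ => ()) * T.H (m + 1) (fun _ => e) = 0)
    (hR : Rw (T.th (n' + 1)) (fun _ => ()) * T.H (n' + 1) (fun _ => 1 - e) = 0) (n : ℕ) :
    Module.finrank ℚ (Submodule.span ℚ (Set.range (T.th n))) ≤ (m + n') ^ (2 * n) := by
  classical
  let G : {x : (Fin n → Bool) × Perm (Fin n) // Gd x.2 x.1 m n'} → A n :=
    fun x => T.th n x.1.2 * T.H n (fun i => pr e (x.1.1 i))
  have h1 : Submodule.span ℚ (Set.range (T.th n)) ≤ Submodule.span ℚ (Set.range G) := by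
    rw [Submodule.span_le]
    rintro _ ⟨σ, rfl⟩
    have h2 : T.th n σ = ∑ ε : Fin n → Bool, T.th n σ * T.H n (fun i => pr e (ε i)) := by
      rw [← Finset.mul_sum, sum_H, mul_one]
    rw [SetLike.mem_coe, h2]
    refine Submodule.sum_mem _ (fun ε _ => ?_)
    refine Submodule.span_mono ?_ (straighten hC hR ε σ)
    rintro _ ⟨ρ, hρ, rfl⟩
    exact ⟨⟨(ε, ρ), hρ⟩, rfl⟩
  have : FiniteDimensional ℚ (Submodule.span ℚ (Set.range G)) :=
    FiniteDimensional.span_of_finite ℚ (Set.finite_range G)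
  refine (Submodule.finrank_mono h1).trans ?_
  refine (finrank_range_le_card G).trans ?_
  rw [← Nat.card_eq_fintype_card]
  exact card_Gd n m n'

end TT

end Pool.Agent.V8H87.GG
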