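import Pool.Agent.V8H87.GG.Parshin

/-!
# Finite generation of Weil-étale cohomology for the powers of a variety
-/

set_option autoImplicit false
set_option linter.unusedSectionVars false

open CategoryTheory Limits MonoidalCategory Module Filter
open Pool.Agent.Y112.SR Pool.Agent.Y112.KD Pool.Agent.N64.AF Pool.Agent.R905
open Pool.Agent.Y116.MT (tr)

namespace Pool.Agent.V8H87.GG

universe v u w x y

section

variable {C : Type u} [Category.{v} C] [Preadditive C] [MonoidalCategory C]
  [MonoidalPreadditive C] [SymmetricCategory C] [RightRigidCategory C]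
  [Linear ℚ C] [MonoidalLinear ℚ C]

/-- Properties of the functors `H j`, `j ≥ 0`, for which `H j (h(Y))` is the direct sum of all the
higher Chow groups `CH^i(Y, j)` with rational coefficients: they are additive functors on the
category of motives; the higher Chow groups of a finite field are torsion for `j ≥ 1` (Quillen); the
Frobenius endomorphism `φ n` of the `n`-th power of the variety acts on `CH^i(-, j)` through a power
of `q` (Soulé, Geisser). -/
structure IsHigherChow (q : ℚ) (T : C) (φ : ∀ n, tp T n ⟶ tp T n)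
    (H : ℕ → C ⥤ ModuleCat.{x} ℚ) : Prop where
  additive : ∀ j, (H j).Additive
  point : ∀ j, 1 ≤ j → Subsingleton ((H j).obj (𝟙_ C))
  weight : ∀ j n, WtFun q (H j) (φ n)

/-- The conjecture of Parshin for the `n`-th power: the higher Chow groups are torsion. -/
def Parshin (H : ℕ → C ⥤ ModuleCat.{x} ℚ) (T : C) (n : ℕ) : Prop :=
  ∀ j, 1 ≤ j → Subsingleton ((H j).obj (tp T n))

variable {K : Type w} [Field K] [Algebra ℚ K]

/-- Known relations between the Weil-étale motivic cohomology groups `W n m i = H^i_W(X ^ n, ℤ(m))`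
and cycles (Geisser): they are finitely generated for all `m` and `i` if the strong conjecture of
Tate, the agreement of rational and numerical equivalence and the conjecture of Parshin hold for
`X ^ n` (in all codimensions); and if they are finitely generated for all `m` and `i` then rational and
numerical equivalence agree on `X ^ n`. -/
structure IsWeilEtale (R : SuperRealisation C K) (q : ℚ) (T : C) (φ : ∀ n, tp T n ⟶ tp T n)
    (H : ℕ → C ⥤ ModuleCat.{x} ℚ) (W : ℕ → ℤ → ℤ → Type y) [∀ n m i, AddCommGroup (W n m i)] :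
    Prop where
  fg : ∀ n, StrongTate R q (φ n) → (∀ f : 𝟙_ C ⟶ tp T n, NumTriv f → f = 0) → Parshin H T n →
    ∀ m i, AddGroup.FG (W n m i)
  num : ∀ n, (∀ m i, AddGroup.FG (W n m i)) → ∀ f : 𝟙_ C ⟶ tp T n, NumTriv f → f = 0

end

section

variable {C : Type u} [Category.{v} C] [Preadditive C] [MonoidalCategory C]
  [MonoidalPreadditive C] [SymmetricCategory C] [RightRigidCategory C]
  [Linear ℚ C] [MonoidalLinear ℚ C] [IsIdempotentComplete C] {K : Type w} [Field K]
  [IsAlgClosed K] [Algebra ℚ K] {R : SuperRealisation C K}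

/-- The main theorem for Weil-étale cohomology. -/
theorem main_we {T : C} [ExactPairing T T] (h : IsPow ℚ R T) (q : ℚ)
    (φ : ∀ n, tp T n ⟶ tp T n) (hφ : ∀ n, IsWt q (φ n)) (H : ℕ → C ⥤ ModuleCat.{x} ℚ)
    (hH : IsHigherChow q T φ H) (W : ℕ → ℤ → ℤ → Type y) [∀ n m i, AddCommGroup (W n m i)]
    (hW : IsWeilEtale R q T φ H W) :
    (SmallChow R T → IsKimuraFinite T) ∧
    (IsKimuraFinite T → ∀ n, StrongTate R q (φ n) →
      Parshin H T n ∧ ∀ m i, AddGroup.FG (W n m i)) ∧
    ((∀ n, StrongTate R q (φ n)) →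
      [∀ n m i, AddGroup.FG (W n m i),
        ∀ n, (∀ f : 𝟙_ C ⟶ tp T n, NumTriv f → f = 0) ∧ Parshin H T n,
        SmallChow R T, SmallPerm R T, IsKimuraFinite T].TFAE) := by
  obtain ⟨hA, hB, hC⟩ := main h q φ hφ
  have hU := unitQ_of h.real
  have hP : IsKimuraFinite T → ∀ n, StrongTate R q (φ n) → Parshin H T n := by
    intro hK n hT j hj
    have := hH.additive j
    refine ⟨fun a b => ?_⟩
    have h1 := parshin h.real hU (kimura_tp R hU hK n) (hφ n) hT (H j) (hH.weight j n)
      (hH.point j hj)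
    rw [h1 a, h1 b]
  refine ⟨hA, fun hK n hT => ⟨hP hK n hT, hW.fg n hT (hB hK n hT) (hP hK n hT)⟩, fun hT => ?_⟩
  have hTF := hC hT
  tfae_have 1 → 5 := by
    intro h1
    refine (hTF.out 0 4).1 (fun a b f hf => ?_)
    exact corr_zero h.real (fun b f hf => hW.num b (h1 b) f hf) a b f hf
  tfae_have 5 → 2 := fun hK n => ⟨hB hK n (hT n), hP hK n (hT n)⟩
  tfae_have 2 → 1 := fun h2 n => hW.fg n (hT n) (h2 n).1 (h2 n).2
  tfae_have 3 ↔ 5 := hTF.out 2 4
  tfae_have 4 ↔ 5 := hTF.out 3 4
  tfae_finish

end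

end Pool.Agent.V8H87.GG
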