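import Pool.Agent.V8H87.GG.Key

/-!
# Many standard fillings of a hook shape

Ballot words with `q = a + c` letters encode standard fillings of shapes which consist of the
rectangle with `a` rows and `c` columns, of `a` arms and of `c` legs.
-/

set_option autoImplicit false
set_option linter.unusedSectionVars false

namespace Pool.Agent.V8H87.GG

/-- Ballot words (the newest letter is the head of the list). -/
def Good {q : ℕ} : List (Fin q) → Prop
  | [] => True
  | l :: w => Good w ∧ ∀ l' < l, w.count l < w.count l'

lemma good_append {q : ℕ} {w : List (Fin q)} (hw : Good w) {r : ℕ}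
    (hgap : ∀ l' l : Fin q, l' < l → w.count l + r ≤ w.count l') :
    ∀ v : List (Fin q), (∀ l, v.count l ≤ r) → Good (v ++ w)
  | [], _ => hw
  | l :: v, hv => by
    refine ⟨good_append hw hgap v (fun m => ?_), fun l' hl' => ?_⟩
    · refine le_trans ?_ (hv m)
      rw [List.count_cons]
      exact Nat.le_add_right _ _
    · have h1 := hv l
      rw [List.count_cons_self] at h1
      have h2 := hgap l' l hl'
      change List.count l (v ++ w) < List.count l' (v ++ w)
      rw [List.count_append, List.count_append]
      omega

/-- The word with `(q - 1 - l) * r` letters `l`, for all `l < j`. -/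
def stj (q r : ℕ) : ℕ → List (Fin q)
  | 0 => []
  | j + 1 => (if h : j < q then List.replicate ((q - 1 - j) * r) ⟨j, h⟩ else []) ++ stj q r j

lemma count_stj {q r : ℕ} (j : ℕ) (hj : j ≤ q) (l : Fin q) :
    (stj q r j).count l = if (l : ℕ) < j then (q - 1 - l) * r else 0 := by
  induction j with
  | zero => simp [stj]
  | succ j ih =>
    have hj' : j < q := by omega
    rw [stj, dif_pos hj', List.count_append, ih (by omega), List.count_replicate]
    by_cases h : (l : ℕ) = j
    · have h1 : (⟨j, hj'⟩ : Fin q) = l := Fin.ext h.symm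
      simp [← h1]
    · have h1 : ¬ ((⟨j, hj'⟩ : Fin q) = l) := fun h2 => h (by rw [← h2])
      have h2 : (l : ℕ) < j ↔ (l : ℕ) < j + 1 := by omega
      simp [h1, h2]

lemma good_stj {q r : ℕ} (j : ℕ) (hj : j ≤ q) : Good (stj q r j) := by
  induction j with
  | zero => trivial
  | succ j ih =>
    have hj' : j < q := by omega
    rw [stj, dif_pos hj']
    have h1 := ih (by omega)
    have key : ∀ t ≤ (q - 1 - j) * r, Good (List.replicate t (⟨j, hj'⟩ : Fin q) ++ stj q r j) := by
      intro t
      induction t with
      | zero => intro _; simpa using h1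
      | succ t iht =>
        intro ht
        refine ⟨iht (by omega), fun l' hl' => ?_⟩
        have hl'' : (l' : ℕ) < j := hl'
        change List.count (⟨j, hj'⟩ : Fin q) (List.replicate t (⟨j, hj'⟩ : Fin q) ++ stj q r j) <
          List.count l' (List.replicate t (⟨j, hj'⟩ : Fin q) ++ stj q r j)
        rw [List.count_append, List.count_append, count_stj j (by omega), count_stj j (by omega),
          List.count_replicate, List.count_replicate]
        have h2 : ¬ ((⟨j, hj'⟩ : Fin q) = l') := fun h => by
          have := congrArg Fin.val h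
          simp only at this
          omega
        simp only [lt_self_iff_false, if_false, beq_self_eq_true, if_true, hl'', h2,
          beq_iff_eq, add_zero, zero_add]
        have h3 : (q - 1 - j) * r ≤ (q - 1 - l') * r := Nat.mul_le_mul_right _ (by omega)
        omega
    exact key _ le_rfl

/-- The box of the letter `l` after `k` earlier letters `l`. -/
def bx (a c : ℕ) (l : Fin (a + c)) (k : ℕ) : ℕ × ℕ :=
  if (l : ℕ) < a then ((l : ℕ), c + k) else (a + k, (l : ℕ) - a)

/-- The boxes of a word. -/
def boxes (a c : ℕ) : List (Fin (a + c)) → List (ℕ × ℕ)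
  | [] => []
  | l :: w => bx a c l (w.count l) :: boxes a c w

lemma length_boxes (a c : ℕ) (w : List (Fin (a + c))) : (boxes a c w).length = w.length := by
  induction w with
  | nil => rfl
  | cons l w ih => rw [boxes, List.length_cons, List.length_cons, ih]

lemma mem_boxes {a c : ℕ} {w : List (Fin (a + c))} {b : ℕ × ℕ} :
    b ∈ boxes a c w ↔ ∃ l, ∃ k < w.count l, b = bx a c l k := by
  induction w with
  | nil => simp [boxes]
  | cons l w ih =>
    rw [boxes, List.mem_cons, ih]
    constructor
    · rintro (h | ⟨l', k, hk, h⟩)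
      · exact ⟨l, w.count l, by rw [List.count_cons_self]; omega, h⟩
      · exact ⟨l', k, lt_of_lt_of_le hk (by rw [List.count_cons]; exact Nat.le_add_right _ _), h⟩
    · rintro ⟨l', k, hk, h⟩
      by_cases h1 : l = l'
      · subst h1
        rw [List.count_cons_self] at hk
        by_cases h2 : k = w.count l
        · left; rw [h, h2]
        · right; exact ⟨l, k, by omega, h⟩
      · right
        refine ⟨l', k, ?_, h⟩
        rw [List.count_cons] at hk
        simpa [h1] using hk

lemma bx_inj {a c : ℕ} {l l' : Fin (a + c)} {k k' : ℕ} (h : bx a c l k = bx a c l' k') :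
    l = l' ∧ k = k' := by
  unfold bx at h
  have hl := l.2
  have hl' := l'.2
  split_ifs at h with h1 h2 h2
  · simp only [Prod.mk.injEq] at h
    exact ⟨Fin.ext h.1, by omega⟩
  · simp only [Prod.mk.injEq] at h
    omega
  · simp only [Prod.mk.injEq] at h
    omega
  · simp only [Prod.mk.injEq] at h
    exact ⟨Fin.ext (by omega), by omega⟩

lemma bx_not_rect {a c : ℕ} (l : Fin (a + c)) (k : ℕ) : bx a c l k ∉ rectF 0 a c := by
  rw [mem_rectF]
  unfold bx
  split_ifs with h
  · simp only; omega
  · simp only; omega

lemma isY_boxes {a c : ℕ} : ∀ {w : List (Fin (a + c))}, Good w →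
    IsY (boxes a c w ++ rectF 0 a c)
  | [], _ => isY_rect a c
  | l :: w, h => by
    have hl := l.2
    refine ⟨isY_boxes h.1, ?_, ?_, ?_⟩
    · change bx a c l (w.count l) ∉ boxes a c w ++ rectF 0 a c
      rw [List.mem_append, mem_boxes]
      rintro (⟨l', k, hk, h1⟩ | h1)
      · obtain ⟨rfl, rfl⟩ := bx_inj h1
        omega
      · exact bx_not_rect _ _ h1
    · intro x hx
      change (x, (bx a c l (w.count l)).2) ∈ boxes a c w ++ rectF 0 a c
      rw [List.mem_append, mem_boxes, mem_rectF]
      unfold bx at hx ⊢
      split_ifs at hx ⊢ with h1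
      · left
        simp only at hx ⊢
        refine ⟨⟨x, by omega⟩, w.count l, h.2 _ (by
          rw [Fin.lt_def]; exact hx), ?_⟩
        rw [if_pos (by simp only; omega)]
      · simp only at hx ⊢
        by_cases h2 : x < a
        · right; omega
        · left
          refine ⟨l, x - a, by omega, ?_⟩
          rw [if_neg h1]
          exact Prod.ext (by simp only; omega) rfl
    · intro y hy
      change ((bx a c l (w.count l)).1, y) ∈ boxes a c w ++ rectF 0 a c
      rw [List.mem_append, mem_boxes, mem_rectF]
      unfold bx at hy ⊢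
      split_ifs at hy ⊢ with h1
      · simp only at hy ⊢
        by_cases h2 : y < c
        · right; omega
        · left
          refine ⟨l, y - c, by omega, ?_⟩
          rw [if_pos h1]
          exact Prod.ext rfl (by simp only; omega)
      · left
        simp only at hy ⊢
        refine ⟨⟨a + y, by omega⟩, w.count l, h.2 _ (by
          rw [Fin.lt_def]; simp only; omega), ?_⟩
        rw [if_neg (by simp only; omega)]
        exact Prod.ext rfl (by simp only; omega)

lemma boxes_inj {a c : ℕ} : ∀ {w w' : List (Fin (a + c))}, w.length = w'.length →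
    boxes a c w = boxes a c w' → w = w'
  | [], [], _, _ => rfl
  | [], _ :: _, h, _ => by simp at h
  | _ :: _, [], h, _ => by simp at h
  | l :: w, l' :: w', h, h' => by
    rw [boxes, boxes, List.cons.injEq] at h'
    obtain ⟨h1, h2⟩ := h'
    have h3 := boxes_inj (by simpa using h) h2
    rw [(bx_inj h1).1, h3]

/-- All words of the family have the given length and the given numbers of letters. -/
def Fam {q : ℕ} (X : Finset (List (Fin q))) (len : ℕ) (μ : Fin q → ℕ) : Prop :=
  ∀ w ∈ X, w.length = len ∧ ∀ l, w.count l = μ l

open Classical in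
/-- The concatenations. -/
noncomputable def cat {q : ℕ} (X Y : Finset (List (Fin q))) : Finset (List (Fin q)) :=
  (X ×ˢ Y).image (fun p => p.1 ++ p.2)

lemma fam_cat {q : ℕ} {X Y : Finset (List (Fin q))} {n m : ℕ} {μ ν : Fin q → ℕ}
    (hX : Fam X n μ) (hY : Fam Y m ν) : Fam (cat X Y) (n + m) (μ + ν) := by
  classical
  intro w hw
  obtain ⟨⟨x, y⟩, hxy, rfl⟩ := Finset.mem_image.1 hw
  obtain ⟨hx, hy⟩ := Finset.mem_product.1 hxy
  obtain ⟨h1, h2⟩ := hX x hx
  obtain ⟨h3, h4⟩ := hY y hy
  refine ⟨by rw [List.length_append, h1, h3], fun l => ?_⟩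
  rw [List.count_append, h2, h4, Pi.add_apply]

lemma card_cat {q : ℕ} {X Y : Finset (List (Fin q))} {n : ℕ} {μ : Fin q → ℕ}
    (hX : Fam X n μ) : (cat X Y).card = X.card * Y.card := by
  classical
  rw [cat, Finset.card_image_of_injOn, Finset.card_product]
  rintro ⟨x, y⟩ hxy ⟨x', y'⟩ hxy' h
  have hx := (Finset.mem_product.1 (Finset.mem_coe.1 hxy)).1
  have hx' := (Finset.mem_product.1 (Finset.mem_coe.1 hxy')).1
  have h1 := List.append_inj h (by rw [(hX x hx).1, (hX x' hx').1])
  exact Prod.ext h1.1 h1.2

/-- By the pigeonhole principle there are many words with the same numbers of letters. -/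
lemma exists_many (q N : ℕ) (hq : 0 < q) : ∃ (μ : Fin q → ℕ) (X : Finset (List (Fin q))), Fam X N μ ∧
    ∑ l, μ l = N ∧ ((q : ℝ) ^ N / ((N : ℝ) + 1) ^ q) ≤ X.card := by
  classical
  let s : Finset (List.Vector (Fin q) N) := Finset.univ
  let t : Finset (Fin q → Fin (N + 1)) := Finset.univ
  have hcnt : ∀ (v : List.Vector (Fin q) N) (l : Fin q), v.toList.count l < N + 1 := by
    intro v l
    have := List.count_le_length (a := l) (l := v.toList)
    rw [List.Vector.toList_length] at this
    omega
  let f : List.Vector (Fin q) N → (Fin q → Fin (N + 1)) := fun v l =>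
    ⟨v.toList.count l, hcnt v l⟩
  have hs : (s.card : ℝ) = (q : ℝ) ^ N := by
    rw [Finset.card_univ, card_vector, Fintype.card_fin]
    push_cast
    ring
  have ht : (t.card : ℝ) = ((N : ℝ) + 1) ^ q := by
    rw [Finset.card_univ, Fintype.card_fun, Fintype.card_fin, Fintype.card_fin]
    push_cast
    ring
  have hpos : (0 : ℝ) < ((N : ℝ) + 1) ^ q := by positivity
  obtain ⟨y, _, hy⟩ := Finset.exists_le_card_fiber_of_nsmul_le_card_of_maps_to (M := ℝ)
    (s := s) (t := t) (f := f) (b := (q : ℝ) ^ N / ((N : ℝ) + 1) ^ q)
    (fun v _ => Finset.mem_univ _) ⟨fun _ => 0, Finset.mem_univ _⟩ (by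
      rw [nsmul_eq_mul, ht, hs, mul_div_cancel₀ _ hpos.ne'])
  by_cases hne : (s.filter (fun v => f v = y)).Nonempty
  · refine ⟨fun l => (y l : ℕ), (s.filter (fun v => f v = y)).image (fun v => v.toList), ?_, ?_, ?_⟩
    · intro w hw
      obtain ⟨v, hv, rfl⟩ := Finset.mem_image.1 hw
      have hv' := (Finset.mem_filter.1 hv).2
      refine ⟨List.Vector.toList_length v, fun l => ?_⟩
      have := congrArg Fin.val (congrFun hv' l)
      exact this
    · obtain ⟨v, hv⟩ := hne
      have hv' := (Finset.mem_filter.1 hv).2
      have h1 : ∀ l, (y l : ℕ) = v.toList.count l := fun l =>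
        (congrArg Fin.val (congrFun hv' l)).symm
      simp only [h1]
      have h2 : ∑ l : Fin q, v.toList.count l = v.toList.length := by
        have h3 := Multiset.sum_count_eq_card (s := Finset.univ) (m := (v.toList : Multiset (Fin q)))
          (fun a _ => Finset.mem_univ a)
        simpa using h3
      rw [h2, List.Vector.toList_length]
    · rw [Finset.card_image_of_injective _ List.Vector.toList_injective]
      exact hy
  · rw [Finset.not_nonempty_iff_eq_empty] at hne
    rw [hne, Finset.card_empty, Nat.cast_zero] at hy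
    exfalso
    have : (0 : ℝ) < (q : ℝ) ^ N / ((N : ℝ) + 1) ^ q := by positivity
    linarith

end Pool.Agent.V8H87.GG
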