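import Pool.Agent.V8H87.GG.Contr

/-!
# Growing Young diagrams and the contraction of their Young symmetrizers

A list of boxes grows from its end: the head of the list is the newest box.
-/

set_option autoImplicit false
set_option linter.unusedSectionVars false

open Equiv Equiv.Perm

namespace Pool.Agent.V8H87.GG

/-- Each box of the list is addable to the diagram of the older boxes. -/
def IsY : List (ℕ × ℕ) → Prop
  | [] => True
  | b :: B => IsY B ∧ b ∉ B ∧ (∀ x < b.1, (x, b.2) ∈ B) ∧ (∀ y < b.2, (b.1, y) ∈ B)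

lemma IsY.nodup : ∀ {B : List (ℕ × ℕ)}, IsY B → B.Nodup
  | [], _ => List.nodup_nil
  | _ :: _, h => List.nodup_cons.2 ⟨h.2.1, h.1.nodup⟩

lemma IsY.lower_x : ∀ {B : List (ℕ × ℕ)}, IsY B → ∀ {b : ℕ × ℕ}, b ∈ B → ∀ x ≤ b.1, (x, b.2) ∈ B
  | [], _, b, h, _, _ => absurd h (List.not_mem_nil)
  | c :: B, h, b, hb, x, hx => by
    rcases List.mem_cons.1 hb with rfl | hb
    · rcases hx.eq_or_lt with rfl | hx
      · exact List.mem_cons_self
      · exact List.mem_cons_of_mem _ (h.2.2.1 x hx)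
    · exact List.mem_cons_of_mem _ (h.1.lower_x hb x hx)

lemma IsY.lower_y : ∀ {B : List (ℕ × ℕ)}, IsY B → ∀ {b : ℕ × ℕ}, b ∈ B → ∀ y ≤ b.2, (b.1, y) ∈ B
  | [], _, b, h, _, _ => absurd h (List.not_mem_nil)
  | c :: B, h, b, hb, y, hy => by
    rcases List.mem_cons.1 hb with rfl | hb
    · rcases hy.eq_or_lt with rfl | hy
      · exact List.mem_cons_self
      · exact List.mem_cons_of_mem _ (h.2.2.2 y hy)
    · exact List.mem_cons_of_mem _ (h.1.lower_y hb y hy)

lemma IsY.of_append : ∀ {B B' : List (ℕ × ℕ)}, IsY (B ++ B') → IsY B'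
  | [], _, h => h
  | _ :: _, _, h => IsY.of_append h.1

/-- The list as a function. -/
def fn (B : List (ℕ × ℕ)) (n : ℕ) : Fin n → ℕ × ℕ := fun i => B.getD i (0, 0)

lemma fn_zero (b : ℕ × ℕ) (B : List (ℕ × ℕ)) (n : ℕ) : fn (b :: B) (n + 1) 0 = b := by
  simp [fn]

lemma fn_succ (b : ℕ × ℕ) (B : List (ℕ × ℕ)) (n : ℕ) :
    (fn (b :: B) (n + 1)) ∘ Fin.succ = fn B n := by
  funext i
  simp [fn]

lemma fn_succ_apply (b : ℕ × ℕ) (B : List (ℕ × ℕ)) (n : ℕ) (i : Fin n) :
    fn (b :: B) (n + 1) i.succ = fn B n i := by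
  simp [fn]

lemma fn_mem {B : List (ℕ × ℕ)} {n : ℕ} (hn : B.length = n) (i : Fin n) : fn B n i ∈ B := by
  have h : (i : ℕ) < B.length := by omega
  rw [fn, List.getD_eq_getElem _ _ h]
  exact List.getElem_mem h

lemma exists_fn {B : List (ℕ × ℕ)} {n : ℕ} (hn : B.length = n) {b : ℕ × ℕ} (hb : b ∈ B) :
    ∃ i : Fin n, fn B n i = b := by
  obtain ⟨k, hk, h⟩ := List.getElem_of_mem hb
  refine ⟨⟨k, by omega⟩, ?_⟩
  rw [fn, List.getD_eq_getElem _ _ hk]
  exact h

lemma fn_injective {B : List (ℕ × ℕ)} {n : ℕ} (hn : B.length = n) (hB : B.Nodup) :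
    Function.Injective (fn B n) := by
  intro i k h
  have hi : (i : ℕ) < B.length := by omega
  have hk : (k : ℕ) < B.length := by omega
  rw [fn, fn, List.getD_eq_getElem _ _ hi, List.getD_eq_getElem _ _ hk] at h
  exact Fin.ext ((List.Nodup.getElem_inj_iff hB).1 h)

lemma sum_fn {M : Type*} [AddCommMonoid M] (g : ℕ × ℕ → M) : ∀ {B : List (ℕ × ℕ)} {n : ℕ},
    B.length = n → ∑ i : Fin n, g (fn B n i) = (B.map g).sum
  | [], n, h => by
    obtain rfl : n = 0 := by simpa using h.symm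
    simp
  | b :: B, 0, h => by simp at h
  | b :: B, n + 1, h => by
    have h' : B.length = n := by simpa using h
    rw [Fin.sum_univ_succ, fn_zero]
    simp only [fn_succ_apply]
    rw [sum_fn g h', List.map_cons, List.sum_cons]

section

variable (ty : ℕ × ℕ → Bool)

/-- The row labels. -/
def rl {n : ℕ} (f : Fin n → ℕ × ℕ) : Fin n → ℕ × Bool := fun i => ((f i).1, ty (f i))

/-- The column labels. -/
def cl {n : ℕ} (f : Fin n → ℕ × ℕ) : Fin n → ℕ × Bool := fun i => ((f i).2, ty (f i))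

/-- The factor of a box. -/
def fac (d : Bool → ℚ) (b : ℕ × ℕ) : ℚ :=
  d (ty b) + (∑ y ∈ Finset.range b.2, if ty (b.1, y) = ty b then (1 : ℚ) else 0) -
    ∑ x ∈ Finset.range b.1, if ty (x, b.2) = ty b then (1 : ℚ) else 0

/-- The types depend only on the row or only on the column. -/
def TyOk : Prop := (∀ x y y', ty (x, y) = ty (x, y')) ∨ (∀ x x' y, ty (x, y) = ty (x', y))

lemma row_count {b : ℕ × ℕ} {B : List (ℕ × ℕ)} {n : ℕ} (hn : B.length = n) (h : IsY (b :: B)) :
    (∑ i : Fin n, if rl ty (fn (b :: B) (n + 1)) i.succ = rl ty (fn (b :: B) (n + 1)) 0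
      then (1 : ℚ) else 0) =
      ∑ y ∈ Finset.range b.2, if ty (b.1, y) = ty b then (1 : ℚ) else 0 := by
  have e1 : ∀ i : Fin n, (if rl ty (fn (b :: B) (n + 1)) i.succ = rl ty (fn (b :: B) (n + 1)) 0
      then (1 : ℚ) else 0) = (fun x : ℕ × ℕ => if (x.1, ty x) = (b.1, ty b) then (1 : ℚ) else 0)
      (fn B n i) := by
    intro i
    simp only [rl, fn_zero, fn_succ_apply]
  refine ((Finset.sum_congr rfl (fun i _ => e1 i)).trans
    (sum_fn (fun x : ℕ × ℕ => if (x.1, ty x) = (b.1, ty b) then (1 : ℚ) else 0) hn)).trans ?_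
  rw [← List.sum_toFinset _ h.1.nodup]
  have e2 : (∑ y ∈ Finset.range b.2, if ty (b.1, y) = ty b then (1 : ℚ) else 0) =
      ∑ x ∈ (Finset.range b.2).image (fun y => (b.1, y)),
        if (x.1, ty x) = (b.1, ty b) then (1 : ℚ) else 0 := by
    rw [Finset.sum_image (by intro y _ y' _ hh; exact (Prod.mk.inj hh).2)]
    refine Finset.sum_congr rfl (fun y _ => ?_)
    simp
  rw [e2]
  symm
  refine Finset.sum_subset ?_ ?_
  · intro x hx
    obtain ⟨y, hy, rfl⟩ := Finset.mem_image.1 hx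
    exact List.mem_toFinset.2 (h.2.2.2 y (Finset.mem_range.1 hy))
  · intro x hx hx'
    rw [if_neg]
    intro hh
    have h1 : x.1 = b.1 := (Prod.mk.inj hh).1
    apply hx'
    refine Finset.mem_image.2 ⟨x.2, Finset.mem_range.2 ?_, by rw [← h1]⟩
    by_contra hcon
    have := h.1.lower_y (List.mem_toFinset.1 hx) b.2 (by omega)
    rw [h1] at this
    exact h.2.1 this

lemma col_count {b : ℕ × ℕ} {B : List (ℕ × ℕ)} {n : ℕ} (hn : B.length = n) (h : IsY (b :: B)) :
    (∑ i : Fin n, if cl ty (fn (b :: B) (n + 1)) i.succ = cl ty (fn (b :: B) (n + 1)) 0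
      then (1 : ℚ) else 0) =
      ∑ x ∈ Finset.range b.1, if ty (x, b.2) = ty b then (1 : ℚ) else 0 := by
  have e1 : ∀ i : Fin n, (if cl ty (fn (b :: B) (n + 1)) i.succ = cl ty (fn (b :: B) (n + 1)) 0
      then (1 : ℚ) else 0) = (fun x : ℕ × ℕ => if (x.2, ty x) = (b.2, ty b) then (1 : ℚ) else 0)
      (fn B n i) := by
    intro i
    simp only [cl, fn_zero, fn_succ_apply]
  refine ((Finset.sum_congr rfl (fun i _ => e1 i)).trans
    (sum_fn (fun x : ℕ × ℕ => if (x.2, ty x) = (b.2, ty b) then (1 : ℚ) else 0) hn)).trans ?_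
  rw [← List.sum_toFinset _ h.1.nodup]
  have e2 : (∑ x ∈ Finset.range b.1, if ty (x, b.2) = ty b then (1 : ℚ) else 0) =
      ∑ x ∈ (Finset.range b.1).image (fun y => (y, b.2)),
        if (x.2, ty x) = (b.2, ty b) then (1 : ℚ) else 0 := by
    rw [Finset.sum_image (by intro y _ y' _ hh; exact (Prod.mk.inj hh).1)]
    refine Finset.sum_congr rfl (fun y _ => ?_)
    simp
  rw [e2]
  symm
  refine Finset.sum_subset ?_ ?_
  · intro x hx
    obtain ⟨y, hy, rfl⟩ := Finset.mem_image.1 hx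
    exact List.mem_toFinset.2 (h.2.2.1 y (Finset.mem_range.1 hy))
  · intro x hx hx'
    rw [if_neg]
    intro hh
    have h1 : x.2 = b.2 := (Prod.mk.inj hh).1
    apply hx'
    refine Finset.mem_image.2 ⟨x.1, Finset.mem_range.2 ?_, by rw [← h1]⟩
    by_contra hcon
    have := h.1.lower_x (List.mem_toFinset.1 hx) b.1 (by omega)
    rw [h1] at this
    exact h.2.1 this

end

namespace TT

variable {A : ℕ → Type*} [∀ n, Ring (A n)] [∀ n, Algebra ℚ (A n)] {E : Type*} [Ring E]
    [Algebra ℚ E] (T : TT A E) (ty : ℕ × ℕ → Bool) (p : Bool → E)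

/-- The typed Young symmetrizer of a labelling by boxes. -/
noncomputable def W {n : ℕ} (f : Fin n → ℕ × ℕ) : A n :=
  T.rch (rl ty f) (cl ty f) (fun i => p (ty (f i)))

variable {T ty p}

/-- Removal of the newest box. -/
theorem pt_W {N : T.Nul} (hty : TyOk ty) {d : Bool → ℚ} (hd : ∀ b, T.trE (p b) = d b)
    (hp : ∀ b, NE N (p b * p b - p b)) {b : ℕ × ℕ} {B : List (ℕ × ℕ)} {n : ℕ}
    (hn : B.length = n) (h : IsY (b :: B)) :
    T.pt n (T.W ty p (fn (b :: B) (n + 1))) - fac ty d b • T.W ty p (fn B n) ∈ N.N n := by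
  classical
  have h1 := pt_rch (T := T) (N := N) (rl ty (fn (b :: B) (n + 1))) (cl ty (fn (b :: B) (n + 1)))
    (fun i => p (ty (fn (b :: B) (n + 1) i))) (fun i k hik => congrArg p (Prod.mk.inj hik).2)
    (fun i k hik => congrArg p (Prod.mk.inj hik).2) (hp _) ?_ ?_
  · have e1 := row_count ty hn h
    have e2 := col_count ty hn h
    have e3 : rl ty (fn (b :: B) (n + 1)) ∘ Fin.succ = rl ty (fn B n) := by
      funext i; simp only [rl, Function.comp_apply, fn_succ_apply]
    have e4 : cl ty (fn (b :: B) (n + 1)) ∘ Fin.succ = cl ty (fn B n) := by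
      funext i; simp only [cl, Function.comp_apply, fn_succ_apply]
    have e5 : (fun i => p (ty (fn (b :: B) (n + 1) i))) ∘ Fin.succ =
        fun i => p (ty (fn B n i)) := by
      funext i; simp only [Function.comp_apply, fn_succ_apply]
    rw [e3, e4, e5, fn_zero, hd] at h1
    have e6 : fac ty d b = d (ty b) + (∑ i : Fin n, if rl ty (fn (b :: B) (n + 1)) i.succ =
        rl ty (fn (b :: B) (n + 1)) 0 then (1 : ℚ) else 0) -
        (∑ i : Fin n, if cl ty (fn (b :: B) (n + 1)) i.succ = cl ty (fn (b :: B) (n + 1)) 0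
        then (1 : ℚ) else 0) := by rw [e1, e2, fac]
    rw [e6]
    have e7 : T.W ty p (fn (b :: B) (n + 1)) = T.rch (rl ty (fn (b :: B) (n + 1)))
      (cl ty (fn (b :: B) (n + 1))) (fun i => p (ty (fn (b :: B) (n + 1) i))) := rfl
    have e8 : T.W ty p (fn B n) = T.rch (rl ty (fn B n))
      (cl ty (fn B n)) (fun i => p (ty (fn B n i))) := rfl
    rw [e7, e8]
    convert h1 using 7
  · intro i hi1 hi2
    simp only [rl, cl, fn_zero, fn_succ_apply, Prod.mk.injEq] at hi1 hi2
    have : fn B n i = b := Prod.ext hi1.1 hi2.1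
    exact h.2.1 (this ▸ fn_mem hn i)
  · intro a c ha hc
    simp only [rl, cl, fn_zero, fn_succ_apply, Prod.mk.injEq] at ha hc ⊢
    have ma := fn_mem hn a
    have mc := fn_mem hn c
    have hy : (fn B n a).2 < b.2 := by
      by_contra hcon
      have := h.1.lower_y ma b.2 (by omega)
      rw [ha.1] at this
      exact h.2.1 this
    obtain ⟨k, hk⟩ := exists_fn hn (h.1.lower_y mc (fn B n a).2 (by rw [hc.1]; exact hy.le))
    refine ⟨k, ?_, ?_⟩
    · rw [hk]
      refine ⟨rfl, ?_⟩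
      rcases hty with ht | ht
      · exact ht _ _ _
      · rw [ht _ (fn B n a).1, hc.2, ← ha.2]
    · rw [hk]
      refine ⟨rfl, ?_⟩
      rcases hty with ht | ht
      · rw [ht _ _ (fn B n c).2, ha.2, ← hc.2]
      · exact ht _ _ _

/-- If the symmetrizer of a diagram vanishes then so does the symmetrizer of a smaller diagram, if
the factors of the boxes in between do not vanish. -/
theorem W_zero_of_append (hty : TyOk ty) {d : Bool → ℚ} (hd : ∀ b, T.trE (p b) = d b)
    (hp : ∀ b, p b * p b = p b) : ∀ {B B0 : List (ℕ × ℕ)}, IsY (B ++ B0) →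
    (∀ b ∈ B, fac ty d b ≠ 0) →
    T.W ty p (fn (B ++ B0) (B.length + B0.length)) = 0 → T.W ty p (fn B0 B0.length) = 0
  | [], B0, _, _, h0 => by
    have h1 : ∀ m, m = B0.length → T.W ty p (fn B0 m) = 0 → T.W ty p (fn B0 B0.length) = 0 := by
      rintro m rfl h; exact h
    refine h1 _ (by simp) h0
  | b :: B, B0, h, hB, h0 => by
    have h1 : ∀ m, m = (B.length + B0.length) + 1 →
        T.W ty p (fn (b :: (B ++ B0)) m) = 0 →
        T.W ty p (fn (b :: (B ++ B0)) ((B.length + B0.length) + 1)) = 0 := by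
      rintro m rfl h; exact h
    have h2 := h1 _ (by simp only [List.length_cons]; omega) h0
    have h3 := pt_W (T := T) (N := T.bot) hty hd (p := p)
      (fun b => bot_NE (by rw [hp, sub_self])) (b := b) (B := B ++ B0)
      (n := B.length + B0.length) (by simp) h
    have h4 : ∀ x : A (B.length + B0.length), x ∈ T.bot.N (B.length + B0.length) → x = 0 :=
      fun x hx => hx
    have h5 := h4 _ h3
    rw [h2, map_zero, zero_sub, neg_eq_zero, smul_eq_zero] at h5
    exact W_zero_of_append hty hd hp h.1 (fun c hc => hB c (List.mem_cons_of_mem _ hc))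
      (h5.resolve_left (hB b List.mem_cons_self))

/-- The trace of the typed Young symmetrizer. -/
theorem tr_W (hty : TyOk ty) {d : Bool → ℚ} (hd : ∀ b, T.trE (p b) = d b)
    (hp : ∀ b z, T.trE ((p b * p b - p b) * z) = 0) : ∀ {B : List (ℕ × ℕ)} {n : ℕ},
    B.length = n → IsY B → T.tr n (T.W ty p (fn B n)) = (B.map (fac ty d)).prod
  | [], n, hn, _ => by
    obtain rfl : n = 0 := by simpa using hn.symm
    have e1 : ∀ (ρ : Fin 0 → ℕ × Bool), Rw (T.th 0) ρ = 1 := by
      classical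
      intro ρ
      rw [Rw, Fintype.sum_unique, if_pos (show Fx ρ default from fun i => i.elim0)]
      exact map_one _
    have e2 : ∀ (ρ : Fin 0 → ℕ × Bool), Cw (T.th 0) ρ = 1 := by
      classical
      intro ρ
      rw [Cw, Fintype.sum_unique, if_pos (show Fx ρ default from fun i => i.elim0)]
      have : (default : Perm (Fin 0)) = 1 := rfl
      rw [this, map_one, sg_one, one_smul]
    rw [W, rch, e1, e2, one_mul, one_mul, H, T.tr_one]
    simp
  | b :: B, 0, hn, _ => by simp at hn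
  | b :: B, n + 1, hn, h => by
    have hn' : B.length = n := by simpa using hn
    have h1 := tr_rad T (pt_W (T := T) (N := T.rad) hty hd (fun b => rad_NE (hp b)) hn' h)
    rw [map_sub, map_smul, T.tr_pt, sub_eq_zero] at h1
    rw [h1, tr_W hty hd hp hn' h.1, List.map_cons, List.prod_cons, smul_eq_mul]

end TT

end Pool.Agent.V8H87.GG
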